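import Mathlib

/-!
# Dressing in a graded setting
-/

set_option autoImplicit false

open PowerSeries

namespace Pool.Agent.Lib.H29J

attribute [local instance 100] LieRing.ofAssociativeRing

/-- The graded setting: `a` is the grading element, `g1, g0, gm` are the homogeneous parts of a
Lie subalgebra of degrees `1, 0, -1`, `δ` is an operator of degree `0` which normalises them. -/
structure Grad (𝕜 E : Type) [Field 𝕜] [Ring E] [Algebra 𝕜 E] where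
  a : E
  δ : E
  g1 : Submodule 𝕜 E
  g0 : Submodule 𝕜 E
  gm : Submodule 𝕜 E
  a3 : a * a * a = a
  x3 : ∀ x ∈ g1, x * x * x = 0
  m3 : ∀ x ∈ gm, x * x * x = 0
  a1 : ∀ x ∈ g1, ⁅a, x⁆ = x
  a0 : ∀ x ∈ g0, ⁅a, x⁆ = 0
  am : ∀ x ∈ gm, ⁅a, x⁆ = -x
  c11 : ∀ x ∈ g1, ∀ y ∈ g1, ⁅x, y⁆ = 0
  cmm : ∀ x ∈ gm, ∀ y ∈ gm, ⁅x, y⁆ = 0
  c1m : ∀ x ∈ g1, ∀ y ∈ gm, ⁅x, y⁆ ∈ g0
  c10 : ∀ x ∈ g1, ∀ y ∈ g0, ⁅x, y⁆ ∈ g1
  cm0 : ∀ x ∈ gm, ∀ y ∈ g0, ⁅x, y⁆ ∈ gm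
  δa : ⁅δ, a⁆ = 0
  δ1 : ∀ x ∈ g1, ⁅δ, x⁆ ∈ g1
  δm : ∀ x ∈ gm, ⁅δ, x⁆ ∈ gm

section expo

variable {𝕜 R : Type} [Field 𝕜] [CharZero 𝕜] [Ring R] [Algebra 𝕜 R]

theorem half_add (s : R) : (1 / 2 : 𝕜) • s + (1 / 2 : 𝕜) • s = s := by
  rw [← add_smul]; norm_num

theorem expo_mul (s : R) (h : s * s * s = 0) :
    (1 + s + (1 / 2 : 𝕜) • (s * s)) * (1 - s + (1 / 2 : 𝕜) • (s * s)) = 1 := by
  set t := (1 / 2 : 𝕜) • (s * s) with ht
  have h1 : t + t = s * s := half_add _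
  have h2 : t * s = 0 := by rw [ht, smul_mul_assoc, h, smul_zero]
  have h3 : s * t = 0 := by rw [ht, mul_smul_comm, ← mul_assoc, h, smul_zero]
  have h4 : t * t = 0 := by
    nth_rewrite 1 [ht]
    rw [smul_mul_assoc, mul_assoc, h3, mul_zero, smul_zero]
  have : (1 + s + t) * (1 - s + t) = 1 + (t + t) - s * s + s * t - t * s + t * t := by
    noncomm_ring
  rw [this, h1, h2, h3, h4]; abel

theorem expo_mul' (s : R) (h : s * s * s = 0) :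
    (1 - s + (1 / 2 : 𝕜) • (s * s)) * (1 + s + (1 / 2 : 𝕜) • (s * s)) = 1 := by
  have := expo_mul (𝕜 := 𝕜) (-s) (by simp [h])
  simpa [sub_eq_add_neg] using this

theorem expo_conj (s Y : R) (h : s * s * s = 0) (h3 : ⁅s, ⁅s, ⁅s, Y⁆⁆⁆ = 0) :
    (1 + s + (1 / 2 : 𝕜) • (s * s)) * Y * (1 - s + (1 / 2 : 𝕜) • (s * s)) =
      Y + ⁅s, Y⁆ + (1 / 2 : 𝕜) • ⁅s, ⁅s, Y⁆⁆ := by
  set t := (1 / 2 : 𝕜) • (s * s) with ht
  have e1 : ⁅s, ⁅s, ⁅s, Y⁆⁆⁆ = (s * s * s) * Y - 3 • (s * s * Y * s) + 3 • (s * Y * (s * s))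
      - Y * (s * s * s) := by
    simp only [Ring.lie_def]; noncomm_ring
  rw [h3, h, zero_mul, mul_zero, sub_zero, zero_sub, ← sub_eq_neg_add, ← smul_sub] at e1
  have e2 : s * Y * (s * s) = s * s * Y * s := by
    have : (3 : 𝕜) • (s * Y * (s * s) - s * s * Y * s) = 0 := by
      rw [show (3 : 𝕜) = ((3 : ℕ) : 𝕜) by norm_num, Nat.cast_smul_eq_nsmul]; exact e1.symm
    have h5 := congrArg (fun z => (3 : 𝕜)⁻¹ • z) this
    simp only [smul_smul, smul_zero] at h5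
    rw [inv_mul_cancel₀ (by norm_num), one_smul] at h5
    exact sub_eq_zero.mp h5
  have e3 : s * Y * t = t * Y * s := by
    rw [ht, mul_smul_comm, e2, smul_mul_assoc, smul_mul_assoc]
  have e4 : t * Y * t = 0 := by
    have : s * s * Y * (s * s) = 0 := by
      rw [mul_assoc s s Y, mul_assoc s (s * Y), e2]
      rw [← mul_assoc, ← mul_assoc, ← mul_assoc, h, zero_mul, zero_mul]
    rw [ht, smul_mul_assoc, smul_mul_assoc, mul_smul_comm, this, smul_zero, smul_zero]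
  have e5 : (1 / 2 : 𝕜) • ⁅s, ⁅s, Y⁆⁆ = t * Y - s * Y * s + Y * t := by
    have : ⁅s, ⁅s, Y⁆⁆ = s * s * Y + Y * (s * s) - (s * Y * s + s * Y * s) := by
      simp only [Ring.lie_def]; noncomm_ring
    rw [this, smul_sub, smul_add, smul_add (1 / 2 : 𝕜) (s * Y * s), half_add, ht,
      smul_mul_assoc, mul_smul_comm]
    abel
  rw [e5]
  have : (1 + s + t) * Y * (1 - s + t) = Y + (s * Y - Y * s) + (t * Y - s * Y * s + Y * t)
      + (s * Y * t - t * Y * s) + t * Y * t := by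
    noncomm_ring
  rw [this, e3, e4, sub_self, Ring.lie_def]; abel

end expo

namespace Grad

variable {𝕜 E : Type} [Field 𝕜] [CharZero 𝕜] [Ring E] [Algebra 𝕜 E] (G : Grad 𝕜 E)

/-- The whole graded Lie algebra. -/
def tot : Submodule 𝕜 E := G.g1 ⊔ G.g0 ⊔ G.gm

/-- Power series with coefficients in the Lie algebra. -/
def ser : Submodule 𝕜 E⟦X⟧ where
  carrier := {Y | ∀ n, coeff n Y ∈ G.tot}
  add_mem' h1 h2 n := by rw [map_add]; exact add_mem (h1 n) (h2 n)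
  zero_mem' n := by rw [map_zero]; exact zero_mem _
  smul_mem' c Y h n := by rw [coeff_smul]; exact Submodule.smul_mem _ c (h n)

theorem mem_tot {G : Grad 𝕜 E} {y : E} : y ∈ G.tot ↔ ∃ y1 ∈ G.g1, ∃ y0 ∈ G.g0, ∃ ym ∈ G.gm,
    y = y1 + y0 + ym := by
  constructor
  · intro h
    obtain ⟨z, hz, ym, hm, rfl⟩ := Submodule.mem_sup.mp h
    obtain ⟨y1, h1, y0, h0, rfl⟩ := Submodule.mem_sup.mp hz
    exact ⟨y1, h1, y0, h0, ym, hm, rfl⟩
  · rintro ⟨y1, h1, y0, h0, ym, hm, rfl⟩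
    exact add_mem (Submodule.mem_sup_left (add_mem (Submodule.mem_sup_left h1)
      (Submodule.mem_sup_right h0))) (Submodule.mem_sup_right hm)

theorem g1_tot {x : E} (h : x ∈ G.g1) : x ∈ G.tot :=
  Submodule.mem_sup_left (Submodule.mem_sup_left h)
theorem g0_tot {x : E} (h : x ∈ G.g0) : x ∈ G.tot :=
  Submodule.mem_sup_left (Submodule.mem_sup_right h)
theorem gm_tot {x : E} (h : x ∈ G.gm) : x ∈ G.tot := Submodule.mem_sup_right h

/-- closure of `tot` under brackets with `g1` -/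
theorem br1 {x y : E} (hx : x ∈ G.g1) (hy : y ∈ G.tot) :
    ⁅x, y⁆ ∈ G.tot ∧ ⁅x, ⁅x, ⁅x, y⁆⁆⁆ = 0 := by
  obtain ⟨y1, h1, y0, h0, ym, hm, rfl⟩ := mem_tot.mp hy
  have e1 := G.c11 x hx y1 h1
  have e0 := G.c10 x hx y0 h0
  have em := G.c1m x hx ym hm
  have e00 := G.c11 x hx _ e0
  have em0 := G.c10 x hx _ em
  have em00 := G.c11 x hx _ em0
  rw [lie_add, lie_add, e1, zero_add]
  refine ⟨add_mem (G.g1_tot e0) (G.g0_tot em), ?_⟩
  rw [lie_add, e00, zero_add, em00]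

/-- closure of `tot` under brackets with `gm` -/
theorem brm {x y : E} (hx : x ∈ G.gm) (hy : y ∈ G.tot) :
    ⁅x, y⁆ ∈ G.tot ∧ ⁅x, ⁅x, ⁅x, y⁆⁆⁆ = 0 := by
  obtain ⟨y1, h1, y0, h0, ym, hm, rfl⟩ := mem_tot.mp hy
  have e1 : ⁅x, y1⁆ ∈ G.g0 := by
    rw [← lie_skew]; exact neg_mem (G.c1m y1 h1 x hx)
  have e0 := G.cm0 x hx y0 h0
  have em := G.cmm x hx ym hm
  have e00 := G.cmm x hx _ e0
  have em0 := G.cm0 x hx _ e1
  have em00 := G.cmm x hx _ em0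
  rw [lie_add, lie_add, em, add_zero]
  refine ⟨add_mem (G.g0_tot e1) (G.gm_tot e0), ?_⟩
  rw [lie_add, e00, add_zero, em00]

/-- bracket with `X^n x`, coefficientwise -/
theorem coeff_br (n k : ℕ) (x : E) (Y : E⟦X⟧) :
    coeff k ⁅(X : E⟦X⟧) ^ n * C x, Y⁆ = if n ≤ k then ⁅x, coeff (k - n) Y⁆ else 0 := by
  rw [Ring.lie_def, map_sub, mul_assoc, coeff_X_pow_mul']
  have : Y * (X ^ n * C x) = X ^ n * (Y * C x) := by
    rw [← mul_assoc, (commute_X_pow Y n).eq, mul_assoc]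
  rw [this, coeff_X_pow_mul']
  split_ifs
  · rw [coeff_C_mul, coeff_mul_C, Ring.lie_def]
  · simp

/-- The relation: `L'` is obtained from `L` by an admissible conjugation. -/
def Conj (L L' : E⟦X⟧) : Prop :=
  ∃ U V : E⟦X⟧, U * V = 1 ∧ V * U = 1 ∧ coeff 0 U = 1 ∧ coeff 0 V = 1 ∧
    (∀ Y ∈ G.ser, V * Y * U ∈ G.ser) ∧ V * C G.a * U - C G.a ∈ G.ser ∧ L' = U * L * V

theorem Conj.refl (L : E⟦X⟧) : G.Conj L L :=
  ⟨1, 1, by simp, by simp, by simp, by simp, fun Y hY => by simpa using hY,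
    by simpa using zero_mem _, by simp⟩

theorem Conj.trans {L L' L'' : E⟦X⟧} (h : G.Conj L L') (h' : G.Conj L' L'') : G.Conj L L'' := by
  obtain ⟨U, V, h1, h2, h3, h4, h5, h6, rfl⟩ := h
  obtain ⟨U', V', k1, k2, k3, k4, k5, k6, rfl⟩ := h'
  refine ⟨U' * U, V * V', ?_, ?_, ?_, ?_, ?_, ?_, ?_⟩
  · rw [mul_assoc, ← mul_assoc U V, h1, one_mul, k1]
  · rw [mul_assoc, ← mul_assoc V' U', k2, one_mul, h2]
  · rw [coeff_mul]; simp [h3, k3]
  · rw [coeff_mul]; simp [h4, k4]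
  · intro Y hY
    have := h5 _ (k5 Y hY)
    have e : V * V' * Y * (U' * U) = V * (V' * Y * U') * U := by noncomm_ring
    rw [e]; exact this
  · have := h5 _ k6
    have e : V * V' * C G.a * (U' * U) - C G.a =
        V * (V' * C G.a * U' - C G.a) * U + (V * C G.a * U - C G.a) := by noncomm_ring
    rw [e]; exact add_mem this h6
  · noncomm_ring

theorem coeff_XC (k : ℕ) (d : E) :
    coeff k ((X : E⟦X⟧) * C d) = if k = 1 then d else 0 := by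
  cases k with
  | zero => simp
  | succ k => rw [coeff_succ_X_mul, coeff_C]; simp

theorem coeff_XnC (n k : ℕ) (x : E) :
    coeff k ((X : E⟦X⟧) ^ n * C x) = if k = n then x else 0 := by
  rw [coeff_X_pow_mul', coeff_C]
  split_ifs <;> first | rfl | omega

/-- One elementary conjugation. -/
theorem step (ε : 𝕜) (n : ℕ) (hn : 1 ≤ n) (x : E) (hx : x ∈ G.tot) (x3 : x * x * x = 0)
    (ha : ⁅G.a, x⁆ = ε • x) (hδ : ⁅G.δ, x⁆ ∈ G.tot) (hδ2 : ⁅x, ⁅G.δ, x⁆⁆ = 0)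
    (ht : ∀ y ∈ G.tot, ⁅x, y⁆ ∈ G.tot ∧ ⁅x, ⁅x, ⁅x, y⁆⁆⁆ = 0)
    (Z : E⟦X⟧) (hZ : Z ∈ G.ser) (hZ0 : coeff 0 Z = 0) :
    ∃ Z' ∈ G.ser, coeff 0 Z' = 0 ∧ G.Conj (X * C G.δ - C G.a - Z) (X * C G.δ - C G.a - Z') ∧
      (∀ k, k < n → coeff k Z' = coeff k Z) ∧ coeff n Z' = coeff n Z - ε • x := by
  obtain ⟨s, hs⟩ : ∃ s : E⟦X⟧, s = X ^ n * C x := ⟨_, rfl⟩
  have cs : ∀ k, coeff k s = if k = n then x else 0 := fun k => by rw [hs, coeff_XnC]
  have cb : ∀ k (Y : E⟦X⟧), coeff k ⁅s, Y⁆ = if n ≤ k then ⁅x, coeff (k - n) Y⁆ else 0 :=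
    fun k Y => by rw [hs]; exact coeff_br n k x Y
  have s3 : s * s * s = 0 := by
    have hc : ∀ Y : E⟦X⟧, Y * X ^ n = X ^ n * Y := fun Y => (commute_X_pow Y n).eq
    have : s * s * s = X ^ n * (X ^ n * (X ^ n * (C x * C x * C x))) := by
      rw [hs]
      rw [mul_assoc (X ^ n) (C x) (X ^ n * C x), ← mul_assoc (C x) (X ^ n) (C x), hc (C x),
        mul_assoc (X ^ n) (X ^ n * C x * C x) (X ^ n * C x),
        ← mul_assoc (X ^ n * C x * C x) (X ^ n) (C x), hc (X ^ n * C x * C x)]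
      noncomm_ring
    rw [this, ← map_mul, ← map_mul, x3, map_zero]; simp
  have sser : s ∈ G.ser := by
    intro k; rw [cs]; split_ifs
    · exact hx
    · exact zero_mem _
  have bser : ∀ Y ∈ G.ser, ⁅s, Y⁆ ∈ G.ser := by
    intro Y hY k; rw [cb]; split_ifs
    · exact (ht _ (hY _)).1
    · exact zero_mem _
  have b3 : ∀ Y ∈ G.ser, ⁅s, ⁅s, ⁅s, Y⁆⁆⁆ = 0 := by
    intro Y hY
    ext k
    rw [cb, map_zero]
    split_ifs with h1
    · rw [cb]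
      split_ifs with h2
      · rw [cb]
        split_ifs with h3
        · exact (ht _ (hY _)).2
        · rw [lie_zero, lie_zero]
      · rw [lie_zero]
    · rfl
  have sa : ⁅s, C G.a⁆ = -(ε • s) := by
    ext k
    rw [cb, map_neg, coeff_smul, cs, coeff_C]
    have hxa : ⁅x, G.a⁆ = -(ε • x) := by rw [← lie_skew, ha]
    by_cases h : k = n
    · subst h
      simp [hxa]
    · by_cases h2 : n ≤ k
      · have : k - n ≠ 0 := by omega
        simp [h, h2, this]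
      · simp [h, h2]
  have sa2 : ⁅s, ⁅s, C G.a⁆⁆ = 0 := by
    rw [sa, lie_neg, Ring.lie_def, mul_smul_comm, smul_mul_assoc, sub_self, neg_zero]
  have sd2 : ⁅s, ⁅s, X * C G.δ⁆⁆ = 0 := by
    ext k
    rw [cb, map_zero]
    split_ifs with h1
    · rw [cb]
      split_ifs with h2
      · rw [coeff_XC]
        split_ifs
        · have hxd : ⁅x, G.δ⁆ = -⁅G.δ, x⁆ := (lie_skew _ _).symm
          rw [hxd, lie_neg, hδ2, neg_zero]
        · rw [lie_zero, lie_zero]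
      · rw [lie_zero]
    · rfl
  have dser : ⁅s, X * C G.δ⁆ ∈ G.ser := by
    intro k
    rw [cb]
    split_ifs
    · rw [coeff_XC]
      split_ifs
      · rw [← lie_skew]; exact neg_mem hδ
      · rw [lie_zero]; exact zero_mem _
    · exact zero_mem _
  obtain ⟨U, hU⟩ : ∃ U : E⟦X⟧, U = 1 + s + (1 / 2 : 𝕜) • (s * s) := ⟨_, rfl⟩
  obtain ⟨V, hV⟩ : ∃ V : E⟦X⟧, V = 1 - s + (1 / 2 : 𝕜) • (s * s) := ⟨_, rfl⟩
  have UYV : ∀ Y : E⟦X⟧, ⁅s, ⁅s, ⁅s, Y⁆⁆⁆ = 0 →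
      U * Y * V = Y + ⁅s, Y⁆ + (1 / 2 : 𝕜) • ⁅s, ⁅s, Y⁆⁆ := fun Y hY => by
    rw [hU, hV]; exact expo_conj s Y s3 hY
  have VYU : ∀ Y : E⟦X⟧, ⁅s, ⁅s, ⁅s, Y⁆⁆⁆ = 0 →
      V * Y * U = Y - ⁅s, Y⁆ + (1 / 2 : 𝕜) • ⁅s, ⁅s, Y⁆⁆ := fun Y hY => by
    have h1 : (-s) * (-s) * (-s) = 0 := by
      rw [neg_mul_neg, mul_neg, s3, neg_zero]
    have h2 : ⁅-s, ⁅-s, ⁅-s, Y⁆⁆⁆ = 0 := by
      simp only [neg_lie, lie_neg, neg_neg, hY, neg_zero]
    have := expo_conj (𝕜 := 𝕜) (-s) Y h1 h2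
    simp only [neg_lie, lie_neg, neg_neg, neg_mul_neg, sub_neg_eq_add, ← sub_eq_add_neg] at this
    rw [hU, hV]
    exact this
  have s00 : coeff 0 s = 0 := by rw [cs, if_neg (by omega)]
  have ss00 : coeff 0 (s * s) = 0 := by
    rw [coeff_mul]; simp [s00]
  refine ⟨-⁅s, X * C G.δ⁆ - ε • s + (Z + ⁅s, Z⁆ + (1 / 2 : 𝕜) • ⁅s, ⁅s, Z⁆⁆), ?_, ?_, ?_, ?_, ?_⟩
  · exact add_mem (sub_mem (neg_mem dser) (Submodule.smul_mem _ _ sser))
      (add_mem (add_mem hZ (bser _ hZ)) (Submodule.smul_mem _ _ (bser _ (bser _ hZ))))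
  · simp only [map_add, map_sub, map_neg, coeff_smul, cb, s00, hZ0]
    have : ¬ n ≤ 0 := by omega
    simp [this]
  · refine ⟨U, V, ?_, ?_, ?_, ?_, ?_, ?_, ?_⟩
    · rw [hU, hV]; exact expo_mul s s3
    · rw [hU, hV]; exact expo_mul' s s3
    · rw [hU, map_add, map_add, coeff_smul, s00, ss00]; simp
    · rw [hV, map_add, map_sub, coeff_smul, s00, ss00]; simp
    · intro Y hY
      rw [VYU Y (b3 Y hY)]
      exact add_mem (sub_mem hY (bser _ hY)) (Submodule.smul_mem _ _ (bser _ (bser _ hY)))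
    · rw [VYU _ (by rw [sa2, lie_zero]), sa2, sa, smul_zero, add_zero]
      have : C G.a - -(ε • s) - C G.a = ε • s := by abel
      rw [this]
      exact Submodule.smul_mem _ _ sser
    · have e : U * (X * C G.δ - C G.a - Z) * V =
          U * (X * C G.δ) * V - U * C G.a * V - U * Z * V := by
        rw [mul_sub, mul_sub, sub_mul, sub_mul]
      rw [e, UYV _ (by rw [sd2, lie_zero]), UYV _ (by rw [sa2, lie_zero]), UYV _ (b3 Z hZ), sa2,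
        sd2, sa, smul_zero, add_zero, add_zero]
      abel
  · intro k hk
    have h1 : ¬ n ≤ k := by omega
    have h2 : k ≠ n := by omega
    simp only [map_add, map_sub, map_neg, coeff_smul, cb, cs]
    simp [h1, h2]
  · have h1 : ¬ n ≤ 0 := by omega
    simp only [map_add, map_sub, map_neg, coeff_smul, cb, cs]
    simp [h1, hZ0]
    abel

end Grad

end Pool.Agent.Lib.H29J
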