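import Pool.Agent.Lib.H29J.B

/-!
# The resolvent: existence, uniqueness, parity, flows
-/

set_option autoImplicit false

open PowerSeries

namespace Pool.Agent.Lib.H29J

attribute [local instance 100] LieRing.ofAssociativeRing

section low

variable {E : Type} [Ring E]

/-- `Y` starts in degree `n`. -/
def Low (n : ℕ) (Y : E⟦X⟧) : Prop := ∀ k, k < n → coeff k Y = 0

theorem Low.mulL {n : ℕ} {Y : E⟦X⟧} (h : Low n Y) (P : E⟦X⟧) :
    Low n (P * Y) ∧ coeff n (P * Y) = coeff 0 P * coeff n Y := by
  constructor
  · intro k hk
    rw [coeff_mul]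
    refine Finset.sum_eq_zero fun p hp => ?_
    have := Finset.HasAntidiagonal.mem_antidiagonal.mp hp
    rw [h p.2 (by omega), mul_zero]
  · rw [coeff_mul, Finset.sum_eq_single_of_mem (0, n) (by simp)]
    intro p hp hne
    have := Finset.HasAntidiagonal.mem_antidiagonal.mp hp
    have h1 : p.2 < n := by
      rcases Nat.lt_or_ge p.2 n with h' | h'
      · exact h'
      · exact absurd (Prod.ext (by simp; omega) (by simp; omega)) hne
    rw [h p.2 h1, mul_zero]

theorem Low.mulR {n : ℕ} {Y : E⟦X⟧} (h : Low n Y) (P : E⟦X⟧) :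
    Low n (Y * P) ∧ coeff n (Y * P) = coeff n Y * coeff 0 P := by
  constructor
  · intro k hk
    rw [coeff_mul]
    refine Finset.sum_eq_zero fun p hp => ?_
    have := Finset.HasAntidiagonal.mem_antidiagonal.mp hp
    rw [h p.1 (by omega), zero_mul]
  · rw [coeff_mul, Finset.sum_eq_single_of_mem (n, 0) (by simp)]
    intro p hp hne
    have := Finset.HasAntidiagonal.mem_antidiagonal.mp hp
    have h1 : p.1 < n := by
      rcases Nat.lt_or_ge p.1 n with h' | h'
      · exact h'
      · exact absurd (Prod.ext (by simp; omega) (by simp; omega)) hne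
    rw [h p.1 h1, zero_mul]

end low

section lin

variable {𝕜 E : Type} [Field 𝕜] [CharZero 𝕜] [Ring E] [Algebra 𝕜 E]

include 𝕜 in
/-- The key algebraic fact. -/
theorem key_zero {a d : E} (a3 : a * a * a = a) (h1 : ⁅a, d⁆ = 0)
    (h2 : a * a * d + a * d * a + d * a * a = d) : d = 0 := by
  have hc : a * d = d * a := by rw [Ring.lie_def] at h1; exact sub_eq_zero.mp h1
  have e1 : a * d * a = a * a * d := by rw [mul_assoc, ← hc, mul_assoc]
  have e2 : d * a * a = a * a * d := by rw [← hc, mul_assoc, ← hc, mul_assoc]
  rw [e1, e2] at h2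
  have h3 : (3 : ℕ) • (a * a * d) = d := by
    have : a * a * d + a * a * d + a * a * d = (3 : ℕ) • (a * a * d) := by abel
    rw [← this, h2]
  have h4 : (3 : ℕ) • (a * a * d) = a * a * d := by
    have := congrArg (fun z => a * a * z) h3
    simp only [mul_smul_comm] at this
    have e3 : a * a * (a * a * d) = a * a * d := by
      have : a * a * (a * a * d) = (a * a * a) * a * d := by noncomm_ring
      rw [this, a3]
    rwa [e3] at this
  have h5 : (2 : ℕ) • (a * a * d) = 0 := by
    have : (3 : ℕ) • (a * a * d) = (2 : ℕ) • (a * a * d) + a * a * d := by abel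
    rw [this] at h4
    exact left_eq_add.mp (by rw [add_comm]; exact h4.symm)
  have h6 : a * a * d = 0 := by
    have h7 : (2 : 𝕜) • (a * a * d) = 0 := by
      rw [show (2 : 𝕜) = ((2 : ℕ) : 𝕜) by norm_num, Nat.cast_smul_eq_nsmul]; exact h5
    have := congrArg (fun z => (2 : 𝕜)⁻¹ • z) h7
    simp only [smul_smul, smul_zero] at this
    rwa [inv_mul_cancel₀ (by norm_num), one_smul] at this
  rw [← h3, h6, smul_zero]

include 𝕜 in
/-- Linear uniqueness: a power series killed by `ad L` (`L = μδ - a - μq`) and by the linearised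
cubic equation vanishes. -/
theorem lin_unique {a δ q : E} (a3 : a * a * a = a) (P Y : E⟦X⟧) (hP : coeff 0 P = a)
    (h1 : ⁅X * C (δ - q) - C a, Y⁆ = 0) (h2 : P * P * Y + P * Y * P + Y * P * P = Y) : Y = 0 := by
  have key : ∀ n, Low n Y := by
    intro n
    induction n with
    | zero => intro k hk; omega
    | succ n ih =>
      intro k hk
      rcases Nat.lt_or_ge k n with h | h
      · exact ih k h
      · have hk : k = n := by omega
        subst hk
        apply key_zero (𝕜 := 𝕜) a3
        · have := congrArg (coeff k) h1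
          rw [Ring.lie_def, map_sub, (ih.mulL _).2, (ih.mulR _).2, map_zero] at this
          simp only [map_sub, coeff_zero_X_mul, zero_sub, coeff_zero_C, neg_mul, mul_neg,
            sub_neg_eq_add] at this
          rw [Ring.lie_def, ← neg_eq_zero, neg_sub, sub_eq_neg_add]
          exact this
        · have := congrArg (coeff k) h2
          rw [map_add, map_add, mul_assoc Y P P, (ih.mulL _).2, (ih.mulR _).2] at this
          have e : coeff k (P * Y * P) = a * coeff k Y * a := by
            rw [((ih.mulL P).1.mulR P).2, (ih.mulL P).2, hP]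
          have e0 : coeff 0 (P * P) = a * a := by
            rw [coeff_mul]; simp [hP]
          rw [e, e0] at this
          rw [mul_assoc (coeff k Y) a a]
          exact this
  ext n
  rw [key (n + 1) n (by omega), map_zero]

end lin

end Pool.Agent.Lib.H29J
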