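import Pool.Agent.Lib.H29J.C

/-!
# The resolvent: existence
-/

set_option autoImplicit false

open PowerSeries

namespace Pool.Agent.Lib.H29J

attribute [local instance 100] LieRing.ofAssociativeRing

theorem Low.sub {E : Type} [Ring E] {n : ℕ} {Y Z : E⟦X⟧} (h : Low n Y) (h' : Low n Z) :
    Low n (Y - Z) := fun k hk => by rw [map_sub, h k hk, h' k hk, sub_zero]

theorem Low.add {E : Type} [Ring E] {n : ℕ} {Y Z : E⟦X⟧} (h : Low n Y) (h' : Low n Z) :
    Low n (Y + Z) := fun k hk => by rw [map_add, h k hk, h' k hk, add_zero]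

section fin

variable {𝕜 E : Type} [Field 𝕜] [CharZero 𝕜] [Ring E] [Algebra 𝕜 E]

include 𝕜 in
/-- Uniqueness up to finite order. -/
theorem fin_unique {a δ q : E} (a3 : a * a * a = a) (P P' : E⟦X⟧) (hP : coeff 0 P = a)
    (hP' : coeff 0 P' = a) (h2 : P * P * P = P) (h2' : P' * P' * P' = P') (n : ℕ)
    (h1 : ∀ k, k < n → coeff k ⁅X * C (δ - q) - C a, P⁆ = 0)
    (h1' : ∀ k, k < n → coeff k ⁅X * C (δ - q) - C a, P'⁆ = 0) :
    Low n (P' - P) := by
  obtain ⟨Y, hY⟩ : ∃ Y, Y = P' - P := ⟨_, rfl⟩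
  have hP'' : P' = P + Y := by rw [hY]; abel
  have Y0 : coeff 0 Y = 0 := by rw [hY, map_sub, hP, hP', sub_self]
  rw [← hY]
  have key : ∀ m, m ≤ n → Low m Y := by
    intro m
    induction m with
    | zero => intro _ k hk; omega
    | succ m ih =>
      intro hm k hk
      have ih := ih (by omega)
      rcases Nat.lt_or_ge k m with h | h
      · exact ih k h
      · have hk : k = m := by omega
        subst hk
        have c1 : coeff k ⁅X * C (δ - q) - C a, Y⁆ = 0 := by
          rw [hY, lie_sub, map_sub, h1 k (by omega), h1' k (by omega), sub_zero]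
        apply key_zero (𝕜 := 𝕜) a3
        · rw [Ring.lie_def, map_sub, (ih.mulL _).2, (ih.mulR _).2] at c1
          simp only [map_sub, coeff_zero_X_mul, zero_sub, coeff_zero_C, neg_mul, mul_neg,
            sub_neg_eq_add] at c1
          rw [Ring.lie_def, ← neg_eq_zero, neg_sub, sub_eq_neg_add]
          exact c1
        · have e : P' * P' * P' = P * P * P + (P * P * Y + P * Y * P + Y * (P * P)) +
              (P * (Y * Y) + Y * P * Y + Y * Y * P + Y * (Y * Y)) := by
            rw [hP'']; noncomm_ring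
          rw [h2', h2] at e
          have e' : Y = (P * P * Y + P * Y * P + Y * (P * P)) +
              (P * (Y * Y) + Y * P * Y + Y * Y * P + Y * (Y * Y)) := by
            rw [add_assoc] at e
            rw [hY]
            nth_rewrite 1 [e]
            rw [← hY]
            abel
          have YY : Low k (Y * Y) ∧ coeff k (Y * Y) = 0 := by
            refine ⟨(ih.mulL Y).1, ?_⟩
            rw [(ih.mulL Y).2, Y0, zero_mul]
          have t1 : coeff k (P * (Y * Y)) = 0 := by rw [(YY.1.mulL P).2, YY.2, mul_zero]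
          have t2 : coeff k (Y * P * Y) = 0 := by
            rw [((ih.mulL (Y * P))).2, coeff_mul]
            simp [Y0]
          have t3 : coeff k (Y * Y * P) = 0 := by rw [(YY.1.mulR P).2, YY.2, zero_mul]
          have t4 : coeff k (Y * (Y * Y)) = 0 := by rw [(YY.1.mulL Y).2, YY.2, mul_zero]
          have c2 := congrArg (coeff k) e'
          simp only [map_add, t1, t2, t3, t4, add_zero] at c2
          have e1 : coeff k (P * Y * P) = a * coeff k Y * a := by
            rw [((ih.mulL P).1.mulR P).2, (ih.mulL P).2, hP]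
          have e0 : coeff 0 (P * P) = a * a := by
            rw [coeff_mul]; simp [hP]
          rw [e1, (ih.mulL _).2, (ih.mulR _).2, e0] at c2
          rw [mul_assoc (coeff k Y) a a]
          exact c2.symm
  exact key n le_rfl

end fin

namespace Grad

variable {𝕜 E : Type} [Field 𝕜] [CharZero 𝕜] [Ring E] [Algebra 𝕜 E] (G : Grad 𝕜 E)

/-- Dressing up to order `n`. -/
theorem dress (q : E) (hq : q ∈ G.tot) (n : ℕ) (hn : 1 ≤ n) :
    ∃ Z ∈ G.ser, coeff 0 Z = 0 ∧ (∀ k, k < n → coeff k Z ∈ G.g0) ∧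
      G.Conj (X * C G.δ - C G.a - X * C q) (X * C G.δ - C G.a - Z) := by
  induction n, hn using Nat.le_induction with
  | base =>
    refine ⟨X * C q, fun k => ?_, by simp, fun k hk => ?_, Conj.refl G _⟩
    · rw [coeff_XC]; split_ifs
      · exact hq
      · exact zero_mem _
    · rw [coeff_XC, if_neg (by omega)]; exact zero_mem _
  | succ n hn ih =>
    obtain ⟨Z, hZ, hZ0, hZk, hC⟩ := ih
    obtain ⟨z1, h1, z0, h0, zm, hm, hz⟩ := mem_tot.mp (hZ n)
    obtain ⟨Z', k1, k2, k3, k4, k5⟩ := G.step 1 n hn z1 (G.g1_tot h1) (G.x3 _ h1)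
      (by rw [G.a1 _ h1, one_smul]) (G.g1_tot (G.δ1 _ h1)) (G.c11 _ h1 _ (G.δ1 _ h1))
      (fun y hy => G.br1 h1 hy) Z hZ hZ0
    have hm' : -zm ∈ G.gm := neg_mem hm
    obtain ⟨Z'', l1, l2, l3, l4, l5⟩ := G.step (-1) n hn (-zm) (G.gm_tot hm') (G.m3 _ hm')
      (by rw [G.am _ hm', neg_smul, one_smul]) (G.gm_tot (G.δm _ hm'))
      (G.cmm _ hm' _ (G.δm _ hm')) (fun y hy => G.brm hm' hy) Z' k1 k2
    refine ⟨Z'', l1, l2, fun k hk => ?_, (hC.trans G k3).trans G l3⟩
    rcases Nat.lt_or_ge k n with h | h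
    · rw [l4 k h, k4 k h]; exact hZk k h
    · have hk : k = n := by omega
      subst hk
      rw [l5, k5, hz]
      have : z1 + z0 + zm - (1 : 𝕜) • z1 - (-1 : 𝕜) • -zm = z0 := by
        rw [one_smul, neg_smul, one_smul]; abel
      rw [this]; exact h0

/-- The resolvent up to order `n`. -/
theorem res_fin (q : E) (hq : q ∈ G.tot) (n : ℕ) (hn : 1 ≤ n) :
    ∃ P : E⟦X⟧, coeff 0 P = G.a ∧ P - C G.a ∈ G.ser ∧ P * P * P = P ∧
      ∀ k, k < n → coeff k ⁅X * C (G.δ - q) - C G.a, P⁆ = 0 := by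
  obtain ⟨Z, hZ, hZ0, hZk, U, V, hUV, hVU, hU0, hV0, hser, hVa, hL⟩ := G.dress q hq n hn
  refine ⟨V * C G.a * U, ?_, hVa, ?_, ?_⟩
  · rw [mul_assoc, coeff_mul]
    simp [hV0, hU0]
  · have e : V * C G.a * U * (V * C G.a * U) * (V * C G.a * U) =
        V * (C G.a * (U * V) * C G.a * (U * V) * C G.a) * U := by noncomm_ring
    rw [e, hUV, mul_one, mul_one, ← map_mul, ← map_mul, G.a3]
  · intro k hk
    have e1 : X * C (G.δ - q) - C G.a = V * (X * C G.δ - C G.a - Z) * U := by
      rw [hL]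
      have : V * (U * (X * C G.δ - C G.a - X * C q) * V) * U =
          (V * U) * (X * C G.δ - C G.a - X * C q) * (V * U) := by noncomm_ring
      rw [this, hVU, one_mul, mul_one, map_sub, mul_sub]; abel
    have e2 : ⁅X * C (G.δ - q) - C G.a, V * C G.a * U⁆ =
        V * ⁅X * C G.δ - C G.a - Z, C G.a⁆ * U := by
      rw [e1, Ring.lie_def, Ring.lie_def]
      have : ∀ M N : E⟦X⟧, V * M * U * (V * N * U) - V * N * U * (V * M * U) =
          V * (M * (U * V) * N - N * (U * V) * M) * U := fun M N => by noncomm_ring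
      rw [this, hUV, mul_one, mul_one]
    have e3 : ⁅X * C G.δ - C G.a - Z, C G.a⁆ = -⁅Z, C G.a⁆ := by
      rw [sub_lie, sub_lie, lie_self]
      have : ⁅X * C G.δ, C G.a⁆ = X * C ⁅G.δ, G.a⁆ := by
        rw [Ring.lie_def, Ring.lie_def, map_sub, map_mul, map_mul, ← mul_assoc (C G.a) X,
          (commute_X (C G.a)).eq]
        noncomm_ring
      rw [this, G.δa]; simp
    have low : Low n (-⁅Z, C G.a⁆) := by
      intro k hk
      rw [map_neg, Ring.lie_def, map_sub, coeff_mul_C, coeff_C_mul]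
      have := G.a0 _ (hZk k hk)
      rw [Ring.lie_def] at this
      rw [neg_sub]; exact this
    rw [e2, e3]
    exact ((low.mulL V).1.mulR U).1 k hk

/-- Existence of the resolvent. -/
theorem exists_res (q : E) (hq : q ∈ G.tot) :
    ∃ P : E⟦X⟧, coeff 0 P = G.a ∧ P - C G.a ∈ G.ser ∧ P * P * P = P ∧
      ⁅X * C (G.δ - q) - C G.a, P⁆ = 0 := by
  choose R hR0 hRs hR3 hRL using fun n : ℕ => G.res_fin q hq (n + 1) (by omega)
  obtain ⟨P, hP⟩ : ∃ P : E⟦X⟧, P = PowerSeries.mk (fun k => coeff k (R k)) := ⟨_, rfl⟩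
  have hPk : ∀ n, Low (n + 1) (P - R n) := by
    intro n k hk
    have := fin_unique (𝕜 := 𝕜) G.a3 (R k) (R n) (hR0 k) (hR0 n) (hR3 k) (hR3 n) (k + 1) (hRL k)
      (fun j hj => hRL n j (by omega)) k (by omega)
    rw [map_sub, hP, coeff_mk]
    rw [map_sub] at this
    rw [← neg_sub, this, neg_zero]
  refine ⟨P, ?_, ?_, ?_, ?_⟩
  · rw [hP, coeff_mk]; exact hR0 0
  · intro k
    have := hRs k k
    rw [map_sub] at this ⊢
    rw [hP, coeff_mk]; exact this
  · ext n
    have h := hPk n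
    have e : P * P * P - R n * R n * R n = (P - R n) * (P * P) + R n * ((P - R n) * P)
        + R n * R n * (P - R n) := by noncomm_ring
    have h1 : Low (n + 1) (P * P * P - R n * R n * R n) := by
      rw [e]
      exact ((h.mulR _).1.add ((h.mulR _).1.mulL _).1).add (h.mulL _).1
    have h2 := h1 n (by omega)
    have h3 := h n (by omega)
    rw [map_sub] at h2 h3
    rw [sub_eq_zero.mp h2, sub_eq_zero.mp h3, hR3]
  · ext n
    have h := hPk n
    have e : ⁅X * C (G.δ - q) - C G.a, P⁆ = ⁅X * C (G.δ - q) - C G.a, P - R n⁆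
        + ⁅X * C (G.δ - q) - C G.a, R n⁆ := by rw [lie_sub]; abel
    rw [e, map_add, hRL n n (by omega), add_zero, Ring.lie_def, map_sub, map_zero,
      (h.mulL _).1 n (by omega), (h.mulR _).1 n (by omega), sub_zero]

end Grad

end Pool.Agent.Lib.H29J
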