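import Pool.Agent.Lib.H29J.C2

/-!
# The resolvent: parity and flows
-/

set_option autoImplicit false

open PowerSeries

namespace Pool.Agent.Lib.H29J

attribute [local instance 100] LieRing.ofAssociativeRing

section parity

variable {𝕜 E : Type} [Field 𝕜] [CharZero 𝕜] [Ring E] [Algebra 𝕜 E]

/-- `Y(μ) ↦ w Y(-μ) w`. -/
noncomputable def tw (w : E) (Y : E⟦X⟧) : E⟦X⟧ :=
  PowerSeries.mk fun n => (-1 : ℤ) ^ n • (w * coeff n Y * w)

theorem tw_mul {w : E} (hw : w * w = 1) (Y Z : E⟦X⟧) : tw w (Y * Z) = tw w Y * tw w Z := by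
  ext n
  rw [tw, coeff_mk, coeff_mul, coeff_mul, Finset.mul_sum, Finset.sum_mul, Finset.smul_sum]
  refine Finset.sum_congr rfl fun p hp => ?_
  have hp := Finset.HasAntidiagonal.mem_antidiagonal.mp hp
  rw [tw, tw, coeff_mk, coeff_mk, smul_mul_smul_comm, ← pow_add, hp]
  congr 1
  have : w * coeff p.1 Y * w * (w * coeff p.2 Z * w) =
      w * coeff p.1 Y * (w * w) * coeff p.2 Z * w := by noncomm_ring
  rw [this, hw, mul_one]
  noncomm_ring

theorem tw_sub (w : E) (Y Z : E⟦X⟧) : tw w (Y - Z) = tw w Y - tw w Z := by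
  ext n
  simp only [tw, coeff_mk, map_sub, mul_sub, sub_mul, smul_sub]

theorem tw_C (w d : E) : tw w (C d) = C (w * d * w) := by
  ext n
  rw [tw, coeff_mk, coeff_C, coeff_C]
  by_cases h : n = 0 <;> simp [h]

theorem tw_XC (w d : E) : tw w (X * C d) = -(X * C (w * d * w)) := by
  ext n
  rw [tw, coeff_mk, map_neg, Grad.coeff_XC, Grad.coeff_XC]
  by_cases h : n = 1 <;> simp [h]

include 𝕜 in
/-- Parity of the resolvent. -/
theorem parity {a δ q w : E} (a3 : a * a * a = a) (P : E⟦X⟧) (hP : coeff 0 P = a)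
    (h2 : P * P * P = P) (h1 : ⁅X * C (δ - q) - C a, P⁆ = 0) (hw : w * w = 1)
    (wa : w * a * w = -a) (wδ : w * δ * w = δ) (wq : w * q * w = q) (n : ℕ) :
    w * coeff n P * w = (-1 : ℤ) ^ (n + 1) • coeff n P := by
  have e0 : coeff 0 (-tw w P) = a := by
    rw [map_neg, tw, coeff_mk, hP, wa]; simp
  have e2 : -tw w P * -tw w P * -tw w P = -tw w P := by
    rw [neg_mul_neg, mul_neg, ← tw_mul hw, ← tw_mul hw, h2]
  have e1 : ⁅X * C (δ - q) - C a, -tw w P⁆ = 0 := by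
    have hL : X * C (δ - q) - C a = -tw w (X * C (δ - q) - C a) := by
      rw [tw_sub, tw_XC, tw_C, wa, mul_sub, sub_mul, wδ, wq, map_neg]; abel
    rw [hL, neg_lie, lie_neg, neg_neg, Ring.lie_def, ← tw_mul hw, ← tw_mul hw, ← tw_sub,
      ← Ring.lie_def, h1]
    ext n
    simp [tw]
  have h := fin_unique (𝕜 := 𝕜) a3 P (-tw w P) hP e0 h2 e2 (n + 1)
    (fun k _ => by rw [h1, map_zero]) (fun k _ => by rw [e1, map_zero]) n (by omega)
  rw [map_sub, map_neg, tw, coeff_mk] at h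
  have h' := sub_eq_zero.mp h
  calc w * coeff n P * w
      = (-1 : ℤ) ^ (n + 1) • (-((-1 : ℤ) ^ n • (w * coeff n P * w))) := by
        have e : ((-1 : ℤ) ^ (n + 1)) * (-1) ^ n = -1 := by
          rw [pow_succ, mul_comm ((-1 : ℤ) ^ n) (-1), mul_assoc, ← mul_pow]; norm_num
        rw [smul_neg, smul_smul, e, neg_smul, one_smul, neg_neg]
    _ = (-1 : ℤ) ^ (n + 1) • coeff n P := by rw [h']

end parity

section flows

variable {𝕜 E : Type} [Field 𝕜] [CharZero 𝕜] [Ring E] [Algebra 𝕜 E]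

theorem coeff_L (a d : E) (Y : E⟦X⟧) (k : ℕ) :
    coeff k ⁅X * C d - C a, Y⁆ = (if k = 0 then 0 else ⁅d, coeff (k - 1) Y⁆) - ⁅a, coeff k Y⁆ := by
  rw [sub_lie, map_sub]
  have h1 := Grad.coeff_br 1 k d Y
  have h2 := Grad.coeff_br 0 k a Y
  rw [pow_one] at h1
  rw [pow_zero, one_mul] at h2
  rw [h1, h2, if_pos (Nat.zero_le k), Nat.sub_zero]
  by_cases h : k = 0
  · subst h; simp
  · rw [if_pos (by omega), if_neg h]

include 𝕜 in
/-- The flow of index `m` on the resolvent. -/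
theorem flow {a δ q : E} (a3 : a * a * a = a) (P : E⟦X⟧) (hP : coeff 0 P = a)
    (h2 : P * P * P = P) (h1 : ⁅X * C (δ - q) - C a, P⁆ = 0) (m : ℕ) (t : E)
    (ht1 : ⁅t, δ⁆ = 0) (ht2 : ⁅t, a⁆ = 0) (ht3 : ⁅t, q⁆ = ⁅a, coeff (m + 1) P⁆) (n : ℕ) :
    ⁅t, coeff n P⁆ = ∑ j ∈ Finset.range (m + 1), ⁅coeff j P, coeff (m + n - j) P⁆ := by
  obtain ⟨B, hB⟩ : ∃ B : E⟦X⟧, B = ∑ j ∈ Finset.range (m + 1), X ^ j * C (coeff j P) := ⟨_, rfl⟩
  have cB : ∀ k, coeff k B = if k < m + 1 then coeff k P else 0 := by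
    intro k
    rw [hB, map_sum]
    simp only [Grad.coeff_XnC, Finset.sum_ite_eq, Finset.mem_range]
  have hrel : ∀ k, (if k = 0 then 0 else ⁅δ - q, coeff (k - 1) P⁆) - ⁅a, coeff k P⁆ = 0 := by
    intro k
    rw [← coeff_L, h1, map_zero]
  have hLB : ⁅X * C (δ - q) - C a, B⁆ = X ^ (m + 1) * C ⁅a, coeff (m + 1) P⁆ := by
    ext k
    rw [coeff_L, cB, cB, Grad.coeff_XnC]
    have hk := hrel k
    rcases lt_trichotomy k (m + 1) with h | h | h
    · rw [if_pos h, if_neg (show ¬ (k = m + 1) by omega)]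
      by_cases h0 : k = 0
      · rw [if_pos h0] at hk ⊢; exact hk
      · rw [if_neg h0] at hk ⊢
        rw [if_pos (show k - 1 < m + 1 by omega)]; exact hk
    · subst h
      rw [if_neg (show ¬ (m + 1 = 0) by omega), if_neg (show ¬ (m + 1 < m + 1) by omega),
        if_pos (show m + 1 - 1 < m + 1 by omega), if_pos rfl, lie_zero, sub_zero]
      rw [if_neg (show ¬ (m + 1 = 0) by omega)] at hk
      exact sub_eq_zero.mp hk
    · rw [if_neg (show ¬ (k = 0) by omega), if_neg (show ¬ (k < m + 1) by omega),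
        if_neg (show ¬ (k - 1 < m + 1) by omega), if_neg (show ¬ (k = m + 1) by omega)]
      simp
  have hLt : ⁅X * C (δ - q) - C a, X ^ m * C t⁆ = X ^ (m + 1) * C ⁅a, coeff (m + 1) P⁆ := by
    ext k
    rw [coeff_L, Grad.coeff_XnC, Grad.coeff_XnC, Grad.coeff_XnC]
    have hδt : ⁅δ - q, t⁆ = ⁅a, coeff (m + 1) P⁆ := by
      rw [← ht3, sub_lie, ← lie_skew, ht1, ← lie_skew t q]; simp
    have hat : ⁅a, t⁆ = 0 := by rw [← lie_skew, ht2, neg_zero]
    by_cases h0 : k = m + 1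
    · subst h0
      simp [hδt]
    · by_cases h1 : k = m
      · subst h1
        by_cases h2 : k = 0
        · subst h2; simp [hat]
        · have : k - 1 ≠ k := by omega
          simp [hat, this]
      · by_cases h2 : k = 0
        · subst h2; simp [h1, h0]
        · have : k - 1 ≠ m := by omega
          simp [h1, h0, this]
  obtain ⟨M, hM⟩ : ∃ M : E⟦X⟧, M = X ^ m * C t - B := ⟨_, rfl⟩
  have hLM : ⁅X * C (δ - q) - C a, M⁆ = 0 := by rw [hM, lie_sub, hLt, hLB, sub_self]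
  have hY : ⁅M, P⁆ = 0 := by
    apply lin_unique (𝕜 := 𝕜) a3 P _ hP (δ := δ) (q := q)
    · rw [leibniz_lie, hLM, h1, zero_lie, lie_zero, add_zero]
    · have : ⁅M, P * P * P⁆ = P * P * ⁅M, P⁆ + P * ⁅M, P⁆ * P + ⁅M, P⁆ * P * P := by
        simp only [Ring.lie_def]; noncomm_ring
      rw [← this, h2]
  have hc := congrArg (coeff (m + n)) hY
  rw [hM, sub_lie, map_sub, Grad.coeff_br, if_pos (by omega), map_zero, hB, sum_lie, map_sum,
    sub_eq_zero] at hc
  rw [Nat.add_sub_cancel_left] at hc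
  rw [hc]
  refine Finset.sum_congr rfl fun j hj => ?_
  have := Finset.mem_range.mp hj
  rw [Grad.coeff_br, if_pos (by omega)]

include 𝕜 in
theorem antisum (m n : ℕ) (F : ℕ → E) (hF : ∀ j, j ≤ m + n → F (m + n - j) = -F j) :
    ∑ j ∈ Finset.range (m + 1), F j = ∑ j ∈ Finset.range n, F j := by
  have hS : ∑ j ∈ Finset.range (m + n + 1), F j = 0 := by
    have h1 : ∑ j ∈ Finset.range (m + n + 1), F (m + n + 1 - 1 - j) =
        ∑ j ∈ Finset.range (m + n + 1), F j := Finset.sum_range_reflect F (m + n + 1)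
    have h2 : ∑ j ∈ Finset.range (m + n + 1), F (m + n + 1 - 1 - j) =
        -∑ j ∈ Finset.range (m + n + 1), F j := by
      rw [← Finset.sum_neg_distrib]
      refine Finset.sum_congr rfl fun j hj => ?_
      have := Finset.mem_range.mp hj
      rw [Nat.add_sub_cancel, hF j (by omega)]
    rw [h1] at h2
    have h3 : (2 : 𝕜) • ∑ j ∈ Finset.range (m + n + 1), F j = 0 := by
      rw [two_smul]
      nth_rewrite 1 [h2]
      rw [neg_add_cancel]
    have := congrArg (fun z => (2 : 𝕜)⁻¹ • z) h3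
    simp only [smul_smul, smul_zero] at this
    rwa [inv_mul_cancel₀ (by norm_num), one_smul] at this
  have h4 : ∑ j ∈ Finset.range (m + n + 1), F j = ∑ j ∈ Finset.range (m + 1), F j +
      ∑ j ∈ Finset.range n, F (m + 1 + j) := by
    rw [show m + n + 1 = (m + 1) + n by omega, Finset.sum_range_add]
  have h5 : ∑ j ∈ Finset.range n, F (m + 1 + j) = -∑ j ∈ Finset.range n, F j := by
    rw [← Finset.sum_range_reflect F n, ← Finset.sum_neg_distrib]
    refine Finset.sum_congr rfl fun j hj => ?_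
    have := Finset.mem_range.mp hj
    rw [← hF (n - 1 - j) (by omega)]
    congr 1; omega
  rw [hS, h5] at h4
  exact (add_neg_eq_zero.mp h4.symm)

include 𝕜 in
/-- Difference of two flows. -/
theorem flow_diff {a δ q : E} (a3 : a * a * a = a) (P : E⟦X⟧) (hP : coeff 0 P = a)
    (h2 : P * P * P = P) (h1 : ⁅X * C (δ - q) - C a, P⁆ = 0) (m n : ℕ) (t s : E)
    (ht1 : ⁅t, δ⁆ = 0) (ht2 : ⁅t, a⁆ = 0) (ht3 : ⁅t, q⁆ = ⁅a, coeff (m + 1) P⁆)
    (hs1 : ⁅s, δ⁆ = 0) (hs2 : ⁅s, a⁆ = 0) (hs3 : ⁅s, q⁆ = ⁅a, coeff (n + 1) P⁆) :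
    ⁅t, coeff n P⁆ - ⁅s, coeff m P⁆ = ⁅coeff m P, coeff n P⁆ := by
  rw [flow (𝕜 := 𝕜) a3 P hP h2 h1 m t ht1 ht2 ht3 n, flow (𝕜 := 𝕜) a3 P hP h2 h1 n s hs1 hs2 hs3 m]
  have h := antisum (𝕜 := 𝕜) m n (fun j => ⁅coeff j P, coeff (m + n - j) P⁆) (by
    intro j hj
    rw [← lie_skew, show m + n - (m + n - j) = j by omega])
  have h' : ∑ j ∈ Finset.range (n + 1), ⁅coeff j P, coeff (n + m - j) P⁆ =
      ∑ j ∈ Finset.range n, ⁅coeff j P, coeff (m + n - j) P⁆ + ⁅coeff n P, coeff m P⁆ := by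
    rw [Finset.sum_range_succ]
    congr 1
    · refine Finset.sum_congr rfl fun j _ => ?_
      rw [Nat.add_comm n m]
    · rw [Nat.add_sub_cancel_left]
  rw [h, h', ← lie_skew (coeff n P)]
  abel

end flows

end Pool.Agent.Lib.H29J
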