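import Pool.Agent.Lib.H29J.M
import Pool.Agent.Lib.H29J.C3

/-!
# The resolvent in the Kantor-Koecher-Tits algebra
-/

set_option autoImplicit false

open PowerSeries

namespace Pool.Agent.Lib.H29J

attribute [local instance 100] LieRing.ofAssociativeRing

section

variable {𝕜 A V : Type} [Field 𝕜] [CommRing A] [AddCommGroup V] [Module A V]
  [Algebra 𝕜 A] [Module 𝕜 V] [IsScalarTower 𝕜 A V]

theorem KKT.gr_lie {J : JTS A V} (Y : KKT J) : ⁅KKT.gr J, Y⁆ = ((Y.1, 0, -Y.2.2) : KKT J) := by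
  apply KKT.ext'
  · rw [KKT.br_p]
    show Y.1 - Y.2.1.1.1 0 = Y.1
    rw [map_zero, sub_zero]
  · rw [KKT.br_1]
    show 1 * Y.2.1.1.1 - Y.2.1.1.1 * 1 - J.tri 0 Y.2.2 + J.tri Y.1 0 = 0
    simp
  · rw [KKT.br_2]
    show (-1) * Y.2.1.1.2 - Y.2.1.1.2 * (-1) + J.tri Y.2.2 0 - J.tri 0 Y.1 = 0
    simp
  · rw [KKT.br_m]
    show -Y.2.2 - Y.2.1.1.2 0 = -Y.2.2
    rw [map_zero, sub_zero]

theorem KKT.pl_lie {J : JTS A V} (x : V) (Y : KKT J) :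
    ⁅KKT.pl J x, Y⁆ = ((-(Y.2.1.1.1 x), dd J x Y.2.2, 0) : KKT J) := by
  apply KKT.ext'
  · rw [KKT.br_p]
    show 0 - Y.2.1.1.1 x = -(Y.2.1.1.1 x)
    rw [zero_sub]
  · rw [KKT.br_1]
    show 0 * Y.2.1.1.1 - Y.2.1.1.1 * 0 - J.tri x Y.2.2 + J.tri Y.1 0 = -(J.tri x Y.2.2)
    simp
  · rw [KKT.br_2]
    show 0 * Y.2.1.1.2 - Y.2.1.1.2 * 0 + J.tri Y.2.2 x - J.tri 0 Y.1 = J.tri Y.2.2 x
    simp
  · rw [KKT.br_m]
    show (0 : Module.End A V) Y.2.2 - Y.2.1.1.2 0 = 0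
    simp

theorem KKT.mi_lie {J : JTS A V} (x : V) (Y : KKT J) :
    ⁅KKT.mi J x, Y⁆ = ((0, -dd J Y.1 x, -(Y.2.1.1.2 x)) : KKT J) := by
  apply KKT.ext'
  · rw [KKT.br_p]
    show (0 : Module.End A V) Y.1 - Y.2.1.1.1 0 = 0
    simp
  · rw [KKT.br_1]
    show 0 * Y.2.1.1.1 - Y.2.1.1.1 * 0 - J.tri 0 Y.2.2 + J.tri Y.1 x = -(-(J.tri Y.1 x))
    simp
  · rw [KKT.br_2]
    show 0 * Y.2.1.1.2 - Y.2.1.1.2 * 0 + J.tri Y.2.2 0 - J.tri x Y.1 = -(J.tri x Y.1)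
    simp
  · rw [KKT.br_m]
    show 0 - Y.2.1.1.2 x = -(Y.2.1.1.2 x)
    rw [zero_sub]

/-- linear versions of the three inclusions -/
def plL (𝕜 : Type) {A V : Type} [Field 𝕜] [CommRing A] [AddCommGroup V] [Module A V]
    [Algebra 𝕜 A] [Module 𝕜 V] [IsScalarTower 𝕜 A V] (J : JTS A V) : V →ₗ[𝕜] KKT J where
  toFun := KKT.pl J
  map_add' x y := by
    apply KKT.ext'
    · rfl
    · exact (add_zero _).symm
    · exact (add_zero _).symm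
    · exact (add_zero _).symm
  map_smul' c x := by
    apply KKT.ext'
    · rfl
    · exact (smul_zero _).symm
    · exact (smul_zero _).symm
    · exact (smul_zero _).symm

def miL (𝕜 : Type) {A V : Type} [Field 𝕜] [CommRing A] [AddCommGroup V] [Module A V]
    [Algebra 𝕜 A] [Module 𝕜 V] [IsScalarTower 𝕜 A V] (J : JTS A V) : V →ₗ[𝕜] KKT J where
  toFun := KKT.mi J
  map_add' x y := by
    apply KKT.ext'
    · exact (add_zero _).symm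
    · exact (add_zero _).symm
    · exact (add_zero _).symm
    · rfl
  map_smul' c x := by
    apply KKT.ext'
    · exact (smul_zero _).symm
    · exact (smul_zero _).symm
    · exact (smul_zero _).symm
    · rfl

def stL (𝕜 : Type) {A V : Type} [Field 𝕜] [CommRing A] [AddCommGroup V] [Module A V]
    [Algebra 𝕜 A] [Module 𝕜 V] [IsScalarTower 𝕜 A V] (J : JTS A V) : Str J →ₗ[𝕜] KKT J where
  toFun := KKT.st J
  map_add' x y := by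
    apply KKT.ext'
    · exact (add_zero _).symm
    · rfl
    · rfl
    · exact (add_zero _).symm
  map_smul' c x := by
    apply KKT.ext'
    · exact (smul_zero _).symm
    · rfl
    · rfl
    · exact (smul_zero _).symm

/-- `ad` as a linear map. -/
noncomputable def adL (𝕜 : Type) {A V : Type} [Field 𝕜] [CommRing A] [AddCommGroup V] [Module A V]
    [Algebra 𝕜 A] [Module 𝕜 V] [IsScalarTower 𝕜 A V] (J : JTS A V) :
    KKT J →ₗ[𝕜] Module.End 𝕜 (KKT J) := (LieAlgebra.ad 𝕜 (KKT J)).toLinearMap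

theorem adL_apply {J : JTS A V} (X Y : KKT J) : adL 𝕜 J X Y = ⁅X, Y⁆ := rfl

theorem adL_lie {J : JTS A V} (X Y : KKT J) :
    ⁅adL 𝕜 J X, adL 𝕜 J Y⁆ = adL 𝕜 J ⁅X, Y⁆ := by
  ext1 Z
  rw [Ring.lie_def, LinearMap.sub_apply, Module.End.mul_apply, Module.End.mul_apply,
    adL_apply, adL_apply, adL_apply, adL_apply, adL_apply, lie_lie]

/-- The graded setting attached to `∇`. -/
noncomputable def kktGrad {J : JTS A V} (n : Nab 𝕜 J) : Grad 𝕜 (Module.End 𝕜 (KKT J)) where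
  a := adL 𝕜 J (KKT.gr J)
  δ := n.lift
  g1 := LinearMap.range (adL 𝕜 J ∘ₗ plL 𝕜 J)
  g0 := ((Inn J).restrictScalars 𝕜).map (adL 𝕜 J ∘ₗ stL 𝕜 J)
  gm := LinearMap.range (adL 𝕜 J ∘ₗ miL 𝕜 J)
  a3 := by
    ext1 Y
    show ⁅KKT.gr J, ⁅KKT.gr J, ⁅KKT.gr J, Y⁆⁆⁆ = ⁅KKT.gr J, Y⁆
    rw [KKT.gr_lie, KKT.gr_lie, KKT.gr_lie]
    show ((Y.1, 0, - - -Y.2.2) : KKT J) = (Y.1, 0, -Y.2.2)
    rw [neg_neg]
  x3 := by
    rintro _ ⟨x, rfl⟩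
    ext1 Y
    show ⁅KKT.pl J x, ⁅KKT.pl J x, ⁅KKT.pl J x, Y⁆⁆⁆ = 0
    rw [KKT.pl_lie, KKT.pl_lie, KKT.pl_lie]
    apply KKT.ext'
    · show -(-(J.tri x 0) x) = 0; simp
    · show -(J.tri x 0) = 0; simp
    · show J.tri 0 x = 0; simp
    · rfl
  m3 := by
    rintro _ ⟨x, rfl⟩
    ext1 Y
    show ⁅KKT.mi J x, ⁅KKT.mi J x, ⁅KKT.mi J x, Y⁆⁆⁆ = 0
    rw [KKT.mi_lie, KKT.mi_lie, KKT.mi_lie]
    apply KKT.ext'
    · rfl
    · show -(-(J.tri 0 x)) = 0; simp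
    · show -(J.tri x 0) = 0; simp
    · show -((-(J.tri x 0)) x) = 0; simp
  a1 := by
    rintro _ ⟨x, rfl⟩
    show ⁅adL 𝕜 J (KKT.gr J), adL 𝕜 J (KKT.pl J x)⁆ = adL 𝕜 J (KKT.pl J x)
    rw [adL_lie, KKT.gr_lie]
    congr 1
    show ((x, 0, -0) : KKT J) = (x, 0, 0)
    rw [neg_zero]
  a0 := by
    rintro _ ⟨T, hT, rfl⟩
    show ⁅adL 𝕜 J (KKT.gr J), adL 𝕜 J (KKT.st J T)⁆ = 0
    rw [adL_lie, KKT.gr_lie]
    have : @Eq (KKT J) (((KKT.st J T)).1, 0, -(KKT.st J T).2.2) (0 : KKT J) := by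
      show @Eq (KKT J) (0, 0, -0) _
      rw [neg_zero]; rfl
    exact (congrArg (adL 𝕜 J) this).trans (map_zero _)
  am := by
    rintro _ ⟨x, rfl⟩
    show ⁅adL 𝕜 J (KKT.gr J), adL 𝕜 J (KKT.mi J x)⁆ = -adL 𝕜 J (KKT.mi J x)
    rw [adL_lie, KKT.gr_lie, ← map_neg]
    congr 1
    apply KKT.ext'
    · exact neg_zero.symm
    · exact neg_zero.symm
    · exact neg_zero.symm
    · rfl
  c11 := by
    rintro _ ⟨x, rfl⟩ _ ⟨y, rfl⟩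
    show ⁅adL 𝕜 J (KKT.pl J x), adL 𝕜 J (KKT.pl J y)⁆ = 0
    rw [adL_lie, KKT.pl_lie]
    have : @Eq (KKT J) (-((KKT.pl J y).2.1.1.1 x), dd J x (KKT.pl J y).2.2, 0) (0 : KKT J) := by
      apply KKT.ext'
      · show -((0 : Module.End A V) x) = 0; simp
      · show -(J.tri x 0) = 0; simp
      · show J.tri 0 x = 0; simp
      · rfl
    exact (congrArg (adL 𝕜 J) this).trans (map_zero _)
  cmm := by
    rintro _ ⟨x, rfl⟩ _ ⟨y, rfl⟩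
    show ⁅adL 𝕜 J (KKT.mi J x), adL 𝕜 J (KKT.mi J y)⁆ = 0
    rw [adL_lie, KKT.mi_lie]
    have : @Eq (KKT J) (0, -dd J (KKT.mi J y).1 x, -((KKT.mi J y).2.1.1.2 x)) (0 : KKT J) := by
      apply KKT.ext'
      · rfl
      · show -(-(J.tri 0 x)) = 0; simp
      · show -(J.tri x 0) = 0; simp
      · show -((0 : Module.End A V) x) = 0; simp
    exact (congrArg (adL 𝕜 J) this).trans (map_zero _)
  c1m := by
    rintro _ ⟨x, rfl⟩ _ ⟨y, rfl⟩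
    refine ⟨dd J x y, Submodule.subset_span ⟨(x, y), rfl⟩, ?_⟩
    show adL 𝕜 J (KKT.st J (dd J x y)) = ⁅adL 𝕜 J (KKT.pl J x), adL 𝕜 J (KKT.mi J y)⁆
    rw [adL_lie, KKT.pl_lie]
    congr 1
    apply KKT.ext'
    · show 0 = -((0 : Module.End A V) x); simp
    · rfl
    · rfl
    · rfl
  c10 := by
    rintro _ ⟨x, rfl⟩ _ ⟨T, hT, rfl⟩
    refine ⟨-(T.1.1 x), ?_⟩
    show adL 𝕜 J (KKT.pl J (-(T.1.1 x))) = ⁅adL 𝕜 J (KKT.pl J x), adL 𝕜 J (KKT.st J T)⁆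
    rw [adL_lie, KKT.pl_lie]
    congr 1
    apply KKT.ext'
    · rfl
    · show 0 = -(J.tri x 0); simp
    · show 0 = J.tri 0 x; simp
    · rfl
  cm0 := by
    rintro _ ⟨x, rfl⟩ _ ⟨T, hT, rfl⟩
    refine ⟨-(T.1.2 x), ?_⟩
    show adL 𝕜 J (KKT.mi J (-(T.1.2 x))) = ⁅adL 𝕜 J (KKT.mi J x), adL 𝕜 J (KKT.st J T)⁆
    rw [adL_lie, KKT.mi_lie]
    congr 1
    apply KKT.ext'
    · rfl
    · show 0 = -(-(J.tri 0 x)); simp
    · show 0 = -(J.tri x 0); simp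
    · rfl
  δa := by
    show ⁅n.lift, LieAlgebra.ad 𝕜 (KKT J) (KKT.gr J)⁆ = 0
    rw [n.lift_ad, n.lift_gr, map_zero]
  δ1 := by
    rintro _ ⟨x, rfl⟩
    refine ⟨n.f x, ?_⟩
    show adL 𝕜 J (KKT.pl J (n.f x)) = ⁅n.lift, LieAlgebra.ad 𝕜 (KKT J) (KKT.pl J x)⁆
    rw [n.lift_ad]
    show adL 𝕜 J _ = adL 𝕜 J _
    congr 1
    apply KKT.ext'
    · rfl
    · ext w; show 0 = n.f 0 - 0; simp
    · ext w; show 0 = n.f 0 - 0; simp
    · show 0 = n.f 0; simp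
  δm := by
    rintro _ ⟨x, rfl⟩
    refine ⟨n.f x, ?_⟩
    show adL 𝕜 J (KKT.mi J (n.f x)) = ⁅n.lift, LieAlgebra.ad 𝕜 (KKT J) (KKT.mi J x)⁆
    rw [n.lift_ad]
    show adL 𝕜 J _ = adL 𝕜 J _
    congr 1
    apply KKT.ext'
    · show 0 = n.f 0; simp
    · ext w; show 0 = n.f 0 - 0; simp
    · ext w; show 0 = n.f 0 - 0; simp
    · rfl

end

end Pool.Agent.Lib.H29J
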