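import Pool.Agent.Lib.H29J.D

/-!
# The hierarchy in components
-/

set_option autoImplicit false

open PowerSeries

namespace Pool.Agent.Lib.H29J

attribute [local instance 100] LieRing.ofAssociativeRing

section

variable {𝕜 A V : Type} [Field 𝕜] [CharZero 𝕜] [CommRing A] [AddCommGroup V] [Module A V]
  [Algebra 𝕜 A] [Module 𝕜 V] [IsScalarTower 𝕜 A V]

theorem adL_inj {J : JTS A V} {X Y : KKT J} (h : adL 𝕜 J X = adL 𝕜 J Y) : X = Y :=
  KKT.ad_inj (𝕜 := 𝕜) h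

theorem KKT.add_st {J : JTS A V} (X Y : KKT J) : (X + Y).2.1 = X.2.1 + Y.2.1 := rfl

/-- The resolvent and its coefficients. -/
structure Res {J : JTS A V} (n : Nab 𝕜 J) (v : V) where
  P : (Module.End 𝕜 (KKT J))⟦X⟧
  c : ℕ → KKT J
  hP : ∀ k, coeff k P = adL 𝕜 J (c k)
  c0 : c 0 = KKT.gr J
  inn : ∀ k, 1 ≤ k → (c k).2.1 ∈ Inn J
  cub : P * P * P = P
  rel : ⁅X * C (n.lift - adL 𝕜 J (KKT.Q J v)) - C (adL 𝕜 J (KKT.gr J)), P⁆ = 0

theorem exists_kkt_res {J : JTS A V} (n : Nab 𝕜 J) (v : V) : Nonempty (Res n v) := by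
  have hq : adL 𝕜 J (KKT.Q J v) ∈ (kktGrad n).tot := by
    rw [Grad.mem_tot]
    refine ⟨adL 𝕜 J (KKT.pl J v), ⟨v, rfl⟩, 0, zero_mem _, adL 𝕜 J (KKT.mi J v), ⟨v, rfl⟩, ?_⟩
    rw [add_zero, ← map_add]
    congr 1
    apply KKT.ext'
    · show v = v + 0; rw [add_zero]
    · show (0 : Module.End A V) = 0 + 0; rw [add_zero]
    · show (0 : Module.End A V) = 0 + 0; rw [add_zero]
    · show v = 0 + v; rw [zero_add]
  obtain ⟨P, h0, hs, h3, hr⟩ := (kktGrad n).exists_res _ hq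
  have hc : ∀ k, ∃ X : KKT J, (k = 0 → X = KKT.gr J) ∧ (1 ≤ k → X.2.1 ∈ Inn J) ∧
      coeff k P = adL 𝕜 J X := by
    intro k
    by_cases hk : 1 ≤ k
    · have := hs k
      rw [map_sub, coeff_C, if_neg (by omega), sub_zero, Grad.mem_tot] at this
      obtain ⟨_, ⟨x, rfl⟩, _, ⟨T, hT, rfl⟩, _, ⟨y, rfl⟩, h⟩ := this
      refine ⟨KKT.pl J x + KKT.st J T + KKT.mi J y, fun h0 => by omega, fun _ => ?_, ?_⟩
      · rw [KKT.add_st, KKT.add_st]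
        show 0 + T + 0 ∈ Inn J
        rw [zero_add, add_zero]; exact hT
      · rw [h, map_add, map_add]; rfl
    · have : k = 0 := by omega
      subst this
      exact ⟨KKT.gr J, fun _ => rfl, fun h => by omega, h0⟩
  choose c hc1 hc2 hc3 using hc
  exact ⟨⟨P, c, hc3, hc1 0 rfl, hc2, h3, hr⟩⟩

namespace Res

variable {J : JTS A V} {n : Nab 𝕜 J} {v : V} (r : Res n v)

theorem rel' (k : ℕ) : n.lift (r.c k) - ⁅KKT.Q J v, r.c k⁆ = ⁅KKT.gr J, r.c (k + 1)⁆ := by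
  have h := congrArg (coeff (k + 1)) r.rel
  rw [coeff_L, if_neg (by omega), map_zero, Nat.add_sub_cancel, r.hP, r.hP, adL_lie, sub_lie,
    adL_lie, sub_eq_zero] at h
  have h1 : ⁅n.lift, adL 𝕜 J (r.c k)⁆ = adL 𝕜 J (n.lift (r.c k)) := n.lift_ad _
  rw [h1, ← map_sub] at h
  exact adL_inj h

theorem par (k : ℕ) : KKT.swap J (r.c k) = (-1 : ℤ) ^ (k + 1) • r.c k := by
  have h := parity (𝕜 := 𝕜) (w := (swapE : Module.End 𝕜 (KKT J))) (kktGrad n).a3 r.P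
    (by rw [r.hP, r.c0]; rfl) r.cub r.rel swapE_sq
    (by
      show swapE * LieAlgebra.ad 𝕜 (KKT J) (KKT.gr J) * swapE = -LieAlgebra.ad 𝕜 (KKT J) (KKT.gr J)
      rw [swapE_ad, KKT.swap_gr, map_neg])
    (swapE_lift n)
    (by
      show swapE * LieAlgebra.ad 𝕜 (KKT J) (KKT.Q J v) * swapE = LieAlgebra.ad 𝕜 (KKT J) (KKT.Q J v)
      rw [swapE_ad, KKT.swap_Q]) k
  rw [r.hP] at h
  have h1 : swapE * adL 𝕜 J (r.c k) * swapE = adL 𝕜 J (KKT.swap J (r.c k)) := swapE_ad _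
  rw [h1, ← map_zsmul] at h
  exact adL_inj h

theorem par_odd {k : ℕ} (hk : Odd k) : (r.c k).2.2 = (r.c k).1 ∧
    (r.c k).2.1.1.2 = (r.c k).2.1.1.1 := by
  have h := r.par k
  rw [Even.neg_one_pow (hk.add_odd odd_one), one_smul] at h
  exact ⟨congrArg (fun X : KKT J => X.1) h, congrArg (fun X : KKT J => X.2.1.1.1) h⟩

theorem par_even {k : ℕ} (hk : Even k) : (r.c k).2.2 = -(r.c k).1 ∧
    (r.c k).2.1.1.2 = -(r.c k).2.1.1.1 := by
  have h := r.par k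
  rw [Odd.neg_one_pow (hk.add_odd odd_one), neg_smul, one_smul] at h
  exact ⟨congrArg (fun X : KKT J => X.1) h, congrArg (fun X : KKT J => X.2.1.1.1) h⟩

/-- `p_{k+1} = ∇ p_k + b_k v`. -/
theorem rec_p (k : ℕ) : (r.c (k + 1)).1 = n.f (r.c k).1 + (r.c k).2.1.1.1 v := by
  have h := congrArg (fun X : KKT J => X.1) (r.rel' k)
  rw [KKT.gr_lie] at h
  have h' : n.f (r.c k).1 - (⁅KKT.Q J v, r.c k⁆ : KKT J).1 = (r.c (k + 1)).1 := h
  rw [KKT.br_p] at h'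
  have h2 : n.f (r.c k).1 - ((0 : Module.End A V) (r.c k).1 - (r.c k).2.1.1.1 v) =
    (r.c (k + 1)).1 := h'
  rw [← h2, LinearMap.zero_apply]; abel

/-- `[∇, b_k] = D(p_k, v) - D(v, m_k)`. -/
theorem rec_b (k : ℕ) (w : V) : n.f ((r.c k).2.1.1.1 w) - (r.c k).2.1.1.1 (n.f w) =
    J.tri (r.c k).1 v w - J.tri v (r.c k).2.2 w := by
  have h := congrArg (fun X : KKT J => X.2.1.1.1 w) (r.rel' k)
  rw [KKT.gr_lie] at h
  have h' : (n.f ((r.c k).2.1.1.1 w) - (r.c k).2.1.1.1 (n.f w))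
      - (⁅KKT.Q J v, r.c k⁆ : KKT J).2.1.1.1 w = 0 := h
  rw [KKT.br_1] at h'
  have h2 : (n.f ((r.c k).2.1.1.1 w) - (r.c k).2.1.1.1 (n.f w))
      - ((0 : Module.End A V) * (r.c k).2.1.1.1 - (r.c k).2.1.1.1 * (0 : Module.End A V)
        - J.tri v (r.c k).2.2 + J.tri (r.c k).1 v) w = 0 := h'
  rw [zero_mul, mul_zero, sub_zero, zero_sub, sub_eq_zero] at h2
  rw [h2]
  simp only [LinearMap.add_apply, LinearMap.neg_apply]
  abel

end Res

end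

end Pool.Agent.Lib.H29J
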