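import Pool.Agent.Lib.H29J.D2

/-!
# The cubic equation in components; the first terms; the commuting flows
-/

set_option autoImplicit false

open PowerSeries

namespace Pool.Agent.Lib.H29J

attribute [local instance 100] LieRing.ofAssociativeRing

section split

variable {E : Type} [Ring E]

/-- the truncation below order `n` -/
noncomputable def trunE (P : E⟦X⟧) (n : ℕ) : E⟦X⟧ :=
  PowerSeries.mk fun k => if k < n then coeff k P else 0

/-- Separation of the terms of order `n` in the cubic expression. -/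
theorem cub_split (P : E⟦X⟧) (n : ℕ) (hn : 1 ≤ n) :
    coeff n (P * P * P) = coeff n (trunE P n * trunE P n * trunE P n)
      + (coeff 0 P * coeff 0 P * coeff n P + coeff 0 P * coeff n P * coeff 0 P
        + coeff n P * (coeff 0 P * coeff 0 P)) := by
  obtain ⟨B, hB⟩ : ∃ B, B = trunE P n := ⟨_, rfl⟩
  obtain ⟨T, hT⟩ : ∃ T, T = P - B := ⟨_, rfl⟩
  have hTl : Low n T := by
    intro k hk
    rw [hT, map_sub, hB, trunE, coeff_mk, if_pos hk, sub_self]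
  have hTn : coeff n T = coeff n P := by
    rw [hT, map_sub, hB, trunE, coeff_mk, if_neg (lt_irrefl n), sub_zero]
  have hT0 : coeff 0 T = 0 := hTl 0 (by omega)
  have hB0 : coeff 0 B = coeff 0 P := by
    rw [hB, trunE, coeff_mk, if_pos (by omega)]
  rw [← hB]
  have e : P * P * P = B * B * B + (B * B * T + B * T * B + T * (B * B)) +
      (B * (T * T) + T * B * T + T * T * B + T * (T * T)) := by
    have : P = B + T := by rw [hT]; abel
    rw [this]; noncomm_ring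
  have TT : Low n (T * T) ∧ coeff n (T * T) = 0 := by
    refine ⟨(hTl.mulL T).1, ?_⟩
    rw [(hTl.mulL T).2, hT0, zero_mul]
  have t1 : coeff n (B * (T * T)) = 0 := by rw [(TT.1.mulL B).2, TT.2, mul_zero]
  have t2 : coeff n (T * B * T) = 0 := by
    rw [(hTl.mulL (T * B)).2, coeff_mul]
    simp [hT0]
  have t3 : coeff n (T * T * B) = 0 := by rw [(TT.1.mulR B).2, TT.2, zero_mul]
  have t4 : coeff n (T * (T * T)) = 0 := by rw [(TT.1.mulL T).2, TT.2, mul_zero]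
  have e1 : coeff n (B * T * B) = coeff 0 P * coeff n P * coeff 0 P := by
    rw [((hTl.mulL B).1.mulR B).2, (hTl.mulL B).2, hB0, hTn]
  have e0 : coeff 0 (B * B) = coeff 0 P * coeff 0 P := by
    rw [coeff_mul]; simp [hB0]
  rw [e]
  simp only [map_add, t1, t2, t3, t4, add_zero, e1, (hTl.mulL (B * B)).2, (hTl.mulR (B * B)).2,
    e0, hTn]

theorem coeff_one_mul' (Y Z : E⟦X⟧) :
    coeff 1 (Y * Z) = coeff 0 Y * coeff 1 Z + coeff 1 Y * coeff 0 Z := by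
  rw [coeff_mul, show Finset.HasAntidiagonal.antidiagonal 1 = {((0 : ℕ), (1 : ℕ)), (1, 0)} from rfl,
    Finset.sum_pair (by decide)]

theorem coeff_two_mul' (Y Z : E⟦X⟧) :
    coeff 2 (Y * Z) = coeff 0 Y * coeff 2 Z + coeff 1 Y * coeff 1 Z + coeff 2 Y * coeff 0 Z := by
  rw [coeff_mul, show Finset.HasAntidiagonal.antidiagonal 2 =
    {((0 : ℕ), (2 : ℕ)), (1, 1), (2, 0)} from rfl,
    Finset.sum_insert (by decide), Finset.sum_pair (by decide), add_assoc]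

end split

section

variable {𝕜 A V : Type} [Field 𝕜] [CharZero 𝕜] [CommRing A] [AddCommGroup V] [Module A V]
  [Algebra 𝕜 A] [Module 𝕜 V] [IsScalarTower 𝕜 A V]

namespace Res

variable {J : JTS A V} {n : Nab 𝕜 J} {v : V} (r : Res n v)

/-- The cubic equation of order `k ≥ 1` on `V⁺`. -/
theorem cub_pl (k : ℕ) (hk : 1 ≤ k) (x : V) :
    (coeff k (trunE r.P k * trunE r.P k * trunE r.P k) (KKT.pl J x)).1
      + (2 : 𝕜) • (r.c k).2.1.1.1 x = 0 := by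
  have h := cub_split r.P k hk
  rw [r.cub, r.hP, r.hP, r.c0] at h
  have h1 := congrArg (fun F : Module.End 𝕜 (KKT J) => (F (KKT.pl J x)).1) h
  have h2 : (⁅r.c k, KKT.pl J x⁆ : KKT J).1 =
      (coeff k (trunE r.P k * trunE r.P k * trunE r.P k) (KKT.pl J x)).1
      + ((⁅KKT.gr J, ⁅KKT.gr J, ⁅r.c k, KKT.pl J x⁆⁆⁆ : KKT J).1
      + (⁅KKT.gr J, ⁅r.c k, ⁅KKT.gr J, KKT.pl J x⁆⁆⁆ : KKT J).1
      + (⁅r.c k, ⁅KKT.gr J, ⁅KKT.gr J, KKT.pl J x⁆⁆⁆ : KKT J).1) := h1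
  have hg : ⁅KKT.gr J, KKT.pl J x⁆ = KKT.pl J x := by
    rw [KKT.gr_lie]
    show @Eq (KKT J) (x, 0, -0) _
    rw [neg_zero]; rfl
  have hg1 : ∀ Y : KKT J, (⁅KKT.gr J, Y⁆ : KKT J).1 = Y.1 := fun Y => by rw [KKT.gr_lie]
  rw [hg, hg, hg1, hg1] at h2
  have h3 : (⁅r.c k, KKT.pl J x⁆ : KKT J).1 = (r.c k).2.1.1.1 x := by
    rw [KKT.br_p]
    show (r.c k).2.1.1.1 x - (0 : Module.End A V) (r.c k).1 = _
    rw [LinearMap.zero_apply, sub_zero]
  rw [h3] at h2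
  have h4 := h2
  rw [two_smul]
  have : (coeff k (trunE r.P k * trunE r.P k * trunE r.P k) (KKT.pl J x)).1
      + ((r.c k).2.1.1.1 x + (r.c k).2.1.1.1 x) =
      ((coeff k (trunE r.P k * trunE r.P k * trunE r.P k) (KKT.pl J x)).1
      + ((r.c k).2.1.1.1 x + (r.c k).2.1.1.1 x + (r.c k).2.1.1.1 x)) - (r.c k).2.1.1.1 x := by
    abel
  rw [this, ← h4, sub_self]

theorem smul_two_zero {W : Type} [AddCommGroup W] [Module 𝕜 W] {x : W} (h : (2 : 𝕜) • x = 0) :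
    x = 0 := by
  have := congrArg (fun z => (2 : 𝕜)⁻¹ • z) h
  simp only [smul_smul, smul_zero] at this
  rwa [inv_mul_cancel₀ (by norm_num), one_smul] at this

theorem c1_p : (r.c 1).1 = v := by
  rw [r.rec_p 0, r.c0]
  show n.f 0 + v = v
  rw [map_zero, zero_add]

theorem c1_m : (r.c 1).2.2 = v := by
  rw [(r.par_odd odd_one).1, r.c1_p]

theorem c1_b : (r.c 1).2.1.1.1 = 0 := by
  ext x
  apply smul_two_zero (𝕜 := 𝕜)
  have h := r.cub_pl 1 le_rfl x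
  have e : coeff 1 (trunE r.P 1 * trunE r.P 1 * trunE r.P 1) = 0 := by
    have : trunE r.P 1 = C (coeff 0 r.P) := by
      ext k
      rw [trunE, coeff_mk, coeff_C]
      by_cases hk : k = 0
      · subst hk; simp
      · rw [if_neg (by omega), if_neg hk]
    rw [this, ← map_mul, ← map_mul, coeff_C]; simp
  rw [e] at h
  have h' : (0 : V) + (2 : 𝕜) • (r.c 1).2.1.1.1 x = 0 := h
  rw [zero_add] at h'
  exact h'

theorem c1_eq : r.c 1 = KKT.Q J v := by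
  apply KKT.ext'
  · exact r.c1_p
  · exact r.c1_b
  · rw [(r.par_odd odd_one).2]; exact r.c1_b
  · exact r.c1_m

theorem c2_p : (r.c 2).1 = n.f v := by
  rw [r.rec_p 1, r.c1_p, r.c1_b, LinearMap.zero_apply, add_zero]

theorem Q_pl (x : V) : ⁅KKT.Q J v, KKT.pl J x⁆ = KKT.st J (-(dd J x v)) := by
  apply KKT.ext'
  · rw [KKT.br_p]
    show (0 : Module.End A V) x - (0 : Module.End A V) v = 0
    simp
  · rw [KKT.br_1]
    show (0 : Module.End A V) * 0 - 0 * 0 - J.tri v 0 + J.tri x v = -(-(J.tri x v))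
    simp
  · rw [KKT.br_2]
    show (0 : Module.End A V) * 0 - 0 * 0 + J.tri 0 v - J.tri v x = -(J.tri v x)
    simp
  · rw [KKT.br_m]
    show (0 : Module.End A V) 0 - (0 : Module.End A V) v = 0
    simp

theorem gr_st (T : Str J) : ⁅KKT.gr J, KKT.st J T⁆ = (0 : KKT J) := by
  rw [KKT.gr_lie]
  show @Eq (KKT J) (0, 0, -0) _
  rw [neg_zero]; rfl

theorem gr_pl (x : V) : ⁅KKT.gr J, KKT.pl J x⁆ = KKT.pl J x := by
  rw [KKT.gr_lie]
  show @Eq (KKT J) (x, 0, -0) _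
  rw [neg_zero]; rfl

theorem Q_st_p (T : Str J) : (⁅KKT.Q J v, KKT.st J T⁆ : KKT J).1 = -(T.1.1 v) := by
  rw [KKT.br_p]
  show (0 : Module.End A V) 0 - T.1.1 v = _
  simp

theorem c2_b (x : V) : (r.c 2).2.1.1.1 x = J.tri v v x := by
  have h := r.cub_pl 2 (by norm_num) x
  have e : coeff 2 (trunE r.P 2 * trunE r.P 2 * trunE r.P 2) =
      adL 𝕜 J (KKT.gr J) * adL 𝕜 J (r.c 1) * adL 𝕜 J (r.c 1)
      + adL 𝕜 J (r.c 1) * adL 𝕜 J (KKT.gr J) * adL 𝕜 J (r.c 1)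
      + adL 𝕜 J (r.c 1) * adL 𝕜 J (r.c 1) * adL 𝕜 J (KKT.gr J) := by
    have e0 : coeff 0 (trunE r.P 2) = adL 𝕜 J (KKT.gr J) := by
      rw [trunE, coeff_mk, if_pos (by norm_num), r.hP, r.c0]
    have e1 : coeff 1 (trunE r.P 2) = adL 𝕜 J (r.c 1) := by
      rw [trunE, coeff_mk, if_pos (by norm_num), r.hP]
    have e2 : coeff 2 (trunE r.P 2) = 0 := by
      rw [trunE, coeff_mk, if_neg (by norm_num)]
    rw [coeff_two_mul', coeff_two_mul', coeff_one_mul', e0, e1, e2]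
    noncomm_ring
  rw [e, r.c1_eq] at h
  have h' : (⁅KKT.gr J, ⁅KKT.Q J v, ⁅KKT.Q J v, KKT.pl J x⁆⁆⁆ : KKT J).1
      + (⁅KKT.Q J v, ⁅KKT.gr J, ⁅KKT.Q J v, KKT.pl J x⁆⁆⁆ : KKT J).1
      + (⁅KKT.Q J v, ⁅KKT.Q J v, ⁅KKT.gr J, KKT.pl J x⁆⁆⁆ : KKT J).1
      + (2 : 𝕜) • (r.c 2).2.1.1.1 x = 0 := h
  have hg1 : ∀ Y : KKT J, (⁅KKT.gr J, Y⁆ : KKT J).1 = Y.1 := fun Y => by rw [KKT.gr_lie]
  rw [gr_pl, Q_pl, gr_st, lie_zero, hg1, Q_st_p] at h'
  have h2 : -(-(-(J.tri x v) v)) + (0 : V) + -(-(-(J.tri x v) v))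
      + (2 : 𝕜) • (r.c 2).2.1.1.1 x = 0 := h'
  have h3 : (2 : 𝕜) • ((r.c 2).2.1.1.1 x - J.tri v v x) = 0 := by
    rw [smul_sub, ← h2, two_smul, J.symm v v x]
    abel_nf
    simp [two_smul]
  exact sub_eq_zero.mp (smul_two_zero (𝕜 := 𝕜) h3)

theorem c3_p : (r.c 3).1 = n.f (n.f v) + J.tri v v v := by
  rw [r.rec_p 2, r.c2_p, r.c2_b]

/-- What is asked of the operator `∇_W`. -/
def Compat (n : Nab 𝕜 J) (v : V) (m : Nab 𝕜 J) (W : V) : Prop :=
  (∀ x, m.f (n.f x) - n.f (m.f x) = J.tri W v x - J.tri v W x) ∧ m.f v = n.f W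

theorem str_odd {k : ℕ} (hk : Odd k) :
    (((r.c k).2.1.1.1, (r.c k).2.1.1.1) : Module.End A V × Module.End A V) ∈ Str J := by
  have h := (r.c k).2.1.2
  have h2 := (r.par_odd hk).2
  have : (r.c k).2.1.1 = ((r.c k).2.1.1.1, (r.c k).2.1.1.1) := Prod.ext rfl h2
  rw [← this]; exact h

/-- Commuting flows. -/
theorem commute {k l : ℕ} (hk : Odd k) (hl : Odd l) (mk ml : Nab 𝕜 J)
    (h1 : Compat n v mk (r.c k).1) (h2 : Compat n v ml (r.c l).1) :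
    mk.f (r.c l).1 = ml.f (r.c k).1 := by
  have main : ∀ {k : ℕ} (hk : Odd k) (m : Nab 𝕜 J) (h : Compat n v m (r.c k).1),
      ⁅(m.addB _ (r.str_odd hk)).lift, n.lift⁆ = 0 ∧
      ⁅(m.addB _ (r.str_odd hk)).lift, adL 𝕜 J (KKT.gr J)⁆ = 0 ∧
      ⁅(m.addB _ (r.str_odd hk)).lift, adL 𝕜 J (KKT.Q J v)⁆ =
        ⁅adL 𝕜 J (KKT.gr J), coeff (k + 1) r.P⁆ := by
    intro k hk m h
    refine ⟨?_, ?_, ?_⟩
    · apply Nab.lift_comm
      intro x
      rw [Nab.addB_f, Nab.addB_f, map_add]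
      have e1 := h.1 x
      have e2 := r.rec_b k x
      rw [(r.par_odd hk).1, ← e1] at e2
      have : m.f (n.f x) + (r.c k).2.1.1.1 (n.f x) - (n.f (m.f x) + n.f ((r.c k).2.1.1.1 x))
          = (m.f (n.f x) - n.f (m.f x)) - (n.f ((r.c k).2.1.1.1 x)
            - (r.c k).2.1.1.1 (n.f x)) := by abel
      rw [← sub_eq_zero, this, e2, sub_self]
    · have : ⁅(m.addB _ (r.str_odd hk)).lift, adL 𝕜 J (KKT.gr J)⁆ =
          adL 𝕜 J ((m.addB _ (r.str_odd hk)).lift (KKT.gr J)) := Nab.lift_ad _ _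
      rw [this, Nab.lift_gr, map_zero]
    · have : ⁅(m.addB _ (r.str_odd hk)).lift, adL 𝕜 J (KKT.Q J v)⁆ =
          adL 𝕜 J ((m.addB _ (r.str_odd hk)).lift (KKT.Q J v)) := Nab.lift_ad _ _
      rw [this, r.hP, adL_lie, KKT.gr_lie]
      have hv : (m.addB _ (r.str_odd hk)).f v = (r.c (k + 1)).1 := by
        rw [Nab.addB_f, h.2, r.rec_p k]
      refine congrArg (adL 𝕜 J) ?_
      apply KKT.ext'
      · exact hv
      · ext w
        show (m.addB _ (r.str_odd hk)).f 0 - 0 = 0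
        simp
      · ext w
        show (m.addB _ (r.str_odd hk)).f 0 - 0 = 0
        simp
      · show (m.addB _ (r.str_odd hk)).f v = -(r.c (k + 1)).2.2
        rw [hv, (r.par_even (hk.add_odd odd_one)).1, neg_neg]
  obtain ⟨a1, a2, a3⟩ := main hk mk h1
  obtain ⟨b1, b2, b3⟩ := main hl ml h2
  have h := flow_diff (𝕜 := 𝕜) (kktGrad n).a3 r.P (by rw [r.hP, r.c0]; rfl) r.cub r.rel k l _ _
    a1 a2 a3 b1 b2 b3
  rw [r.hP, r.hP, adL_lie] at h
  have e1 : ⁅(mk.addB _ (r.str_odd hk)).lift, adL 𝕜 J (r.c l)⁆ =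
          adL 𝕜 J ((mk.addB _ (r.str_odd hk)).lift (r.c l)) := Nab.lift_ad _ _
  have e2 : ⁅(ml.addB _ (r.str_odd hl)).lift, adL 𝕜 J (r.c k)⁆ =
          adL 𝕜 J ((ml.addB _ (r.str_odd hl)).lift (r.c k)) := Nab.lift_ad _ _
  rw [e1, e2, ← map_sub] at h
  have h' := congrArg (fun X : KKT J => X.1) (adL_inj h)
  have h'' : (mk.f (r.c l).1 + (r.c k).2.1.1.1 (r.c l).1)
      - (ml.f (r.c k).1 + (r.c l).2.1.1.1 (r.c k).1) = (⁅r.c k, r.c l⁆ : KKT J).1 := h'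
  rw [KKT.br_p] at h''
  have : mk.f (r.c l).1 - ml.f (r.c k).1 = ((mk.f (r.c l).1 + (r.c k).2.1.1.1 (r.c l).1)
      - (ml.f (r.c k).1 + (r.c l).2.1.1.1 (r.c k).1)) -
      ((r.c k).2.1.1.1 (r.c l).1 - (r.c l).2.1.1.1 (r.c k).1) := by abel
  rw [← sub_eq_zero, this, h'', sub_self]

end Res

end

end Pool.Agent.Lib.H29J
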