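import Pool.Agent.Lib.H29J.D3

/-!
# Orders of the members of the hierarchy
-/

set_option autoImplicit false

open PowerSeries

namespace Pool.Agent.Lib.H29J

section

variable {𝕜 A V : Type} [Field 𝕜] [CharZero 𝕜] [CommRing A] [AddCommGroup V] [Module A V]
  [Algebra 𝕜 A] [Module 𝕜 V] [IsScalarTower 𝕜 A V]

/-- A filtration of `V` by order. -/
structure Filt {J : JTS A V} (n : Nab 𝕜 J) (v : V) where
  F : ℕ → Submodule 𝕜 V
  mono : Monotone F
  tri : ∀ r, ∀ x ∈ F r, ∀ y ∈ F r, ∀ z ∈ F r, J.tri x y z ∈ F r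
  nab : ∀ r, ∀ x ∈ F r, n.f x ∈ F (r + 1)
  v1 : v ∈ F 1

namespace Filt

variable {J : JTS A V} {n : Nab 𝕜 J} {v : V} (f : Filt n v)

/-- elements of order at most `r` -/
def K (r : ℕ) : Submodule 𝕜 (KKT J) where
  carrier := {X | X.1 ∈ f.F r ∧ X.2.2 ∈ f.F r ∧ (∀ t, r ≤ t → ∀ x ∈ f.F t, X.2.1.1.1 x ∈ f.F t) ∧
    (∀ t, r ≤ t → ∀ x ∈ f.F t, X.2.1.1.2 x ∈ f.F t)}
  add_mem' := by
    rintro X Y ⟨h1, h2, h3, h4⟩ ⟨k1, k2, k3, k4⟩
    exact ⟨add_mem h1 k1, add_mem h2 k2, fun t ht x hx => add_mem (h3 t ht x hx) (k3 t ht x hx),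
      fun t ht x hx => add_mem (h4 t ht x hx) (k4 t ht x hx)⟩
  zero_mem' := ⟨zero_mem _, zero_mem _, fun t _ x _ => zero_mem _, fun t _ x _ => zero_mem _⟩
  smul_mem' := by
    rintro c X ⟨h1, h2, h3, h4⟩
    exact ⟨Submodule.smul_mem _ c h1, Submodule.smul_mem _ c h2,
      fun t ht x hx => Submodule.smul_mem _ c (h3 t ht x hx),
      fun t ht x hx => Submodule.smul_mem _ c (h4 t ht x hx)⟩

/-- operators of order at most `r` -/
def O (r : ℕ) : Submodule 𝕜 (Module.End 𝕜 (KKT J)) where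
  carrier := {G | ∀ s, r ≤ s → ∀ X ∈ f.K s, G X ∈ f.K s}
  add_mem' h k s hs X hX := add_mem (h s hs X hX) (k s hs X hX)
  zero_mem' s _ X _ := zero_mem _
  smul_mem' c G h s hs X hX := Submodule.smul_mem _ c (h s hs X hX)

theorem O_mul {r : ℕ} {G H : Module.End 𝕜 (KKT J)} (hG : G ∈ f.O r) (hH : H ∈ f.O r) :
    G * H ∈ f.O r := fun s hs X hX => hG s hs _ (hH s hs X hX)

theorem ad_O {r : ℕ} {c : KKT J} (hc : c ∈ f.K r) : adL 𝕜 J c ∈ f.O r := by
  obtain ⟨c1, c2, c3, c4⟩ := hc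
  rintro s hs X ⟨x1, x2, x3, x4⟩
  show ⁅c, X⁆ ∈ f.K s
  have c1' := f.mono hs c1
  have c2' := f.mono hs c2
  refine ⟨?_, ?_, ?_, ?_⟩
  · rw [KKT.br_p]
    exact sub_mem (c3 s hs _ x1) (x3 s le_rfl _ c1')
  · rw [KKT.br_m]
    exact sub_mem (c4 s hs _ x2) (x4 s le_rfl _ c2')
  · intro t ht x hx
    rw [KKT.br_1]
    exact add_mem (sub_mem (sub_mem (c3 t (hs.trans ht) _ (x3 t ht x hx))
      (x3 t ht _ (c3 t (hs.trans ht) x hx)))
      (f.tri t _ (f.mono ht c1') _ (f.mono ht x2) x hx))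
      (f.tri t _ (f.mono ht x1) _ (f.mono ht c2') x hx)
  · intro t ht x hx
    rw [KKT.br_2]
    exact sub_mem (add_mem (sub_mem (c4 t (hs.trans ht) _ (x4 t ht x hx))
      (x4 t ht _ (c4 t (hs.trans ht) x hx)))
      (f.tri t _ (f.mono ht x2) _ (f.mono ht c1') x hx))
      (f.tri t _ (f.mono ht c2') _ (f.mono ht x1) x hx)

theorem gr_K (r : ℕ) : KKT.gr J ∈ f.K r :=
  ⟨zero_mem _, zero_mem _, fun _ _ _ hx => hx, fun _ _ _ hx => neg_mem hx⟩

theorem pl_K {t : ℕ} {x : V} (hx : x ∈ f.F t) : KKT.pl J x ∈ f.K t :=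
  ⟨hx, zero_mem _, fun _ _ _ _ => zero_mem _, fun _ _ _ _ => zero_mem _⟩

theorem O_coeff {r : ℕ} {B : (Module.End 𝕜 (KKT J))⟦X⟧} (hB : ∀ k, coeff k B ∈ f.O r) (k : ℕ) :
    coeff k (B * B * B) ∈ f.O r := by
  have h2 : ∀ k, coeff k (B * B) ∈ f.O r := by
    intro k
    rw [coeff_mul]
    exact Submodule.sum_mem _ fun p _ => f.O_mul (hB _) (hB _)
  rw [coeff_mul]
  exact Submodule.sum_mem _ fun p _ => f.O_mul (h2 _) (hB _)

theorem order (r : Res n v) (k : ℕ) (hk : 1 ≤ k) :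
    (r.c k).1 ∈ f.F k ∧ ∀ t, max 1 (k - 1) ≤ t → ∀ x ∈ f.F t, (r.c k).2.1.1.1 x ∈ f.F t := by
  induction k using Nat.strong_induction_on with
  | _ k ih =>
    rcases Nat.lt_or_ge k 2 with h | h
    · have : k = 1 := by omega
      subst this
      refine ⟨by rw [r.c1_p]; exact f.v1, fun t _ x _ => ?_⟩
      rw [r.c1_b]; exact zero_mem _
    · have hK : ∀ i, i < k → r.c i ∈ f.K (k - 1) := by
        intro i hi
        rcases Nat.eq_zero_or_pos i with h0 | h0
        · subst h0; rw [r.c0]; exact f.gr_K _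
        · obtain ⟨i1, i2⟩ := ih i hi h0
          have j1 : (r.c i).1 ∈ f.F (k - 1) := f.mono (by omega) i1
          have j2 : ∀ t, k - 1 ≤ t → ∀ x ∈ f.F t, (r.c i).2.1.1.1 x ∈ f.F t :=
            fun t ht x hx => i2 t (by omega) x hx
          rcases Nat.even_or_odd i with he | ho
          · obtain ⟨e1, e2⟩ := r.par_even he
            refine ⟨j1, ?_, j2, fun t ht x hx => ?_⟩
            · rw [e1]; exact neg_mem j1
            · rw [e2]; exact neg_mem (j2 t ht x hx)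
          · obtain ⟨e1, e2⟩ := r.par_odd ho
            refine ⟨j1, ?_, j2, fun t ht x hx => ?_⟩
            · rw [e1]; exact j1
            · rw [e2]; exact j2 t ht x hx
      have hB : ∀ j, coeff j (trunE r.P k) ∈ f.O (k - 1) := by
        intro j
        rw [trunE, coeff_mk]
        split_ifs with hj
        · rw [r.hP]; exact f.ad_O (hK j hj)
        · exact zero_mem _
      refine ⟨?_, fun t ht x hx => ?_⟩
      · obtain ⟨m, rfl⟩ : ∃ m, k = m + 1 := ⟨k - 1, by omega⟩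
        obtain ⟨i1, i2⟩ := ih m (by omega) (by omega)
        rw [r.rec_p m]
        refine add_mem (f.nab _ _ i1) ?_
        have := i2 (max 1 (m - 1)) le_rfl v (f.mono (le_max_left _ _) f.v1)
        exact f.mono (by omega) this
      · have h1 := r.cub_pl k hk x
        have h2 : coeff k (trunE r.P k * trunE r.P k * trunE r.P k) (KKT.pl J x) ∈ f.K t :=
          f.O_coeff hB k t (by omega) _ (f.pl_K hx)
        have h3 : (2 : 𝕜) • (r.c k).2.1.1.1 x ∈ f.F t := by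
          have : (2 : 𝕜) • (r.c k).2.1.1.1 x =
            -(coeff k (trunE r.P k * trunE r.P k * trunE r.P k) (KKT.pl J x)).1 :=
            eq_neg_of_add_eq_zero_right h1
          rw [this]; exact neg_mem h2.1
        have h4 := Submodule.smul_mem (f.F t) (2 : 𝕜)⁻¹ h3
        rwa [smul_smul, inv_mul_cancel₀ (by norm_num), one_smul] at h4

theorem lead (r : Res n v) (k : ℕ) : (r.c (k + 1)).1 - (n.f)^[k] v ∈ f.F k := by
  induction k with
  | zero =>
    rw [zero_add, r.c1_p, Function.iterate_zero, id, sub_self]; exact zero_mem _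
  | succ k ih =>
    rw [r.rec_p (k + 1), Function.iterate_succ_apply']
    have e : n.f (r.c (k + 1)).1 + (r.c (k + 1)).2.1.1.1 v - n.f ((n.f)^[k] v) =
        n.f ((r.c (k + 1)).1 - (n.f)^[k] v) + (r.c (k + 1)).2.1.1.1 v := by
      rw [map_sub]; abel
    rw [e]
    refine add_mem (f.nab _ _ ih) ?_
    obtain ⟨_, i2⟩ := f.order r (k + 1) (by omega)
    have := i2 (max 1 (k + 1 - 1)) le_rfl v (f.mono (le_max_left _ _) f.v1)
    exact f.mono (by omega) this

end Filt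

end

end Pool.Agent.Lib.H29J
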