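import Mathlib
import Pool.Agent.Lib.H99JetCalc.Defs

/-!
# Third-order geometric systems, higher symmetries (definitions)

The systems of the problem MP_027f17_mp, the conditions (C1) to (C5), nondegenerate local
conservation laws, commuting evolution systems.
-/

set_option autoImplicit false

namespace Pool.Agent.Lib.H29J

open Pool.Agent.Lib.H99JetCalc

variable {𝕜 : Type} [RCLike 𝕜] {N : ℕ}

/-! ## Third-order geometric systems -/

/-- The coefficients `α^i_{jk}(u)`, `β^i_{jkm}(u)` of a system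
`u^i_t = u^i_xxx + 3 α^i_jk u^j_x u^k_xx
  + (∂_j α^i_km + 2 α^i_jr α^r_km - α^i_rj α^r_km + β^i_jkm) u^j_x u^k_x u^m_x`
on a nonempty open set `dom` of `𝕜^N`; the first index is the upper one,
`α u i j k = α^i_{jk}(u)`, and `β` is totally symmetric in its lower indices. -/
structure GeometricSystem (𝕜 : Type) [RCLike 𝕜] (N : ℕ) where
  /-- the domain of the coefficients -/
  dom : Set (Fin N → 𝕜)
  isOpen_dom : IsOpen dom
  nonempty_dom : dom.Nonempty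
  /-- the connection coefficients `α^i_{jk}` -/
  α : (Fin N → 𝕜) → Fin N → Fin N → Fin N → 𝕜
  /-- the tensor `β^i_{jkm}` -/
  β : (Fin N → 𝕜) → Fin N → Fin N → Fin N → Fin N → 𝕜
  analytic_α : ∀ i j k, AnalyticOnNhd 𝕜 (fun u => α u i j k) dom
  analytic_β : ∀ i j k m, AnalyticOnNhd 𝕜 (fun u => β u i j k m) dom
  symm_β : ∀ u ∈ dom, ∀ i j k m, β u i j k m = β u i k j m ∧ β u i j k m = β u i j m k

namespace GeometricSystem

/-- `∂_j g (u)` for a scalar function `g` on `𝕜^N`. -/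
noncomputable def pdu (j : Fin N) (g : (Fin N → 𝕜) → 𝕜) (u : Fin N → 𝕜) : 𝕜 :=
  fderiv 𝕜 g u (Pi.single j 1)

/-- The right-hand side of the system as a function of jets. -/
noncomputable def rhs (S : GeometricSystem 𝕜 N) (j : Jet 𝕜 N) (i : Fin N) : 𝕜 :=
  j 3 i + 3 * ∑ p, ∑ q, S.α (j 0) i p q * j 1 p * j 2 q +
    ∑ p, ∑ q, ∑ r, (pdu p (fun u => S.α u i q r) (j 0) + 2 * ∑ s, S.α (j 0) i p s * S.α (j 0) s q r
      - ∑ s, S.α (j 0) i s p * S.α (j 0) s q r + S.β (j 0) i p q r) * j 1 p * j 1 q * j 1 r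

/-- Zero torsion: `α^i_{jk} = α^i_{kj}`. -/
def ZeroTorsion (S : GeometricSystem 𝕜 N) : Prop :=
  ∀ u ∈ S.dom, ∀ i j k, S.α u i j k = S.α u i k j

/-- `R^i_{jkl} = ∂_k α^i_{jl} - ∂_l α^i_{jk} + α^i_{sk} α^s_{jl} - α^i_{sl} α^s_{jk}`. -/
noncomputable def curvComp (S : GeometricSystem 𝕜 N) (u : Fin N → 𝕜) (i j k l : Fin N) : 𝕜 :=
  pdu k (fun u => S.α u i j l) u - pdu l (fun u => S.α u i j k) u +
    ∑ s, S.α u i s k * S.α u s j l - ∑ s, S.α u i s l * S.α u s j k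

/-- The vector `R(X,Y,Z)^i = R^i_{jkl} X^j Y^k Z^l`. -/
noncomputable def R (S : GeometricSystem 𝕜 N) (u X Y Z : Fin N → 𝕜) : Fin N → 𝕜 :=
  fun i => ∑ j, ∑ k, ∑ l, S.curvComp u i j k l * X j * Y k * Z l

/-- The vector `β(X,Y,Z)^i = β^i_{jkl} X^j Y^k Z^l`. -/
noncomputable def betaVec (S : GeometricSystem 𝕜 N) (u X Y Z : Fin N → 𝕜) : Fin N → 𝕜 :=
  fun i => ∑ j, ∑ k, ∑ l, S.β u i j k l * X j * Y k * Z l

/-- `σ(X,Y,Z) = β(X,Y,Z) - (1/3) R(X,Y,Z) + (1/3) R(Z,X,Y)`. -/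
noncomputable def σ (S : GeometricSystem 𝕜 N) (u X Y Z : Fin N → 𝕜) : Fin N → 𝕜 :=
  S.betaVec u X Y Z - (1 / 3 : 𝕜) • S.R u X Y Z + (1 / 3 : 𝕜) • S.R u Z X Y

/-- The components `T^i_{jkl}(u)` of a field of trilinear operations. -/
def comp (T : (Fin N → 𝕜) → (Fin N → 𝕜) → (Fin N → 𝕜) → (Fin N → 𝕜) → (Fin N → 𝕜))
    (i j k l : Fin N) (u : Fin N → 𝕜) : 𝕜 :=
  T u (Pi.single j 1) (Pi.single k 1) (Pi.single l 1) i

/-- The covariant derivative of a field of trilinear operations with respect to the connection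
`α`: `∇_m T^i_{jkl} = ∂_m T^i_{jkl} + α^i_{ms} T^s_{jkl} - α^s_{mj} T^i_{skl} - α^s_{mk} T^i_{jsl}
- α^s_{ml} T^i_{jks}`. -/
noncomputable def covDeriv (S : GeometricSystem 𝕜 N)
    (T : (Fin N → 𝕜) → (Fin N → 𝕜) → (Fin N → 𝕜) → (Fin N → 𝕜) → (Fin N → 𝕜))
    (m i j k l : Fin N) (u : Fin N → 𝕜) : 𝕜 :=
  pdu m (comp T i j k l) u + ∑ s, (S.α u i m s * comp T s j k l u - S.α u s m j * comp T i s k l u
    - S.α u s m k * comp T i j s l u - S.α u s m l * comp T i j k s u)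

/-- (C1) `∇R = 0`. -/
def C1 (S : GeometricSystem 𝕜 N) : Prop := ∀ u ∈ S.dom, ∀ m i j k l, S.covDeriv S.R m i j k l u = 0

/-- (C2) `∇σ = 0`. -/
def C2 (S : GeometricSystem 𝕜 N) : Prop := ∀ u ∈ S.dom, ∀ m i j k l, S.covDeriv S.σ m i j k l u = 0

/-- (C3) `R(X,Y,Z) = σ(X,Z,Y) - σ(X,Y,Z)`. -/
def C3 (S : GeometricSystem 𝕜 N) : Prop :=
  ∀ u ∈ S.dom, ∀ X Y Z, S.R u X Y Z = S.σ u X Z Y - S.σ u X Y Z

/-- (C4) `σ(X,Y,Z) = σ(Z,Y,X)`. -/
def C4 (S : GeometricSystem 𝕜 N) : Prop := ∀ u ∈ S.dom, ∀ X Y Z, S.σ u X Y Z = S.σ u Z Y X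

/-- (C5) `σ(X,σ(Y,Z,V),W) - σ(W,V,σ(X,Y,Z)) + σ(Z,Y,σ(X,V,W)) - σ(X,V,σ(Z,Y,W)) = 0`. -/
def C5 (S : GeometricSystem 𝕜 N) : Prop :=
  ∀ u ∈ S.dom, ∀ X Y Z V W, S.σ u X (S.σ u Y Z V) W - S.σ u W V (S.σ u X Y Z)
    + S.σ u Z Y (S.σ u X V W) - S.σ u X V (S.σ u Z Y W) = 0

/-- The jets lying over the domain of the system. -/
def jets (S : GeometricSystem 𝕜 N) : Set (Jet 𝕜 N) := {j | j 0 ∈ S.dom}

/-- The system has a nondegenerate local conservation law of order `k`: on some open set `Ω` of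
jets (lying over the domain of the system) there are a density `ρ(u, …, u_k)` and a flux
`θ(u, …, u_m)`, both analytic, with `D_t ρ = D_x θ` on `Ω`, such that the matrix
`∂²ρ/∂u^a_k ∂u^b_k` is nonsingular at some point of `Ω`.
(Neither minimality of `k` nor nondegeneracy at every point is asked for, so that this is the
widest reading of the notion and its negation is the strongest.) -/
def HasNondegenerateLaw (S : GeometricSystem 𝕜 N) (k : ℕ) : Prop :=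
  ∃ (Ω : Set (Jet 𝕜 N)) (ρ θ : Jet 𝕜 N → 𝕜) (m : ℕ),
    IsOpen Ω ∧ (∀ j ∈ Ω, j 0 ∈ S.dom) ∧
    IsDifferentialFunction k Ω ρ ∧ IsDifferentialFunction m Ω θ ∧
    (∀ j ∈ Ω, evolDeriv S.rhs ρ j = totalDeriv θ j) ∧
    ∃ j ∈ Ω, (topHessian k ρ j).det ≠ 0

end GeometricSystem

/-! ## Evolution systems and symmetries -/

/-- The two evolution systems `u_t = K` and `u_τ = L` commute at all jets of `Ω`: for each
component, `D_τ K^i = D_t L^i`. -/
def Commute (Ω : Set (Jet 𝕜 N)) (K L : Jet 𝕜 N → Fin N → 𝕜) : Prop :=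
  ∀ j ∈ Ω, ∀ i, evolDeriv K (fun j' => L j' i) j = evolDeriv L (fun j' => K j' i) j

/-- `K` is of the form `u_n + G(u, u_1, …, u_{n-1})` with locally analytic `G`. -/
def IsMonicOfOrder (Ω : Set (Jet 𝕜 N)) (n : ℕ) (K : Jet 𝕜 N → Fin N → 𝕜) : Prop :=
  ∀ i, IsDifferentialFunction (n - 1) Ω (fun j => K j i - j n i)

end Pool.Agent.Lib.H29J
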