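import Pool.Agent.Lib.H29J.Defs
import Pool.Agent.Lib.H99JetCalc.Calc

/-!
# The example without nondegenerate conservation laws (helper99)
-/

set_option autoImplicit false

namespace Pool.Agent.Lib.H29J

open Pool.Agent.Lib.H99JetCalc

variable {𝕜 : Type} [RCLike 𝕜] {N : ℕ}

/-! ## The example -/

/-- The structure constants of the example: `σ(X,Y,Z) = XYZ` in the commutative algebra
`𝕜[x, y]/(x, y)^2` with basis `1, x, y`.  So `β^0_{000} = 1` and, for `i = 1, 2`,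
`β^i_{i00} = β^i_{0i0} = β^i_{00i} = 1`; all others are `0`. -/
def exβ (𝕜 : Type) [RCLike 𝕜] (i p q r : Fin 3) : 𝕜 :=
  if (p, q, r) = (i, 0, 0) ∨ (p, q, r) = (0, i, 0) ∨ (p, q, r) = (0, 0, i) then 1 else 0

/-- The system `u_t = u_xxx + (u_x)^3, v_t = v_xxx + 3 (u_x)^2 v_x, w_t = w_xxx + 3 (u_x)^2 w_x`. -/
def exSystem (𝕜 : Type) [RCLike 𝕜] : GeometricSystem 𝕜 3 where
  dom := Set.univ
  isOpen_dom := isOpen_univ
  nonempty_dom := Set.univ_nonempty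
  α := fun _ _ _ _ => 0
  β := fun _ i p q r => exβ 𝕜 i p q r
  analytic_α := fun _ _ _ _ _ => analyticAt_const
  analytic_β := fun _ _ _ _ _ _ => analyticAt_const
  symm_β := by
    intro u _ i j k m
    fin_cases i <;> fin_cases j <;> fin_cases k <;> fin_cases m <;> simp [exβ]

lemma exBeta_formula (u X Y Z : Fin 3 → 𝕜) :
    (exSystem 𝕜).betaVec u X Y Z =
      ![X 0 * Y 0 * Z 0, X 1 * Y 0 * Z 0 + X 0 * Y 1 * Z 0 + X 0 * Y 0 * Z 1,
        X 2 * Y 0 * Z 0 + X 0 * Y 2 * Z 0 + X 0 * Y 0 * Z 2] := by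
  funext i
  fin_cases i
  · simp [GeometricSystem.betaVec, exSystem, exβ, Fin.sum_univ_three]
  · simp [GeometricSystem.betaVec, exSystem, exβ, Fin.sum_univ_three]
    ring
  · simp [GeometricSystem.betaVec, exSystem, exβ, Fin.sum_univ_three]
    ring

lemma exR_eq_zero (u X Y Z : Fin 3 → 𝕜) : (exSystem 𝕜).R u X Y Z = 0 := by
  funext i
  simp [GeometricSystem.R, GeometricSystem.curvComp, GeometricSystem.pdu, exSystem]

lemma exσ_formula (u X Y Z : Fin 3 → 𝕜) :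
    (exSystem 𝕜).σ u X Y Z =
      ![X 0 * Y 0 * Z 0, X 1 * Y 0 * Z 0 + X 0 * Y 1 * Z 0 + X 0 * Y 0 * Z 1,
        X 2 * Y 0 * Z 0 + X 0 * Y 2 * Z 0 + X 0 * Y 0 * Z 2] := by
  simp [GeometricSystem.σ, exR_eq_zero, exBeta_formula]

lemma exRhs (j : Jet 𝕜 3) : (exSystem 𝕜).rhs j 0 = j 3 0 + j 1 0 ^ 3 ∧
    (exSystem 𝕜).rhs j 1 = j 3 1 + 3 * j 1 0 ^ 2 * j 1 1 ∧
    (exSystem 𝕜).rhs j 2 = j 3 2 + 3 * j 1 0 ^ 2 * j 1 2 := by
  refine ⟨?_, ?_, ?_⟩ <;>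
  · simp [GeometricSystem.rhs, GeometricSystem.pdu, exSystem, exβ, Fin.sum_univ_three]
    ring

/-- The nonlinearities `((u_1)^3, 3 (u_1)^2 v_1, 3 (u_1)^2 w_1)` as differential functions. -/
noncomputable def exφ (Ω : Set (Jet 𝕜 3)) : Fin 3 → diffAlg Ω :=
  ![X Ω 1 0 * X Ω 1 0 * X Ω 1 0, 3 * (X Ω 1 0 * X Ω 1 0 * X Ω 1 1),
    3 * (X Ω 1 0 * X Ω 1 0 * X Ω 1 2)]

lemma exφ_zero (Ω : Set (Jet 𝕜 3)) : exφ Ω 0 = X Ω 1 0 * X Ω 1 0 * X Ω 1 0 := rfl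
lemma exφ_one (Ω : Set (Jet 𝕜 3)) : exφ Ω 1 = 3 * (X Ω 1 0 * X Ω 1 0 * X Ω 1 1) := rfl
lemma exφ_two (Ω : Set (Jet 𝕜 3)) : exφ Ω 2 = 3 * (X Ω 1 0 * X Ω 1 0 * X Ω 1 2) := rfl

lemma exK (Ω : Set (Jet 𝕜 3)) (j : Ω) (i : Fin 3) :
    (exSystem 𝕜).rhs j i = (X Ω 3 i + exφ Ω i).1 j := by
  obtain ⟨h0, h1, h2⟩ := exRhs (𝕜 := 𝕜) j
  fin_cases i
  · simp only [Fin.zero_eta, Fin.isValue, h0, exφ_zero]
    show j.1 3 0 + j.1 1 0 ^ 3 = j.1 3 0 + (j.1 1 0 * j.1 1 0 * j.1 1 0)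
    ring
  · simp only [Fin.mk_one, Fin.isValue, h1, exφ_one]
    show j.1 3 1 + 3 * j.1 1 0 ^ 2 * j.1 1 1 = j.1 3 1 + 3 * (j.1 1 0 * j.1 1 0 * j.1 1 1)
    ring
  · simp only [Fin.reduceFinMk, Fin.isValue, h2, exφ_two]
    show j.1 3 2 + 3 * j.1 1 0 ^ 2 * j.1 1 2 = j.1 3 2 + 3 * (j.1 1 0 * j.1 1 0 * j.1 1 2)
    ring

lemma pd_three {Ω : Set (Jet 𝕜 3)} (hΩ : IsOpen Ω) (n : ℕ) (i : Fin 3) :
    (jetCalc hΩ).pd n i (3 : diffAlg Ω) = 0 := by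
  have e : (3 : diffAlg Ω) = ((3 : ℕ) : diffAlg Ω) := Nat.cast_ofNat.symm
  rw [e]
  exact Derivation.map_natCast _ _

lemma ex_pdX {Ω : Set (Jet 𝕜 3)} (hΩ : IsOpen Ω) (n : ℕ) (i : Fin 3) (m : ℕ) (l : Fin 3) :
    (jetCalc hΩ).pd n i (X Ω m l) = if n = m ∧ i = l then 1 else 0 :=
  (jetCalc hΩ).pd_X n i m l

lemma pd_mul {Ω : Set (Jet 𝕜 3)} (hΩ : IsOpen Ω) (n : ℕ) (i : Fin 3) (F G : diffAlg Ω) :
    (jetCalc hΩ).pd n i (F * G) = (jetCalc hΩ).pd n i F * G + F * (jetCalc hΩ).pd n i G := by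
  rw [Derivation.leibniz, smul_eq_mul, smul_eq_mul]; ring

/-- The block of the top Hessian of a conserved density belonging to `v, w` vanishes. -/
lemma ex_block {Ω : Set (Jet 𝕜 3)} (hΩ : IsOpen Ω) {K : ℕ} {ρ θ : diffAlg Ω}
    (hρ : ∀ n, K + 1 < n → ∀ i, (jetCalc hΩ).pd n i ρ = 0)
    (h : (jetCalc hΩ).Dt (exφ Ω) (K + 1) ρ = (jetCalc hΩ).D θ) (a b : Fin 3) (ha : a ≠ 0)
    (hb : b ≠ 0) (j : Ω) :
    ((jetCalc hΩ).pd (K + 1) a ((jetCalc hΩ).pd (K + 1) b ρ)).1 j = 0 := by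
  have hf : ∀ i, ∀ n, n ≠ 1 → ∀ a, (jetCalc hΩ).pd n a (exφ Ω i) = 0 := by
    intro i n hn a
    fin_cases i
    · simp only [Fin.zero_eta, Fin.isValue, exφ_zero, pd_mul, ex_pdX]
      simp [hn]
    · simp only [Fin.mk_one, Fin.isValue, exφ_one, pd_mul, ex_pdX, pd_three]
      simp [hn]
    · simp only [Fin.reduceFinMk, Fin.isValue, exφ_two, pd_mul, ex_pdX, pd_three]
      simp [hn]
  have key := (jetCalc hΩ).main hf hρ h b 0 a 0
  have h6 : (6 : 𝕜) ≠ 0 := by norm_num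
  have fin6 : ∀ z : diffAlg Ω, 6 * z = 0 → z.1 j = 0 := by
    intro z hz
    have h1 : (6 * z).1 j = 0 := by rw [hz]; rfl
    have h2 : (6 * z).1 j = 6 * z.1 j := rfl
    rw [h2] at h1
    exact (mul_eq_zero.mp h1).resolve_left h6
  apply fin6
  have e01 : ((0 : Fin 3) = 1) = False := by simp
  have e02 : ((0 : Fin 3) = 2) = False := by simp
  have e12 : ((1 : Fin 3) = 2) = False := by simp
  have e10 : ((1 : Fin 3) = 0) = False := by simp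
  have e20 : ((2 : Fin 3) = 0) = False := by simp
  have e21 : ((2 : Fin 3) = 1) = False := by simp
  simp only [Fin.sum_univ_three, exφ_zero, exφ_one, exφ_two, pd_mul, ex_pdX, pd_three, map_add,
    e01, e02, e10, e20, and_false, if_false, and_self, if_true, mul_zero, zero_mul,
    add_zero, zero_add, mul_one, one_mul, map_zero, Derivation.map_one_eq_zero] at key
  fin_cases a <;> fin_cases b <;>
    first
    | exact absurd rfl ha
    | exact absurd rfl hb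
    | (simp only [Fin.mk_one, Fin.isValue, Fin.reduceFinMk, e12, e10, e20, e21, and_false, if_false,
        and_self, if_true, mul_zero, zero_mul, add_zero, zero_add, mul_one, one_mul, map_zero,
        pd_mul, pd_three, ex_pdX, Derivation.map_one_eq_zero, map_add, e01, e02] at key ⊢
       linear_combination -key)

lemma exNoLaw (k : ℕ) (hk : 1 ≤ k) : ¬ (exSystem 𝕜).HasNondegenerateLaw k := by
  rintro ⟨Ω, ρ, θ, m, hΩ, -, ⟨f, hf⟩, ⟨g, hg⟩, hcons, j, hj, hdet⟩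
  obtain ⟨K, rfl⟩ : ∃ K, k = K + 1 := ⟨k - 1, by omega⟩
  apply hdet
  set r : diffAlg Ω := ⟨fun j => ρ j, K + 1, f, fun j => hf j j.2⟩ with hr
  set t : diffAlg Ω := ⟨fun j => θ j, m, g, fun j => hg j j.2⟩ with ht
  have hrep : Rep Ω (K + 1) f r.1 := fun j => hf j j.2
  have hrρ : ∀ j : Ω, ρ j = r.1 j := fun _ => rfl
  have htθ : ∀ j : Ω, θ j = t.1 j := fun _ => rfl
  have hord : ∀ n, K + 1 < n → ∀ i, (jetCalc hΩ).pd n i r = 0 := by
    intro n hn i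
    apply Subtype.ext
    funext j
    show (along hΩ (pdV Ω n i) r).1 j = 0
    rw [along_apply hΩ _ hrep]
    have : trunc (K + 1) (fun m l => (pdV Ω n i m l).1 j) = 0 := by
      funext m l
      show (eJet n i : Jet 𝕜 3) m l = 0
      unfold eJet
      have : (Pi.single n (Pi.single i 1) : Jet 𝕜 3) m = 0 := by
        rw [Pi.single_apply, if_neg]; omega
      rw [this]; rfl
    rw [this, map_zero]
  have hconv : (jetCalc hΩ).Dt (exφ Ω) (K + 1) r = (jetCalc hΩ).D t := by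
    apply Subtype.ext
    funext j
    rw [← evolDeriv_eq hΩ (exSystem 𝕜).rhs (exφ Ω) (exK Ω) hrep ρ hrρ j,
      ← totalDeriv_eq hΩ t θ htθ j]
    exact hcons j j.2
  have hblock : ∀ a b : Fin 3, a ≠ 0 → b ≠ 0 → topHessian (K + 1) ρ j a b = 0 := by
    intro a b ha hb
    show jetDeriv (K + 1) a (jetDeriv (K + 1) b ρ) j = 0
    have h1 : ∀ j : Ω, jetDeriv (K + 1) b ρ j = ((jetCalc hΩ).pd (K + 1) b r).1 j :=
      fun j => jetDeriv_eq hΩ r ρ hrρ (K + 1) b j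
    have h2 := jetDeriv_eq hΩ ((jetCalc hΩ).pd (K + 1) b r) (jetDeriv (K + 1) b ρ) h1 (K + 1) a
      ⟨j, hj⟩
    rw [show jetDeriv (K + 1) a (jetDeriv (K + 1) b ρ) j = _ from h2]
    exact ex_block hΩ hord hconv a b ha hb ⟨j, hj⟩
  rw [Matrix.det_fin_three, hblock 1 1 (by simp) (by simp), hblock 1 2 (by simp) (by simp),
    hblock 2 1 (by simp) (by simp), hblock 2 2 (by simp) (by simp)]
  ring

theorem noLaws (𝕜 : Type) [RCLike 𝕜] :
    ∃ S : GeometricSystem 𝕜 3, S.dom = Set.univ ∧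
      (∀ j : Jet 𝕜 3, S.rhs j 0 = j 3 0 + j 1 0 ^ 3 ∧
        S.rhs j 1 = j 3 1 + 3 * j 1 0 ^ 2 * j 1 1 ∧
        S.rhs j 2 = j 3 2 + 3 * j 1 0 ^ 2 * j 1 2) ∧
      S.ZeroTorsion ∧ S.C1 ∧ S.C2 ∧ S.C3 ∧ S.C4 ∧ S.C5 ∧
      ∀ k, 1 ≤ k → ¬ S.HasNondegenerateLaw k := by
  refine ⟨exSystem 𝕜, rfl, exRhs, ?_, ?_, ?_, ?_, ?_, ?_, exNoLaw⟩
  · intro u _ i j k; rfl
  · intro u _ m i j k l
    have h1 : ∀ i j k l, GeometricSystem.comp (exSystem 𝕜).R i j k l = fun _ => 0 := by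
      intro i j k l; funext u; simp [GeometricSystem.comp, exR_eq_zero]
    simp [GeometricSystem.covDeriv, h1, GeometricSystem.pdu]
  · intro u _ m i j k l
    have h1 : ∀ i j k l, ∃ c : 𝕜, GeometricSystem.comp (exSystem 𝕜).σ i j k l = fun _ => c := by
      intro i j k l
      refine ⟨GeometricSystem.comp (exSystem 𝕜).σ i j k l 0, ?_⟩
      funext u
      simp only [GeometricSystem.comp, exσ_formula]
    obtain ⟨c, hc⟩ := h1 i j k l
    have h2 : ∀ i j k, (exSystem 𝕜).α u i j k = 0 := fun _ _ _ => rfl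
    simp [GeometricSystem.covDeriv, hc, h2, GeometricSystem.pdu]
  · intro u _ X Y Z
    rw [exR_eq_zero, exσ_formula, exσ_formula]
    funext i
    fin_cases i <;> simp <;> ring
  · intro u _ X Y Z
    rw [exσ_formula, exσ_formula]
    funext i
    fin_cases i <;> simp <;> ring
  · intro u _ X Y Z V W
    simp only [exσ_formula]
    funext i
    fin_cases i <;> simp <;> ring

end Pool.Agent.Lib.H29J
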