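import Pool.Agent.Lib.H29J.J

/-!
# The hierarchy of a geometric system
-/

set_option autoImplicit false

namespace Pool.Agent.Lib.H29J

open Pool.Agent.Lib.H99JetCalc GeometricSystem

variable {𝕜 : Type} [RCLike 𝕜] {N : ℕ}

theorem prod_cub {A : Type} [CommRing A] (a b : Fin N → Fin N → Fin N → A) (v : Fin N → A)
    (i : Fin N) : ∑ x, (∑ s, a i s x * v s) * (∑ p, ∑ q, b x p q * v p * v q) =
      ∑ p, ∑ q, ∑ r, (∑ s, a i p s * b s q r) * v p * v q * v r := by
  have e1 : ∀ x, (∑ s, a i s x * v s) * (∑ p, ∑ q, b x p q * v p * v q) =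
      ∑ s, ∑ p, ∑ q, a i s x * v s * (b x p q * v p * v q) := by
    intro x
    rw [Finset.sum_mul]
    simp only [Finset.mul_sum]
  simp only [e1]
  rw [Finset.sum_comm]
  refine Finset.sum_congr rfl fun p _ => ?_
  rw [Finset.sum_comm]
  refine Finset.sum_congr rfl fun q _ => ?_
  rw [Finset.sum_comm]
  refine Finset.sum_congr rfl fun r _ => ?_
  rw [Finset.sum_mul, Finset.sum_mul, Finset.sum_mul]
  refine Finset.sum_congr rfl fun s _ => ?_
  ring

section

variable (S : GeometricSystem 𝕜 N)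

/-- Vectors of order at most `r`. -/
noncomputable def VOrd (r : ℕ) : Submodule 𝕜 (Fin N → diffAlg S.jets) where
  carrier := {x | ∀ i, x i ∈ Ord S.jets r}
  add_mem' h k i := add_mem (h i) (k i)
  zero_mem' _ := zero_mem _
  smul_mem' c _ h i := Submodule.smul_mem _ c (h i)

theorem GW_Ord {r : ℕ} {W : Fin N → diffAlg S.jets} (hW : W ∈ VOrd S r) (i k : Fin N) :
    GW S W i k ∈ Ord S.jets r :=
  Submodule.sum_mem _ fun s _ => Ord_mul (Ord_mono (Nat.zero_le r) (toA_Ord S _ _)) (hW s)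

theorem vel_Ord : vel S ∈ VOrd S 1 := fun i => Ord_X 1 i

/-- The order filtration. -/
noncomputable def filt (h2 : S.C2) (h4 : S.C4) (h5 : S.C5) :
    Filt (nab S h2 h4 h5 (vel S)) (vel S) where
  F := VOrd S
  mono _ _ h _ hx i := Ord_mono h (hx i)
  tri r x hx y hy z hz i := by
    show triL (Sg S) x y z i ∈ _
    rw [triL_apply]
    exact Submodule.sum_mem _ fun j _ => Submodule.sum_mem _ fun k _ => Submodule.sum_mem _
      fun l _ => Ord_mul (Ord_mul (Ord_mul (Ord_mono (Nat.zero_le r) (toA_Ord S _ _)) (hx j))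
        (hy k)) (hz l)
  nab r x hx i := by
    rw [nab_f, ev_vel]
    refine add_mem (Ord_D _ (hx i)) (Submodule.sum_mem _ fun k _ => Ord_mul ?_ ?_)
    · exact Ord_mono (by omega) (GW_Ord S (vel_Ord S) i k)
    · exact Ord_mono (by omega) (hx k)
  v1 := vel_Ord S

theorem D_X (n : ℕ) (i : Fin N) :
    (jetCalc (isOpen_jets S)).D (X S.jets n i) = X S.jets (n + 1) i :=
  D_iter_X (isOpen_jets S) 1 n i

/-- The leading terms. -/
theorem nab_iter (h2 : S.C2) (h4 : S.C4) (h5 : S.C5) (k : ℕ) :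
    ((nab S h2 h4 h5 (vel S)).f)^[k] (vel S) - (fun i => X S.jets (k + 1) i) ∈ VOrd S k := by
  induction k with
  | zero =>
    rw [Function.iterate_zero, id]
    have : vel S - (fun i => X S.jets (0 + 1) i) = 0 := sub_self _
    rw [this]; exact zero_mem _
  | succ k ih =>
    intro i
    rw [Function.iterate_succ_apply', Pi.sub_apply, nab_f, ev_vel, ← D_X S (k + 1) i]
    obtain ⟨y, hy⟩ : ∃ y, y = ((nab S h2 h4 h5 (vel S)).f)^[k] (vel S) := ⟨_, rfl⟩
    rw [← hy] at ih ⊢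
    have e : (jetCalc (isOpen_jets S)).D (y i) + ∑ x, GW S (vel S) i x * y x
        - (jetCalc (isOpen_jets S)).D (X S.jets (k + 1) i) =
        (jetCalc (isOpen_jets S)).D ((y - fun i => X S.jets (k + 1) i) i)
          + ∑ x, GW S (vel S) i x * y x := by
      rw [Pi.sub_apply, map_sub]; ring
    have hy1 : y ∈ VOrd S (k + 1) := by
      have : y = (y - fun i => X S.jets (k + 1) i) + fun i => X S.jets (k + 1) i := by abel
      rw [this]
      exact add_mem (fun i => Ord_mono (Nat.le_succ k) (ih i)) (fun i => Ord_X _ i)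
    rw [e]
    refine add_mem (Ord_D _ (ih i)) (Submodule.sum_mem _ fun l _ => Ord_mul ?_ (hy1 l))
    exact Ord_mono (by omega) (GW_Ord S (vel_Ord S) i l)

/-- The right-hand side in covariant form. -/
theorem p3_eq (hT : S.ZeroTorsion) (h2 : S.C2) (h4 : S.C4) (h5 : S.C5) (i : Fin N) :
    ((nab S h2 h4 h5 (vel S)).f ((nab S h2 h4 h5 (vel S)).f (vel S))
      + (jts S h4 h5).tri (vel S) (vel S) (vel S)) i =
    X S.jets 3 i + 3 * (∑ p, ∑ q, Gam S i p q * X S.jets 1 p * X S.jets 2 q)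
      + ∑ p, ∑ q, ∑ r, (dGam S i q r p + (∑ s, Gam S i p s * Gam S s q r) + Sg S i p q r)
        * X S.jets 1 p * X S.jets 1 q * X S.jets 1 r := by
  have v1 : ∀ i, vel S i = X S.jets 1 i := fun _ => rfl
  have e0 : ∀ i, (nab S h2 h4 h5 (vel S)).f (vel S) i =
      X S.jets 2 i + ∑ p, ∑ q, Gam S i p q * X S.jets 1 p * X S.jets 1 q := by
    intro i
    rw [nab_f, ev_vel, v1, D_X]
    congr 1
    simp only [GW, Finset.sum_mul, v1]
    rw [Finset.sum_comm]
  rw [Pi.add_apply, nab_f, ev_vel, e0]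
  simp only [e0]
  have et : (jts S h4 h5).tri (vel S) (vel S) (vel S) i =
      ∑ p, ∑ q, ∑ r, Sg S i p q r * X S.jets 1 p * X S.jets 1 q * X S.jets 1 r := rfl
  have eD : (jetCalc (isOpen_jets S)).D (∑ p, ∑ q, Gam S i p q * X S.jets 1 p * X S.jets 1 q) =
      ∑ p, ∑ q, ∑ r, dGam S i q r p * X S.jets 1 p * X S.jets 1 q * X S.jets 1 r
      + 2 * ∑ p, ∑ q, Gam S i p q * X S.jets 1 p * X S.jets 2 q := by
    have g1 : ∀ p q, (jetCalc (isOpen_jets S)).D (Gam S i p q) =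
        ∑ m, dGam S i p q m * X S.jets 1 m := by
      intro p q
      rw [← ev_vel]; exact ev_Gam S (vel S) i p q
    simp only [map_sum, Derivation.leibniz, smul_eq_mul, g1, D_X]
    have g2 : ∀ p q, Gam S i p q * X S.jets 1 p * X S.jets (1 + 1) q
        + X S.jets 1 q * (Gam S i p q * X S.jets (1 + 1) p
          + X S.jets 1 p * ∑ m, dGam S i p q m * X S.jets 1 m) =
        Gam S i p q * X S.jets 1 p * X S.jets 2 q + Gam S i p q * X S.jets 1 q * X S.jets 2 p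
        + ∑ m, dGam S i p q m * X S.jets 1 m * X S.jets 1 p * X S.jets 1 q := by
      intro p q
      have : ∑ m, dGam S i p q m * X S.jets 1 m * X S.jets 1 p * X S.jets 1 q =
          (∑ m, dGam S i p q m * X S.jets 1 m) * X S.jets 1 p * X S.jets 1 q := by
        rw [Finset.sum_mul, Finset.sum_mul]
      rw [this]; ring
    simp only [g2, Finset.sum_add_distrib]
    have g3 : ∑ p, ∑ q, Gam S i p q * X S.jets 1 q * X S.jets 2 p =
        ∑ p, ∑ q, Gam S i p q * X S.jets 1 p * X S.jets 2 q := by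
      rw [Finset.sum_comm]
      refine Finset.sum_congr rfl fun p _ => Finset.sum_congr rfl fun q _ => ?_
      rw [Gam_symm S hT i q p]
    have g4 : ∑ p, ∑ q, ∑ m, dGam S i p q m * X S.jets 1 m * X S.jets 1 p * X S.jets 1 q =
        ∑ p, ∑ q, ∑ r, dGam S i q r p * X S.jets 1 p * X S.jets 1 q * X S.jets 1 r := by
      have : ∀ p, ∑ q, ∑ m, dGam S i p q m * X S.jets 1 m * X S.jets 1 p * X S.jets 1 q =
        ∑ m, ∑ q, dGam S i p q m * X S.jets 1 m * X S.jets 1 p * X S.jets 1 q :=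
        fun p => Finset.sum_comm
      simp only [this]
      rw [Finset.sum_comm]
    rw [g3, g4]
    ring
  have eG : ∑ x, GW S (vel S) i x * (X S.jets 2 x + ∑ p, ∑ q, Gam S x p q * X S.jets 1 p
      * X S.jets 1 q) = ∑ p, ∑ q, Gam S i p q * X S.jets 1 p * X S.jets 2 q
      + ∑ p, ∑ q, ∑ r, (∑ s, Gam S i p s * Gam S s q r)
        * X S.jets 1 p * X S.jets 1 q * X S.jets 1 r := by
    simp only [mul_add, Finset.sum_add_distrib]
    congr 1
    · simp only [GW, Finset.sum_mul, v1]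
      rw [Finset.sum_comm]
    · exact prod_cub (Gam S) (Gam S) (fun i => X S.jets 1 i) i
  rw [et, map_add, D_X, eD, eG]
  simp only [add_mul, Finset.sum_add_distrib]
  ring

/-- The member of index 3 of the hierarchy is the right-hand side of the system. -/
theorem rhs_eq (hT : S.ZeroTorsion) (h2 : S.C2) (h4 : S.C4) (h5 : S.C5) (j : S.jets)
    (i : Fin N) :
    (((nab S h2 h4 h5 (vel S)).f ((nab S h2 h4 h5 (vel S)).f (vel S))
      + (jts S h4 h5).tri (vel S) (vel S) (vel S)) i).1 j = S.rhs j.1 i := by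
  rw [p3_eq S hT h2 h4 h5 i]
  have c1 : (X S.jets 3 i + 3 * (∑ p, ∑ q, Gam S i p q * X S.jets 1 p * X S.jets 2 q)
      + ∑ p, ∑ q, ∑ r, (dGam S i q r p + (∑ s, Gam S i p s * Gam S s q r) + Sg S i p q r)
        * X S.jets 1 p * X S.jets 1 q * X S.jets 1 r : diffAlg S.jets).1 j =
      j.1 3 i + 3 * (∑ p, ∑ q, S.α (j.1 0) i p q * j.1 1 p * j.1 2 q)
      + ∑ p, ∑ q, ∑ r, (pdu p (fun u => S.α u i q r) (j.1 0)
        + (∑ s, S.α (j.1 0) i p s * S.α (j.1 0) s q r) + comp S.σ i p q r (j.1 0))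
        * j.1 1 p * j.1 1 q * j.1 1 r := by
    have e3 : (3 : diffAlg S.jets).1 j = 3 := rfl
    simp only [AddSubmonoidClass.coe_finsetSum, Finset.sum_apply, MulMemClass.coe_mul,
      Pi.mul_apply, AddMemClass.coe_add, Pi.add_apply, e3]
    rfl
  rw [c1]
  unfold GeometricSystem.rhs
  congr 1
  have hR : ∑ p, ∑ q, ∑ r, S.curvComp (j.1 0) i r p q * j.1 1 p * j.1 1 q * j.1 1 r =
      ∑ p, ∑ q, ∑ r, S.curvComp (j.1 0) i p q r * j.1 1 p * j.1 1 q * j.1 1 r := by
    have : ∀ p, ∑ q, ∑ r, S.curvComp (j.1 0) i r p q * j.1 1 p * j.1 1 q * j.1 1 r =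
        ∑ r, ∑ q, S.curvComp (j.1 0) i r p q * j.1 1 p * j.1 1 q * j.1 1 r :=
      fun p => Finset.sum_comm
    simp only [this]
    rw [Finset.sum_comm]
    refine Finset.sum_congr rfl fun r _ => Finset.sum_congr rfl fun p _ =>
      Finset.sum_congr rfl fun q _ => ?_
    ring
  have hs : ∑ p, ∑ q, ∑ r, (pdu p (fun u => S.α u i q r) (j.1 0)
        + (∑ s, S.α (j.1 0) i p s * S.α (j.1 0) s q r) + comp S.σ i p q r (j.1 0))
        * j.1 1 p * j.1 1 q * j.1 1 r =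
      ∑ p, ∑ q, ∑ r, (pdu p (fun u => S.α u i q r) (j.1 0)
        + (∑ s, S.α (j.1 0) i p s * S.α (j.1 0) s q r) + S.β (j.1 0) i p q r)
        * j.1 1 p * j.1 1 q * j.1 1 r
      - (1 / 3) * ∑ p, ∑ q, ∑ r, S.curvComp (j.1 0) i p q r * j.1 1 p * j.1 1 q * j.1 1 r
      + (1 / 3) * ∑ p, ∑ q, ∑ r, S.curvComp (j.1 0) i r p q * j.1 1 p * j.1 1 q * j.1 1 r := by
    simp only [Finset.mul_sum, ← Finset.sum_sub_distrib, ← Finset.sum_add_distrib]
    refine Finset.sum_congr rfl fun p _ => Finset.sum_congr rfl fun q _ =>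
      Finset.sum_congr rfl fun r _ => ?_
    rw [comp_sigma]
    ring
  rw [hs, hR, sub_add_cancel]
  refine Finset.sum_congr rfl fun p _ => Finset.sum_congr rfl fun q _ =>
      Finset.sum_congr rfl fun r _ => ?_
  have ht : ∑ s, S.α (j.1 0) i s p * S.α (j.1 0) s q r =
      ∑ s, S.α (j.1 0) i p s * S.α (j.1 0) s q r :=
    Finset.sum_congr rfl fun s _ => by rw [hT _ j.2 i s p]
  rw [ht]
  ring

/-- **The hierarchy.** -/
theorem hierarchy (hT : S.ZeroTorsion) (h2 : S.C2) (h3 : S.C3) (h4 : S.C4) (h5 : S.C5) :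
    ∃ K : ℕ → Jet 𝕜 N → Fin N → 𝕜,
      (∀ j ∈ S.jets, ∀ i, K 0 j i = j 1 i) ∧
      (∀ j ∈ S.jets, ∀ i, K 1 j i = S.rhs j i) ∧
      (∀ n, IsMonicOfOrder S.jets (2 * n + 1) (K n)) ∧
      ∀ m n, Commute S.jets (K m) (K n) := by
  obtain ⟨r⟩ := exists_kkt_res (nab S h2 h4 h5 (vel S)) (vel S)
  obtain ⟨p, hp⟩ : ∃ p : ℕ → Fin N → diffAlg S.jets, p = fun n => (r.c (2 * n + 1)).1 := ⟨_, rfl⟩
  obtain ⟨K, hK⟩ : ∃ K : ℕ → Jet 𝕜 N → Fin N → 𝕜, K = fun n j i => ext0 S.jets (p n i).1 j :=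
    ⟨_, rfl⟩
  have hKj : ∀ n (j : S.jets) i, K n j i = (p n i).1 j := by
    intro n j i
    rw [hK]; exact ext0_mem _ _
  refine ⟨K, ?_, ?_, ?_, ?_⟩
  · intro j hj i
    rw [hKj 0 ⟨j, hj⟩ i, hp]
    show ((r.c 1).1 i).1 ⟨j, hj⟩ = j 1 i
    rw [r.c1_p]; rfl
  · intro j hj i
    rw [hKj 1 ⟨j, hj⟩ i, hp]
    show ((r.c 3).1 i).1 ⟨j, hj⟩ = S.rhs j i
    rw [r.c3_p]
    exact rhs_eq S hT h2 h4 h5 ⟨j, hj⟩ i
  · intro n i
    have h1 := (filt S h2 h4 h5).lead r (2 * n) i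
    have h2' := nab_iter S h2 h4 h5 (2 * n) i
    have h3' : (p n i - X S.jets (2 * n + 1) i) ∈ Ord S.jets (2 * n) := by
      have : p n i - X S.jets (2 * n + 1) i =
          ((r.c (2 * n + 1)).1 - ((nab S h2 h4 h5 (vel S)).f)^[2 * n] (vel S)) i
          + (((nab S h2 h4 h5 (vel S)).f)^[2 * n] (vel S)
            - (fun i => X S.jets (2 * n + 1) i)) i := by
        rw [hp]
        simp only [Pi.sub_apply]
        ring
      rw [this]; exact add_mem h1 h2'
    obtain ⟨f, hf⟩ := h3'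
    refine ⟨f, fun j hj => ⟨(hf ⟨j, hj⟩).1, ?_⟩⟩
    show K n j i - j (2 * n + 1) i = f (trunc (2 * n) j)
    rw [hKj n ⟨j, hj⟩ i]
    exact (hf ⟨j, hj⟩).2
  · intro m n j hj i
    have hc : ∀ W, Res.Compat (nab S h2 h4 h5 (vel S)) (vel S) (nab S h2 h4 h5 W) W :=
      fun W => ⟨fun x => curvature S hT h2 h3 h4 h5 W x, torsion S hT h2 h4 h5 W⟩
    have h := r.commute (k := 2 * m + 1) (l := 2 * n + 1) ⟨m, rfl⟩ ⟨n, rfl⟩
      (nab S h2 h4 h5 (p m)) (nab S h2 h4 h5 (p n)) (by rw [hp]; exact hc _)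
      (by rw [hp]; exact hc _)
    have hi := congrFun h i
    have e1 : (r.c (2 * n + 1)).1 = p n := by rw [hp]
    have e2 : (r.c (2 * m + 1)).1 = p m := by rw [hp]
    rw [e1, e2, nab_f, nab_f] at hi
    have hs : ∑ k, GW S (p m) i k * p n k = ∑ k, GW S (p n) i k * p m k := by
      simp only [GW, Finset.sum_mul]
      rw [Finset.sum_comm]
      refine Finset.sum_congr rfl fun s _ => Finset.sum_congr rfl fun k _ => ?_
      rw [Gam_symm S hT i s k]; ring
    rw [hs] at hi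
    have hi' := add_right_cancel hi
    rw [evolDeriv_ev (isOpen_jets S) (K m) (p m) (hKj m) (fun j' => K n j' i) (p n i)
      (fun j => hKj n j i) ⟨j, hj⟩,
      evolDeriv_ev (isOpen_jets S) (K n) (p n) (hKj n) (fun j' => K m j' i) (p m i)
      (fun j => hKj m j i) ⟨j, hj⟩, hi']

end

end Pool.Agent.Lib.H29J
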