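import Pool.Agent.Lib.H29J.Defs
import Pool.Agent.Lib.H99JetCalc.Calc

/-!
# Evolutionary derivations of the algebra of differential functions
-/

set_option autoImplicit false

namespace Pool.Agent.Lib.H29J

open Pool.Agent.Lib.H99JetCalc

variable {𝕜 : Type} [RCLike 𝕜] {N : ℕ}

section ev

variable {Ω : Set (Jet 𝕜 N)} (hΩ : IsOpen Ω)

/-- The evolutionary derivation with characteristic `W`. -/
noncomputable def ev (W : Fin N → diffAlg Ω) : Derivation 𝕜 (diffAlg Ω) (diffAlg Ω) :=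
  along hΩ (fun n i => ((jetCalc hΩ).D)^[n] (W i))

theorem along_X (V : ℕ → Fin N → diffAlg Ω) (n : ℕ) (i : Fin N) :
    along hΩ V (X Ω n i) = V n i := by
  have hrep : Rep Ω n (fun y => y (Fin.last n) i) (X Ω n i).1 := by
    intro j
    refine ⟨?_, rfl⟩
    exact ContinuousLinearMap.analyticAt
      ((ContinuousLinearMap.proj (R := 𝕜) (φ := fun _ : Fin N => 𝕜) i).comp
        (ContinuousLinearMap.proj (R := 𝕜) (φ := fun _ : Fin (n + 1) => Fin N → 𝕜)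
          (Fin.last n)))
      (trunc n (j : Jet 𝕜 N))
  apply Subtype.ext
  funext j
  rw [along_apply hΩ _ hrep]
  have h1 : fderiv 𝕜 (fun y : Fin (n + 1) → Fin N → 𝕜 => y (Fin.last n) i)
      (trunc n (j : Jet 𝕜 N))
      = (ContinuousLinearMap.proj (R := 𝕜) (φ := fun _ : Fin N => 𝕜) i).comp
        (ContinuousLinearMap.proj (R := 𝕜) (φ := fun _ : Fin (n + 1) => Fin N → 𝕜)
          (Fin.last n)) :=
    ContinuousLinearMap.fderiv
      ((ContinuousLinearMap.proj (R := 𝕜) (φ := fun _ : Fin N => 𝕜) i).comp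
        (ContinuousLinearMap.proj (R := 𝕜) (φ := fun _ : Fin (n + 1) => Fin N → 𝕜)
          (Fin.last n)))
  rw [h1]
  rfl

theorem ev_X (W : Fin N → diffAlg Ω) (n : ℕ) (i : Fin N) :
    ev hΩ W (X Ω n i) = ((jetCalc hΩ).D)^[n] (W i) := along_X hΩ _ n i

/-- The total derivative is the evolutionary derivation with characteristic `u_1`. -/
theorem ev_v : ev hΩ (fun i => X Ω 1 i) = (jetCalc hΩ).D := by
  unfold ev
  have : (fun (n : ℕ) (i : Fin N) => ((jetCalc hΩ).D)^[n] (X Ω 1 i)) =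
      fun n i => X Ω (n + 1) i := by
    funext n i
    rw [D_iter_X, add_comm]
  rw [this]; rfl

/-- Evolutionary derivations commute with the total derivative. -/
theorem ev_D (W : Fin N → diffAlg Ω) (g : diffAlg Ω) :
    ev hΩ W ((jetCalc hΩ).D g) = (jetCalc hΩ).D (ev hΩ W g) := by
  obtain ⟨k, f, hf⟩ : ∃ k f, Rep Ω k f g.1 := g.2
  have hf' := rep_D hΩ hf
  have e1 : ev hΩ W g = ∑ n ∈ Finset.range (k + 1), ∑ i,
      (jetCalc hΩ).pd n i g * ((jetCalc hΩ).D)^[n] (W i) := along_eq_sum hΩ _ hf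
  have e2 : ev hΩ W ((jetCalc hΩ).D g) = ∑ n ∈ Finset.range (k + 1 + 1), ∑ i,
      (jetCalc hΩ).pd n i ((jetCalc hΩ).D g) * ((jetCalc hΩ).D)^[n] (W i) :=
    along_eq_sum hΩ _ hf'
  have hz : ∀ i, (jetCalc hΩ).pd (k + 1) i g = 0 := by
    intro i
    apply Subtype.ext
    funext j
    show (along hΩ (pdV Ω (k + 1) i) g).1 j = 0
    rw [along_apply hΩ _ hf]
    have : trunc k (fun m l => (pdV Ω (k + 1) i m l).1 j) = 0 := by
      funext m l
      show (eJet (k + 1) i : Jet 𝕜 N) m l = 0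
      unfold eJet
      have : (Pi.single (k + 1) (Pi.single i 1) : Jet 𝕜 N) m = 0 := by
        rw [Pi.single_apply, if_neg]; omega
      rw [this]; rfl
    rw [this, map_zero]
  rw [e1, e2, map_sum, Finset.sum_range_succ']
  simp only [(jetCalc hΩ).pd_D_zero, (jetCalc hΩ).pd_D_succ, map_sum, Derivation.leibniz,
    smul_eq_mul, add_mul, Finset.sum_add_distrib]
  rw [Finset.sum_range_succ _ k]
  simp only [hz, map_zero, zero_mul, Finset.sum_const_zero, add_zero]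
  rw [Finset.sum_range_succ' (fun x => ∑ x_1, (⇑(jetCalc hΩ).D)^[x] (W x_1) *
    (jetCalc hΩ).D (((jetCalc hΩ).pd x x_1) g)) k]
  have e3 : ∀ x, ∑ x_1, (⇑(jetCalc hΩ).D)^[x] (W x_1) * (jetCalc hΩ).D (((jetCalc hΩ).pd x x_1) g)
      = ∑ x_1, (jetCalc hΩ).D (((jetCalc hΩ).pd x x_1) g) * (⇑(jetCalc hΩ).D)^[x] (W x_1) :=
    fun x => Finset.sum_congr rfl fun _ _ => mul_comm _ _
  simp only [e3]
  simp only [Function.iterate_succ_apply']
  abel

/-- Order at most `r`. -/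
def Ord (Ω : Set (Jet 𝕜 N)) (r : ℕ) : Submodule 𝕜 (diffAlg Ω) where
  carrier := {g | ∃ f, Rep Ω r f g.1}
  add_mem' := by
    rintro F G ⟨f, hf⟩ ⟨g, hg⟩
    exact ⟨fun y => f y + g y, fun j => ⟨(hf j).1.add (hg j).1, by
      show F.1 j + G.1 j = _
      rw [(hf j).2, (hg j).2]⟩⟩
  zero_mem' := ⟨fun _ => 0, fun j => ⟨analyticAt_const, rfl⟩⟩
  smul_mem' := by
    rintro c F ⟨f, hf⟩
    exact ⟨fun y => c * f y, fun j => ⟨analyticAt_const.mul (hf j).1, by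
      show c * F.1 j = _
      rw [(hf j).2]⟩⟩

theorem Ord_mul {r : ℕ} {F G : diffAlg Ω} (hF : F ∈ Ord Ω r) (hG : G ∈ Ord Ω r) :
    F * G ∈ Ord Ω r := by
  obtain ⟨f, hf⟩ := hF
  obtain ⟨g, hg⟩ := hG
  exact ⟨fun y => f y * g y, fun j => ⟨(hf j).1.mul (hg j).1, by
      show F.1 j * G.1 j = _
      rw [(hf j).2, (hg j).2]⟩⟩

theorem Ord_mono : Monotone (Ord (𝕜 := 𝕜) (N := N) Ω) := by
  intro r s hrs F hF
  obtain ⟨f, hf⟩ := hF
  exact ⟨_, hf.mono hrs⟩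

theorem Ord_D {r : ℕ} {F : diffAlg Ω} (hF : F ∈ Ord Ω r) :
    (jetCalc hΩ).D F ∈ Ord Ω (r + 1) := by
  obtain ⟨f, hf⟩ := hF
  exact ⟨_, rep_D hΩ hf⟩

theorem Ord_X (n : ℕ) (i : Fin N) : X Ω n i ∈ Ord (𝕜 := 𝕜) Ω n :=
  ⟨fun y => y (Fin.last n) i, fun j => ⟨ContinuousLinearMap.analyticAt
      ((ContinuousLinearMap.proj (R := 𝕜) (φ := fun _ : Fin N => 𝕜) i).comp
        (ContinuousLinearMap.proj (R := 𝕜) (φ := fun _ : Fin (n + 1) => Fin N → 𝕜)
          (Fin.last n)))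
      (trunc n (j : Jet 𝕜 N)), rfl⟩⟩

/-- The derivative of `G` along the system `u_t = K`. -/
theorem evolDeriv_ev (K : Jet 𝕜 N → Fin N → 𝕜) (W : Fin N → diffAlg Ω)
    (hK : ∀ (j : Ω) (i : Fin N), K j i = (W i).1 j) (G : Jet 𝕜 N → 𝕜) (g : diffAlg Ω)
    (hG : ∀ j : Ω, G j = g.1 j) (j : Ω) :
    evolDeriv K G j = (ev hΩ W g).1 j := by
  have h1 : (fun (n : ℕ) (i : Fin N) => totalDeriv^[n] (fun j' => K j' i) (j : Jet 𝕜 N)) =
      fun n i => ((((jetCalc hΩ).D)^[n] (W i)) : diffAlg Ω).1 j := by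
    funext n i
    exact totalDeriv_iter_eq hΩ (W i) (fun j' => K j' i) (fun j => hK j i) n j
  unfold evolDeriv
  rw [h1]
  exact lineDeriv_eq_along hΩ (fun n i => (((jetCalc hΩ).D)^[n] (W i))) g G hG j

end ev

section base

variable (S : GeometricSystem 𝕜 N)

theorem isOpen_jets : IsOpen S.jets := S.isOpen_dom.preimage (continuous_apply 0)

/-- A function of `u` as a differential function. -/
noncomputable def toA (g : (Fin N → 𝕜) → 𝕜) (hg : AnalyticOnNhd 𝕜 g S.dom) : diffAlg S.jets :=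
  ⟨fun j => g (j.1 0), 0, fun y => g (y 0), fun j => ⟨by
    have h1 : AnalyticAt 𝕜 g ((ContinuousLinearMap.proj (R := 𝕜)
        (φ := fun _ : Fin (0 + 1) => Fin N → 𝕜) 0) (trunc 0 (j : Jet 𝕜 N))) := hg _ j.2
    exact AnalyticAt.comp (g := g) (f := fun y => (ContinuousLinearMap.proj (R := 𝕜)
        (φ := fun _ : Fin (0 + 1) => Fin N → 𝕜) 0) y) h1 (ContinuousLinearMap.analyticAt _ _), rfl⟩⟩

theorem toA_apply (g : (Fin N → 𝕜) → 𝕜) (hg : AnalyticOnNhd 𝕜 g S.dom) (j : S.jets) :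
    (toA S g hg).1 j = g (j.1 0) := rfl

theorem pdu_analytic {g : (Fin N → 𝕜) → 𝕜} (hg : AnalyticOnNhd 𝕜 g S.dom) (m : Fin N) :
    AnalyticOnNhd 𝕜 (GeometricSystem.pdu m g) S.dom := by
  intro u hu
  exact ((ContinuousLinearMap.apply 𝕜 𝕜 (Pi.single m (1 : 𝕜) : Fin N → 𝕜)).analyticAt _).comp
    (hg u hu).fderiv

theorem toA_Ord (g : (Fin N → 𝕜) → 𝕜) (hg : AnalyticOnNhd 𝕜 g S.dom) :
    toA S g hg ∈ Ord S.jets 0 := by
  obtain ⟨f, hf⟩ : ∃ f, Rep S.jets 0 f (toA S g hg).1 := by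
    refine ⟨fun y => g (y 0), fun j => ⟨?_, rfl⟩⟩
    have h1 : AnalyticAt 𝕜 g ((ContinuousLinearMap.proj (R := 𝕜)
        (φ := fun _ : Fin (0 + 1) => Fin N → 𝕜) 0) (trunc 0 (j : Jet 𝕜 N))) := hg _ j.2
    exact AnalyticAt.comp (g := g) (f := fun y => (ContinuousLinearMap.proj (R := 𝕜)
        (φ := fun _ : Fin (0 + 1) => Fin N → 𝕜) 0) y) h1 (ContinuousLinearMap.analyticAt _ _)
  exact ⟨f, hf⟩

/-- The chain rule. -/
theorem ev_toA (W : Fin N → diffAlg S.jets) (g : (Fin N → 𝕜) → 𝕜)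
    (hg : AnalyticOnNhd 𝕜 g S.dom) :
    ev (isOpen_jets S) W (toA S g hg) = ∑ m, toA S _ (pdu_analytic S hg m) * W m := by
  obtain ⟨pr, hpr⟩ : ∃ pr : (Fin (0 + 1) → Fin N → 𝕜) →L[𝕜] (Fin N → 𝕜),
    pr = ContinuousLinearMap.proj (R := 𝕜) (φ := fun _ : Fin (0 + 1) => Fin N → 𝕜) 0 := ⟨_, rfl⟩
  have hrep : Rep S.jets 0 (fun y => g (pr y)) (toA S g hg).1 := by
    intro j
    have h1 : AnalyticAt 𝕜 g (pr (trunc 0 (j : Jet 𝕜 N))) := by rw [hpr]; exact hg _ j.2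
    refine ⟨AnalyticAt.comp (g := g) (f := fun y => pr y) h1 (ContinuousLinearMap.analyticAt _ _),
      ?_⟩
    rw [hpr]; rfl
  have hd : ∀ j : S.jets, DifferentiableAt 𝕜 g (pr (trunc 0 (j : Jet 𝕜 N))) := by
    intro j; rw [hpr]; exact (hg _ j.2).differentiableAt
  apply Subtype.ext
  funext j
  have e1 : (ev (isOpen_jets S) W (toA S g hg)).1 j =
      fderiv 𝕜 (fun y => g (pr y)) (trunc 0 (j : Jet 𝕜 N))
        (trunc 0 (fun n i => (((jetCalc (isOpen_jets S)).D)^[n] (W i)).1 j)) :=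
    along_apply (isOpen_jets S) _ hrep j
  have e2 : HasFDerivAt (fun y => g (pr y)) ((fderiv 𝕜 g (pr (trunc 0 (j : Jet 𝕜 N)))).comp pr)
      (trunc 0 (j : Jet 𝕜 N)) :=
    HasFDerivAt.comp (g := g) (f := fun y => pr y) (trunc 0 (j : Jet 𝕜 N)) (hd j).hasFDerivAt
      pr.hasFDerivAt
  rw [e1, e2.fderiv]
  have e3 : pr (trunc 0 (fun n i => (((jetCalc (isOpen_jets S)).D)^[n] (W i)).1 j)) =
      fun i => (W i).1 j := by rw [hpr]; rfl
  have e4 : pr (trunc 0 (j : Jet 𝕜 N)) = j.1 0 := by rw [hpr]; rfl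
  rw [ContinuousLinearMap.comp_apply, e3, e4]
  have e5 : (fun i => (W i).1 j) = ∑ m, (W m).1 j • (Pi.single m (1 : 𝕜) : Fin N → 𝕜) := by
    funext i
    simp only [Finset.sum_apply, Pi.smul_apply, smul_eq_mul, Pi.single_apply]
    simp
  rw [e5, map_sum]
  simp only [AddSubmonoidClass.coe_finsetSum, Finset.sum_apply, MulMemClass.coe_mul, Pi.mul_apply]
  refine Finset.sum_congr rfl fun m _ => ?_
  rw [map_smul, smul_eq_mul, mul_comm]
  rfl

end base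

end Pool.Agent.Lib.H29J
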