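import Mathlib

/-!
# Jordan triple systems and the Kantor-Koecher-Tits algebra: definitions
-/

set_option autoImplicit false

namespace Pool.Agent.Lib.H29J

/-- A Jordan triple system on the module `V` over the commutative ring `A`; `tri x y z` is
`σ(x,y,z)`, `symm` is (C4) and `main` is (C5). -/
structure JTS (A V : Type) [CommRing A] [AddCommGroup V] [Module A V] where
  tri : V →ₗ[A] V →ₗ[A] V →ₗ[A] V
  symm : ∀ x y z, tri x y z = tri z y x
  main : ∀ x y z v w,
    tri x (tri y z v) w - tri w v (tri x y z) + tri z y (tri x v w) - tri x v (tri z y w) = 0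

section

variable {A V : Type} [CommRing A] [AddCommGroup V] [Module A V]

/-- The structure algebra: pairs `(T₁, T₂)` with
`T₁ σ(x,y,z) = σ(T₁x,y,z) + σ(x,T₂y,z) + σ(x,y,T₁z)` and the same with `1, 2` exchanged. -/
def Str (J : JTS A V) : Submodule A (Module.End A V × Module.End A V) where
  carrier := {T | (∀ x y z, T.1 (J.tri x y z) =
      J.tri (T.1 x) y z + J.tri x (T.2 y) z + J.tri x y (T.1 z)) ∧
    (∀ x y z, T.2 (J.tri x y z) =
      J.tri (T.2 x) y z + J.tri x (T.1 y) z + J.tri x y (T.2 z))}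
  add_mem' := by
    rintro S T ⟨h1, h2⟩ ⟨h3, h4⟩
    refine ⟨fun x y z => ?_, fun x y z => ?_⟩
    · simp only [Prod.fst_add, Prod.snd_add, LinearMap.add_apply, map_add, h1, h3]; abel
    · simp only [Prod.fst_add, Prod.snd_add, LinearMap.add_apply, map_add, h2, h4]; abel
  zero_mem' := by
    refine ⟨fun x y z => ?_, fun x y z => ?_⟩ <;> simp
  smul_mem' := by
    rintro c T ⟨h1, h2⟩
    refine ⟨fun x y z => ?_, fun x y z => ?_⟩
    · simp only [Prod.smul_fst, Prod.smul_snd, LinearMap.smul_apply, map_smul, h1, smul_add]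
    · simp only [Prod.smul_fst, Prod.smul_snd, LinearMap.smul_apply, map_smul, h2, smul_add]

/-- The main identity in operator form. -/
theorem JTS.op (J : JTS A V) (x y z v w : V) :
    J.tri z y (J.tri x v w) = J.tri (J.tri z y x) v w - J.tri x (J.tri y z v) w
      + J.tri x v (J.tri z y w) := by
  have h := J.main x y z v w
  have h1 : J.tri w v (J.tri x y z) = J.tri (J.tri z y x) v w := by
    rw [J.symm x y z, J.symm w v]
  rw [h1] at h
  have h2 : J.tri z y (J.tri x v w) = J.tri (J.tri z y x) v w - J.tri x (J.tri y z v) w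
      + J.tri x v (J.tri z y w) + (J.tri x (J.tri y z v) w - J.tri (J.tri z y x) v w
      + J.tri z y (J.tri x v w) - J.tri x v (J.tri z y w)) := by abel
  rw [h2, h, add_zero]

/-- The inner element `(-D(x,y), D(y,x))`, `D(x,y)z = σ(x,y,z)`. -/
def dd (J : JTS A V) (x y : V) : Str J :=
  ⟨(-(J.tri x y), J.tri y x), by
    refine ⟨fun a b c => ?_, fun a b c => ?_⟩
    · simp only [LinearMap.neg_apply, map_neg]
      rw [J.op a y x b c]; abel
    · simp only [LinearMap.neg_apply, map_neg]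
      rw [J.op a x y b c]; abel⟩

/-- Commutator in the structure algebra. -/
def strBr (J : JTS A V) (S T : Str J) : Str J :=
  ⟨(S.1.1 * T.1.1 - T.1.1 * S.1.1, S.1.2 * T.1.2 - T.1.2 * S.1.2), by
    obtain ⟨⟨S1, S2⟩, h1, h2⟩ := S
    obtain ⟨⟨T1, T2⟩, h3, h4⟩ := T
    simp only at h1 h2 h3 h4
    refine ⟨fun a b c => ?_, fun a b c => ?_⟩
    · simp only [LinearMap.sub_apply, Module.End.mul_apply, map_sub, map_add, h1, h2, h3, h4]; abel
    · simp only [LinearMap.sub_apply, Module.End.mul_apply, map_sub, map_add, h1, h2, h3, h4]; abel⟩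

/-- The inner structure algebra: the `A`-span of the `dd x y`. -/
def Inn (J : JTS A V) : Submodule A (Str J) :=
  Submodule.span A (Set.range fun p : V × V => dd J p.1 p.2)

/-- The Kantor-Koecher-Tits algebra `V⁺ ⊕ Str ⊕ V⁻`. -/
def KKT (J : JTS A V) : Type := V × Str J × V

instance (J : JTS A V) : AddCommGroup (KKT J) := inferInstanceAs (AddCommGroup (V × Str J × V))

instance (J : JTS A V) : Bracket (KKT J) (KKT J) where
  bracket X Y := (X.2.1.1.1 Y.1 - Y.2.1.1.1 X.1,
    strBr J X.2.1 Y.2.1 + dd J X.1 Y.2.2 - dd J Y.1 X.2.2,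
    X.2.1.1.2 Y.2.2 - Y.2.1.1.2 X.2.2)

/-- The grading element `A = (0, (id, -id), 0)`. -/
def KKT.gr (J : JTS A V) : KKT J :=
  (0, ⟨(1, -1), by
    refine ⟨fun a b c => ?_, fun a b c => ?_⟩ <;> simp⟩, 0)

/-- `x⁺`. -/
def KKT.pl (J : JTS A V) (x : V) : KKT J := (x, 0, 0)

/-- `x⁻`. -/
def KKT.mi (J : JTS A V) (x : V) : KKT J := (0, 0, x)

/-- an element of the structure algebra. -/
def KKT.st (J : JTS A V) (T : Str J) : KKT J := (0, T, 0)

/-- `Q = v⁺ + v⁻`. -/
def KKT.Q (J : JTS A V) (v : V) : KKT J := (v, 0, v)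

/-- the involution exchanging `V⁺` and `V⁻`. -/
def KKT.swap (J : JTS A V) (X : KKT J) : KKT J :=
  (X.2.2, ⟨(X.2.1.1.2, X.2.1.1.1), ⟨X.2.1.2.2, X.2.1.2.1⟩⟩, X.1)

end

section

variable {𝕜 A V : Type} [Field 𝕜] [CommRing A] [AddCommGroup V] [Module A V]
  [Algebra 𝕜 A] [Module 𝕜 V] [IsScalarTower 𝕜 A V]

instance (J : JTS A V) : Module 𝕜 (Str J) := inferInstance

instance (J : JTS A V) : Module 𝕜 (KKT J) := inferInstanceAs (Module 𝕜 (V × Str J × V))

/-- `∇`: a `𝕜`-linear operator on `V` over a derivation `D` of `A` which is a derivation of the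
triple product. -/
structure Nab (𝕜 : Type) {A V : Type} [Field 𝕜] [CommRing A] [AddCommGroup V] [Module A V]
    [Algebra 𝕜 A] [Module 𝕜 V] [IsScalarTower 𝕜 A V] (J : JTS A V) where
  D : Derivation 𝕜 A A
  f : V →ₗ[𝕜] V
  leib : ∀ (c : A) (x : V), f (c • x) = D c • x + c • f x
  tri : ∀ x y z, f (J.tri x y z) = J.tri (f x) y z + J.tri x (f y) z + J.tri x y (f z)

/-- `[∇, T]` for an `A`-linear operator `T`. -/
def Nab.cm {J : JTS A V} (n : Nab 𝕜 J) (T : Module.End A V) : Module.End A V where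
  toFun x := n.f (T x) - T (n.f x)
  map_add' x y := by simp only [map_add]; abel
  map_smul' c x := by
    simp only [map_smul, n.leib, map_add, RingHom.id_apply, smul_sub]; abel

theorem Nab.cm_str {J : JTS A V} (n : Nab 𝕜 J) (T : Str J) :
    ((n.cm T.1.1, n.cm T.1.2) : Module.End A V × Module.End A V) ∈ Str J := by
  obtain ⟨⟨T1, T2⟩, h1, h2⟩ := T
  simp only at h1 h2
  refine ⟨fun a b c => ?_, fun a b c => ?_⟩
  · simp only [Nab.cm, LinearMap.coe_mk, AddHom.coe_mk, h1, n.tri, map_add, map_sub,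
      LinearMap.sub_apply]; abel
  · simp only [Nab.cm, LinearMap.coe_mk, AddHom.coe_mk, h2, n.tri, map_add, map_sub,
      LinearMap.sub_apply]; abel

end

end Pool.Agent.Lib.H29J
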