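import Pool.Agent.Lib.H29J.G
import Pool.Agent.Lib.H29J.K

/-!
# The triple system of a geometric system
-/

set_option autoImplicit false

namespace Pool.Agent.Lib.H29J

open Pool.Agent.Lib.H99JetCalc GeometricSystem

variable {𝕜 : Type} [RCLike 𝕜] {N : ℕ}

/-- The trilinear operation with components `T i j k l`. -/
def triL {A : Type} [CommRing A] (T : Fin N → Fin N → Fin N → Fin N → A) :
    (Fin N → A) →ₗ[A] (Fin N → A) →ₗ[A] (Fin N → A) →ₗ[A] (Fin N → A) :=
  LinearMap.mk₂ A (fun x y =>
    { toFun := fun z i => ∑ j, ∑ k, ∑ l, T i j k l * x j * y k * z l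
      map_add' := fun z z' => by
        funext i
        simp only [Pi.add_apply, mul_add, Finset.sum_add_distrib]
      map_smul' := fun c z => by
        funext i
        simp only [Pi.smul_apply, smul_eq_mul, RingHom.id_apply, Finset.mul_sum]
        refine Finset.sum_congr rfl fun j _ => Finset.sum_congr rfl fun k _ =>
          Finset.sum_congr rfl fun l _ => ?_
        ring })
    (fun x x' y => by
      refine LinearMap.ext fun z => funext fun i => ?_
      simp only [LinearMap.coe_mk, AddHom.coe_mk, Pi.add_apply, mul_add, add_mul,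
        Finset.sum_add_distrib, LinearMap.add_apply])
    (fun c x y => by
      refine LinearMap.ext fun z => funext fun i => ?_
      simp only [LinearMap.coe_mk, AddHom.coe_mk, Pi.smul_apply, smul_eq_mul, Finset.mul_sum,
        LinearMap.smul_apply]
      refine Finset.sum_congr rfl fun j _ => Finset.sum_congr rfl fun k _ =>
          Finset.sum_congr rfl fun l _ => ?_
      ring)
    (fun x y y' => by
      refine LinearMap.ext fun z => funext fun i => ?_
      simp only [LinearMap.coe_mk, AddHom.coe_mk, Pi.add_apply, mul_add, add_mul,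
        Finset.sum_add_distrib, LinearMap.add_apply])
    (fun c x y => by
      refine LinearMap.ext fun z => funext fun i => ?_
      simp only [LinearMap.coe_mk, AddHom.coe_mk, Pi.smul_apply, smul_eq_mul, Finset.mul_sum,
        LinearMap.smul_apply]
      refine Finset.sum_congr rfl fun j _ => Finset.sum_congr rfl fun k _ =>
          Finset.sum_congr rfl fun l _ => ?_
      ring)

theorem triL_apply {A : Type} [CommRing A] (T : Fin N → Fin N → Fin N → Fin N → A)
    (x y z : Fin N → A) (i : Fin N) :
    triL T x y z i = ∑ j, ∑ k, ∑ l, T i j k l * x j * y k * z l := rfl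

section

variable (S : GeometricSystem 𝕜 N)

/-- The Christoffel symbols as differential functions. -/
noncomputable def Gam (i j k : Fin N) : diffAlg S.jets :=
  toA S (fun u => S.α u i j k) (S.analytic_α i j k)

theorem curv_analytic (i j k l : Fin N) :
    AnalyticOnNhd 𝕜 (fun u => S.curvComp u i j k l) S.dom := by
  unfold GeometricSystem.curvComp
  have h1 := pdu_analytic S (S.analytic_α i j l) k
  have h2 := pdu_analytic S (S.analytic_α i j k) l
  intro u hu
  refine (((h1 u hu).sub (h2 u hu)).add ?_).sub ?_
  · exact Finset.analyticAt_fun_sum _ fun s _ =>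
      (S.analytic_α i s k u hu).mul (S.analytic_α s j l u hu)
  · exact Finset.analyticAt_fun_sum _ fun s _ =>
      (S.analytic_α i s l u hu).mul (S.analytic_α s j k u hu)

theorem R_single (u : Fin N → 𝕜) (i j k l : Fin N) :
    S.R u (Pi.single j 1) (Pi.single k 1) (Pi.single l 1) i = S.curvComp u i j k l := by
  unfold GeometricSystem.R
  rw [Finset.sum_eq_single j, Finset.sum_eq_single k, Finset.sum_eq_single l]
  · simp
  · intro b _ hb; simp [hb]
  · simp
  · intro b _ hb; simp [hb]
  · simp
  · intro b _ hb; simp [hb]
  · simp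

theorem beta_single (u : Fin N → 𝕜) (i j k l : Fin N) :
    S.betaVec u (Pi.single j 1) (Pi.single k 1) (Pi.single l 1) i = S.β u i j k l := by
  unfold GeometricSystem.betaVec
  rw [Finset.sum_eq_single j, Finset.sum_eq_single k, Finset.sum_eq_single l]
  · simp
  · intro b _ hb; simp [hb]
  · simp
  · intro b _ hb; simp [hb]
  · simp
  · intro b _ hb; simp [hb]
  · simp

theorem comp_sigma (u : Fin N → 𝕜) (i j k l : Fin N) :
    comp S.σ i j k l u = S.β u i j k l - (1 / 3) * S.curvComp u i j k l
      + (1 / 3) * S.curvComp u i l j k := by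
  unfold GeometricSystem.comp GeometricSystem.σ
  simp only [Pi.add_apply, Pi.sub_apply, Pi.smul_apply, smul_eq_mul, R_single, beta_single]

theorem sig_analytic (i j k l : Fin N) : AnalyticOnNhd 𝕜 (comp S.σ i j k l) S.dom := by
  have : comp S.σ i j k l = fun u => S.β u i j k l - (1 / 3) * S.curvComp u i j k l
      + (1 / 3) * S.curvComp u i l j k := funext fun u => comp_sigma S u i j k l
  rw [this]
  intro u hu
  exact ((S.analytic_β i j k l u hu).sub (analyticAt_const.mul (curv_analytic S i j k l u hu))).add
    (analyticAt_const.mul (curv_analytic S i l j k u hu))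

/-- The components of `σ` as differential functions. -/
noncomputable def Sg (i j k l : Fin N) : diffAlg S.jets :=
  toA S (comp S.σ i j k l) (sig_analytic S i j k l)

/-- `σ` is given by its components. -/
theorem sigma_comp (u X Y Z : Fin N → 𝕜) (i : Fin N) :
    S.σ u X Y Z i = ∑ j, ∑ k, ∑ l, comp S.σ i j k l u * X j * Y k * Z l := by
  simp only [comp_sigma]
  have e1 : S.σ u X Y Z i = ∑ j, ∑ k, ∑ l, S.β u i j k l * X j * Y k * Z l
      - (1 / 3) * ∑ j, ∑ k, ∑ l, S.curvComp u i j k l * X j * Y k * Z l
      + (1 / 3) * ∑ l, ∑ j, ∑ k, S.curvComp u i l j k * Z l * X j * Y k := rfl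
  have e2 : ∑ l, ∑ j, ∑ k, S.curvComp u i l j k * Z l * X j * Y k =
      ∑ j, ∑ k, ∑ l, S.curvComp u i l j k * X j * Y k * Z l := by
    rw [Finset.sum_comm]
    refine Finset.sum_congr rfl fun j _ => ?_
    rw [Finset.sum_comm]
    refine Finset.sum_congr rfl fun k _ => Finset.sum_congr rfl fun l _ => ?_
    ring
  rw [e1, e2]
  simp only [Finset.mul_sum, ← Finset.sum_sub_distrib, ← Finset.sum_add_distrib]
  refine Finset.sum_congr rfl fun j _ => Finset.sum_congr rfl fun k _ =>
    Finset.sum_congr rfl fun l _ => ?_
  ring

/-- value of a vector of differential functions at a jet -/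
def val (j : S.jets) (x : Fin N → diffAlg S.jets) : Fin N → 𝕜 := fun i => (x i).1 j

theorem val_ext {x y : Fin N → diffAlg S.jets} (h : ∀ j, val S j x = val S j y) : x = y := by
  funext i
  apply Subtype.ext
  funext j
  exact congrFun (h j) i

theorem val_tri (j : S.jets) (x y z : Fin N → diffAlg S.jets) :
    val S j (triL (Sg S) x y z) = S.σ (j.1 0) (val S j x) (val S j y) (val S j z) := by
  funext i
  rw [sigma_comp]
  show (triL (Sg S) x y z i).1 j = _
  rw [triL_apply]
  simp only [AddSubmonoidClass.coe_finsetSum, Finset.sum_apply, MulMemClass.coe_mul, Pi.mul_apply]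
  rfl

/-- The Jordan triple system of a geometric system. -/
noncomputable def jts (h4 : S.C4) (h5 : S.C5) : JTS (diffAlg S.jets) (Fin N → diffAlg S.jets) where
  tri := triL (Sg S)
  symm x y z := by
    apply val_ext
    intro j
    rw [val_tri, val_tri, h4 _ j.2]
  main x y z v w := by
    apply val_ext
    intro j
    have e : ∀ a b c d : Fin N → diffAlg S.jets, val S j (a - b + c - d) =
        val S j a - val S j b + val S j c - val S j d := fun _ _ _ _ => rfl
    rw [e, val_tri, val_tri, val_tri, val_tri, val_tri, val_tri, val_tri, val_tri]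
    exact h5 _ j.2 _ _ _ _ _

end

end Pool.Agent.Lib.H29J
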