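import Pool.Agent.Lib.H29J.H

/-!
# Covariant derivatives along evolutionary vector fields
-/

set_option autoImplicit false

namespace Pool.Agent.Lib.H29J

open Pool.Agent.Lib.H99JetCalc GeometricSystem

variable {𝕜 : Type} [RCLike 𝕜] {N : ℕ}

section pure

variable {A : Type} [CommRing A]

theorem sum_rot1 (F : Fin N → Fin N → Fin N → Fin N → A) :
    ∑ j, ∑ k, ∑ l, ∑ b, F j k l b = ∑ b, ∑ k, ∑ l, ∑ j, F j k l b := by
  rw [Finset.sum_comm]
  have : ∀ k, ∑ j, ∑ l, ∑ b, F j k l b = ∑ b, ∑ l, ∑ j, F j k l b := by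
    intro k
    rw [Finset.sum_comm]
    have : ∀ l, ∑ j, ∑ b, F j k l b = ∑ b, ∑ j, F j k l b := fun l => Finset.sum_comm
    simp only [this]
    rw [Finset.sum_comm]
  simp only [this]
  rw [Finset.sum_comm]

theorem sum_rot2 (F : Fin N → Fin N → Fin N → Fin N → A) :
    ∑ j, ∑ k, ∑ l, ∑ b, F j k l b = ∑ j, ∑ b, ∑ l, ∑ k, F j k l b := by
  refine Finset.sum_congr rfl fun j _ => ?_
  rw [Finset.sum_comm]
  have : ∀ l, ∑ k, ∑ b, F j k l b = ∑ b, ∑ k, F j k l b := fun l => Finset.sum_comm
  simp only [this]
  rw [Finset.sum_comm]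

theorem sum_rot3 (F : Fin N → Fin N → Fin N → Fin N → A) :
    ∑ j, ∑ k, ∑ l, ∑ b, F j k l b = ∑ j, ∑ k, ∑ b, ∑ l, F j k l b := by
  refine Finset.sum_congr rfl fun j _ => Finset.sum_congr rfl fun k _ => Finset.sum_comm

theorem tri_der (T T' : Fin N → Fin N → Fin N → Fin N → A) (M : Fin N → Fin N → A)
    (h : ∀ i j k l, T' i j k l + ∑ s, M i s * T s j k l =
      ∑ s, (M s j * T i s k l + M s k * T i j s l + M s l * T i j k s))
    (x y z : Fin N → A) (i : Fin N) :
    triL T' x y z i + ∑ s, M i s * triL T x y z s =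
      triL T (fun a => ∑ b, M a b * x b) y z i + triL T x (fun a => ∑ b, M a b * y b) z i
        + triL T x y (fun a => ∑ b, M a b * z b) i := by
  have e1 : triL T (fun a => ∑ b, M a b * x b) y z i =
      ∑ j, ∑ k, ∑ l, (∑ s, M s j * T i s k l) * x j * y k * z l := by
    rw [triL_apply]
    simp only [Finset.mul_sum, Finset.sum_mul]
    rw [sum_rot1]
    refine Finset.sum_congr rfl fun j _ => Finset.sum_congr rfl fun k _ =>
      Finset.sum_congr rfl fun l _ => Finset.sum_congr rfl fun s _ => ?_
    ring
  have e2 : triL T x (fun a => ∑ b, M a b * y b) z i =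
      ∑ j, ∑ k, ∑ l, (∑ s, M s k * T i j s l) * x j * y k * z l := by
    rw [triL_apply]
    simp only [Finset.mul_sum, Finset.sum_mul]
    rw [sum_rot2]
    refine Finset.sum_congr rfl fun j _ => Finset.sum_congr rfl fun k _ =>
      Finset.sum_congr rfl fun l _ => Finset.sum_congr rfl fun s _ => ?_
    ring
  have e3 : triL T x y (fun a => ∑ b, M a b * z b) i =
      ∑ j, ∑ k, ∑ l, (∑ s, M s l * T i j k s) * x j * y k * z l := by
    rw [triL_apply]
    simp only [Finset.mul_sum, Finset.sum_mul]
    rw [sum_rot3]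
    refine Finset.sum_congr rfl fun j _ => Finset.sum_congr rfl fun k _ =>
      Finset.sum_congr rfl fun l _ => Finset.sum_congr rfl fun s _ => ?_
    ring
  have e4 : ∑ s, M i s * triL T x y z s =
      ∑ j, ∑ k, ∑ l, (∑ s, M i s * T s j k l) * x j * y k * z l := by
    simp only [triL_apply, Finset.mul_sum, Finset.sum_mul]
    rw [Finset.sum_comm]
    refine Finset.sum_congr rfl fun j _ => ?_
    rw [Finset.sum_comm]
    refine Finset.sum_congr rfl fun k _ => ?_
    rw [Finset.sum_comm]
    refine Finset.sum_congr rfl fun l _ => Finset.sum_congr rfl fun s _ => ?_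
    ring
  rw [e1, e2, e3, e4, triL_apply]
  simp only [← Finset.sum_add_distrib, ← add_mul]
  refine Finset.sum_congr rfl fun j _ => Finset.sum_congr rfl fun k _ =>
      Finset.sum_congr rfl fun l _ => ?_
  rw [h]

end pure

section

variable (S : GeometricSystem 𝕜 N)

/-- (C2) in the algebra of differential functions. -/
theorem c2A (h2 : S.C2) (i j k l m : Fin N) :
    toA S _ (pdu_analytic S (sig_analytic S i j k l) m) +
      ∑ s, (Gam S i m s * Sg S s j k l - Gam S s m j * Sg S i s k l - Gam S s m k * Sg S i j s l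
        - Gam S s m l * Sg S i j k s) = 0 := by
  apply Subtype.ext
  funext u
  have h := h2 (u.1 0) u.2 m i j k l
  simp only [GeometricSystem.covDeriv] at h
  show (toA S _ (pdu_analytic S (sig_analytic S i j k l) m)).1 u +
    (∑ s, (Gam S i m s * Sg S s j k l - Gam S s m j * Sg S i s k l - Gam S s m k * Sg S i j s l
        - Gam S s m l * Sg S i j k s) : diffAlg S.jets).1 u = 0
  simp only [AddSubmonoidClass.coe_finsetSum, Finset.sum_apply, MulMemClass.coe_mul, Pi.mul_apply,
    AddSubgroupClass.coe_sub, Pi.sub_apply]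
  exact h

/-- The matrix of `Γ(W, ·)`. -/
noncomputable def GW (W : Fin N → diffAlg S.jets) (i k : Fin N) : diffAlg S.jets :=
  ∑ s, Gam S i s k * W s

theorem ev_Sg (h2 : S.C2) (W : Fin N → diffAlg S.jets) (i j k l : Fin N) :
    ev (isOpen_jets S) W (Sg S i j k l) + ∑ s, GW S W i s * Sg S s j k l =
      ∑ s, (GW S W s j * Sg S i s k l + GW S W s k * Sg S i j s l + GW S W s l * Sg S i j k s) := by
  have e : ev (isOpen_jets S) W (Sg S i j k l) =
      ∑ m, toA S _ (pdu_analytic S (sig_analytic S i j k l) m) * W m := ev_toA S W _ _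
  have e3 : ∑ m, toA S _ (pdu_analytic S (sig_analytic S i j k l) m) * W m =
      ∑ s, ∑ m, -((Gam S i m s * Sg S s j k l - Gam S s m j * Sg S i s k l
        - Gam S s m k * Sg S i j s l - Gam S s m l * Sg S i j k s) * W m) := by
    rw [Finset.sum_comm]
    refine Finset.sum_congr rfl fun m _ => ?_
    rw [Finset.sum_neg_distrib, ← Finset.sum_mul]
    linear_combination (W m) * c2A S h2 i j k l m
  rw [e, e3, ← Finset.sum_add_distrib]
  refine Finset.sum_congr rfl fun s _ => ?_
  simp only [GW, Finset.sum_mul, ← Finset.sum_add_distrib]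
  refine Finset.sum_congr rfl fun m _ => ?_
  ring

/-- The covariant derivative along the evolutionary vector field with characteristic `W`. -/
noncomputable def nab (h2 : S.C2) (h4 : S.C4) (h5 : S.C5) (W : Fin N → diffAlg S.jets) :
    Nab 𝕜 (jts S h4 h5) where
  D := ev (isOpen_jets S) W
  f :=
    { toFun := fun x i => ev (isOpen_jets S) W (x i) + ∑ k, GW S W i k * x k
      map_add' := fun x y => by
        funext i
        simp only [Pi.add_apply, map_add, mul_add, Finset.sum_add_distrib]
        abel
      map_smul' := fun c x => by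
        funext i
        simp only [Pi.smul_apply, RingHom.id_apply, mul_smul_comm, smul_add,
          Finset.smul_sum]
        rw [Derivation.map_smul] }
  leib c x := by
    funext i
    show ev (isOpen_jets S) W (c * x i) + ∑ k, GW S W i k * (c * x k) =
      ev (isOpen_jets S) W c * x i + c * (ev (isOpen_jets S) W (x i) + ∑ k, GW S W i k * x k)
    rw [Derivation.leibniz, smul_eq_mul, smul_eq_mul, mul_add, Finset.mul_sum]
    have : ∀ k, GW S W i k * (c * x k) = c * (GW S W i k * x k) := fun k => by ring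
    simp only [this]
    ring
  tri x y z := by
    funext i
    show ev (isOpen_jets S) W (triL (Sg S) x y z i) + ∑ k, GW S W i k * triL (Sg S) x y z k =
      triL (Sg S) (fun a => ev (isOpen_jets S) W (x a) + ∑ b, GW S W a b * x b) y z i
      + triL (Sg S) x (fun a => ev (isOpen_jets S) W (y a) + ∑ b, GW S W a b * y b) z i
      + triL (Sg S) x y (fun a => ev (isOpen_jets S) W (z a) + ∑ b, GW S W a b * z b) i
    have h := tri_der (Sg S) (fun i j k l => ev (isOpen_jets S) W (Sg S i j k l)) (GW S W)
      (ev_Sg S h2 W) x y z i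
    have e1 : (fun a => ev (isOpen_jets S) W (x a) + ∑ b, GW S W a b * x b) =
      (fun a => ev (isOpen_jets S) W (x a)) + (fun a => ∑ b, GW S W a b * x b) := rfl
    have e2 : (fun a => ev (isOpen_jets S) W (y a) + ∑ b, GW S W a b * y b) =
      (fun a => ev (isOpen_jets S) W (y a)) + (fun a => ∑ b, GW S W a b * y b) := rfl
    have e3 : (fun a => ev (isOpen_jets S) W (z a) + ∑ b, GW S W a b * z b) =
      (fun a => ev (isOpen_jets S) W (z a)) + (fun a => ∑ b, GW S W a b * z b) := rfl
    rw [e1, e2, e3]
    simp only [map_add, LinearMap.add_apply, Pi.add_apply]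
    have e4 : ev (isOpen_jets S) W (triL (Sg S) x y z i) =
        triL (fun i j k l => ev (isOpen_jets S) W (Sg S i j k l)) x y z i
        + triL (Sg S) (fun a => ev (isOpen_jets S) W (x a)) y z i
        + triL (Sg S) x (fun a => ev (isOpen_jets S) W (y a)) z i
        + triL (Sg S) x y (fun a => ev (isOpen_jets S) W (z a)) i := by
      simp only [triL_apply, map_sum, Derivation.leibniz, smul_eq_mul,
        ← Finset.sum_add_distrib]
      refine Finset.sum_congr rfl fun j _ => Finset.sum_congr rfl fun k _ =>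
        Finset.sum_congr rfl fun l _ => ?_
      ring
    rw [e4]
    linear_combination h

end

end Pool.Agent.Lib.H29J
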