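import Pool.Agent.Lib.H29J.I
import Pool.Agent.Lib.H29J.D4

/-!
# Curvature, torsion and orders
-/

set_option autoImplicit false

namespace Pool.Agent.Lib.H29J

open Pool.Agent.Lib.H99JetCalc GeometricSystem

variable {𝕜 : Type} [RCLike 𝕜] {N : ℕ}

theorem prod_mat {A : Type} [CommRing A] (a : Fin N → Fin N → Fin N → A) (W v : Fin N → A)
    (i l : Fin N) : ∑ k, (∑ s, a i s k * W s) * (∑ s, a k s l * v s) =
      ∑ m, ∑ s, (∑ k, a i m k * a k s l) * W m * v s := by
  simp only [Finset.sum_mul_sum]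
  rw [Finset.sum_comm]
  refine Finset.sum_congr rfl fun m _ => ?_
  rw [Finset.sum_comm]
  refine Finset.sum_congr rfl fun s _ => ?_
  rw [Finset.sum_mul, Finset.sum_mul]
  refine Finset.sum_congr rfl fun k _ => ?_
  ring

section

variable (S : GeometricSystem 𝕜 N)

theorem nab_f (h2 : S.C2) (h4 : S.C4) (h5 : S.C5) (W x : Fin N → diffAlg S.jets) (i : Fin N) :
    (nab S h2 h4 h5 W).f x i = ev (isOpen_jets S) W (x i) + ∑ k, GW S W i k * x k := rfl

theorem Gam_symm (hT : S.ZeroTorsion) (i j k : Fin N) : Gam S i j k = Gam S i k j := by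
  apply Subtype.ext
  funext u
  exact hT (u.1 0) u.2 i j k

/-- The velocity. -/
noncomputable def vel : Fin N → diffAlg S.jets := fun i => X S.jets 1 i

theorem ev_vel (g : diffAlg S.jets) :
    ev (isOpen_jets S) (vel S) g = (jetCalc (isOpen_jets S)).D g := by
  show ev (isOpen_jets S) (fun i => X S.jets 1 i) g = _
  rw [ev_v]

theorem ev_W_vel (W : Fin N → diffAlg S.jets) (i : Fin N) :
    ev (isOpen_jets S) W (vel S i) = (jetCalc (isOpen_jets S)).D (W i) := by
  show ev (isOpen_jets S) W (X S.jets 1 i) = _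
  rw [ev_X]; rfl

theorem torsion (hT : S.ZeroTorsion) (h2 : S.C2) (h4 : S.C4) (h5 : S.C5)
    (W : Fin N → diffAlg S.jets) :
    (nab S h2 h4 h5 W).f (vel S) = (nab S h2 h4 h5 (vel S)).f W := by
  funext i
  rw [nab_f, nab_f, ev_vel, ev_W_vel]
  congr 1
  simp only [GW, Finset.sum_mul]
  rw [Finset.sum_comm]
  refine Finset.sum_congr rfl fun s _ => Finset.sum_congr rfl fun k _ => ?_
  rw [Gam_symm S hT i s k]
  ring

/-- derivatives of the Christoffel symbols -/
noncomputable def dGam (i j k m : Fin N) : diffAlg S.jets :=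
  toA S _ (pdu_analytic S (S.analytic_α i j k) m)

theorem dGam_symm (hT : S.ZeroTorsion) (i j k m : Fin N) : dGam S i j k m = dGam S i k j m := by
  apply Subtype.ext
  funext u
  show pdu m (fun u => S.α u i j k) (u.1 0) = pdu m (fun u => S.α u i k j) (u.1 0)
  unfold GeometricSystem.pdu
  have : (fun u => S.α u i j k) =ᶠ[nhds (u.1 0)] (fun u => S.α u i k j) := by
    filter_upwards [S.isOpen_dom.mem_nhds u.2] with w hw
    exact hT w hw i j k
  rw [this.fderiv_eq]

theorem ev_Gam (W : Fin N → diffAlg S.jets) (i j k : Fin N) :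
    ev (isOpen_jets S) W (Gam S i j k) = ∑ m, dGam S i j k m * W m := ev_toA S W _ _

/-- curvature components -/
noncomputable def Rc (i j k l : Fin N) : diffAlg S.jets :=
  toA S _ (curv_analytic S i j k l)

theorem Rc_eq (i j k l : Fin N) : Rc S i j k l = dGam S i j l k - dGam S i j k l
    + ∑ s, Gam S i s k * Gam S s j l - ∑ s, Gam S i s l * Gam S s j k := by
  apply Subtype.ext
  funext u
  show S.curvComp (u.1 0) i j k l = (dGam S i j l k - dGam S i j k l
    + ∑ s, Gam S i s k * Gam S s j l - ∑ s, Gam S i s l * Gam S s j k : diffAlg S.jets).1 u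
  simp only [AddSubmonoidClass.coe_finsetSum, Finset.sum_apply, MulMemClass.coe_mul, Pi.mul_apply,
    AddSubgroupClass.coe_sub, Pi.sub_apply, AddMemClass.coe_add, Pi.add_apply]
  rfl

/-- The curvature of `Γ` along two evolutionary fields, as a matrix. -/
theorem curv_matrix (hT : S.ZeroTorsion) (W : Fin N → diffAlg S.jets) (i l : Fin N) :
    ev (isOpen_jets S) W (GW S (vel S) i l) - ev (isOpen_jets S) (vel S) (GW S W i l)
      + ∑ k, (GW S W i k * GW S (vel S) k l - GW S (vel S) i k * GW S W k l) =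
    ∑ m, ∑ s, Rc S i l m s * W m * vel S s := by
  have e1 : ev (isOpen_jets S) W (GW S (vel S) i l) =
      ∑ s, (Gam S i s l * (jetCalc (isOpen_jets S)).D (W s)
        + vel S s * ∑ m, dGam S i s l m * W m) := by
    simp only [GW, map_sum, Derivation.leibniz, smul_eq_mul, ev_Gam, ev_W_vel]
  have e2 : ev (isOpen_jets S) (vel S) (GW S W i l) =
      ∑ s, (Gam S i s l * (jetCalc (isOpen_jets S)).D (W s)
        + W s * ∑ m, dGam S i s l m * vel S m) := by
    simp only [GW, map_sum, Derivation.leibniz, smul_eq_mul, ev_Gam, ev_vel]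
  have e3 : ∑ s, vel S s * ∑ m, dGam S i s l m * W m =
      ∑ m, ∑ s, dGam S i s l m * W m * vel S s := by
    simp only [Finset.mul_sum]
    rw [Finset.sum_comm]
    refine Finset.sum_congr rfl fun m _ => Finset.sum_congr rfl fun s _ => ?_
    ring
  have e4 : ∑ s, W s * ∑ m, dGam S i s l m * vel S m =
      ∑ m, ∑ s, dGam S i m l s * W m * vel S s := by
    simp only [Finset.mul_sum]
    refine Finset.sum_congr rfl fun m _ => Finset.sum_congr rfl fun s _ => ?_
    ring
  have e5 : ∑ k, GW S W i k * GW S (vel S) k l =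
      ∑ m, ∑ s, (∑ k, Gam S i m k * Gam S k s l) * W m * vel S s := by
    exact prod_mat (Gam S) W (vel S) i l
  have e6 : ∑ k, GW S (vel S) i k * GW S W k l =
      ∑ m, ∑ s, (∑ k, Gam S i s k * Gam S k m l) * W m * vel S s := by
    have := prod_mat (Gam S) (vel S) W i l
    unfold GW
    rw [this, Finset.sum_comm]
    refine Finset.sum_congr rfl fun m _ => Finset.sum_congr rfl fun s _ => ?_
    ring
  rw [e1, e2, Finset.sum_add_distrib, Finset.sum_add_distrib, e3, e4, Finset.sum_sub_distrib,
    e5, e6]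
  simp only [Rc_eq]
  have e7 : ∀ m s, (dGam S i l s m - dGam S i l m s + ∑ k, Gam S i k m * Gam S k l s
      - ∑ k, Gam S i k s * Gam S k l m) * W m * vel S s =
      dGam S i s l m * W m * vel S s - dGam S i m l s * W m * vel S s
      + (∑ k, Gam S i m k * Gam S k s l) * W m * vel S s
      - (∑ k, Gam S i s k * Gam S k m l) * W m * vel S s := by
    intro m s
    rw [dGam_symm S hT i l s m, dGam_symm S hT i l m s]
    have f1 : ∑ k, Gam S i k m * Gam S k l s = ∑ k, Gam S i m k * Gam S k s l :=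
      Finset.sum_congr rfl fun k _ => by rw [Gam_symm S hT i k m, Gam_symm S hT k l s]
    have f2 : ∑ k, Gam S i k s * Gam S k l m = ∑ k, Gam S i s k * Gam S k m l :=
      Finset.sum_congr rfl fun k _ => by rw [Gam_symm S hT i k s, Gam_symm S hT k l m]
    rw [f1, f2]
    ring
  simp only [e7, Finset.sum_add_distrib, Finset.sum_sub_distrib]
  ring

theorem ev_comm (W : Fin N → diffAlg S.jets) (g : diffAlg S.jets) :
    ev (isOpen_jets S) W (ev (isOpen_jets S) (vel S) g) =
      ev (isOpen_jets S) (vel S) (ev (isOpen_jets S) W g) := by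
  rw [ev_vel, ev_vel, ev_D]

/-- The curvature identity. -/
theorem curvature (hT : S.ZeroTorsion) (h2 : S.C2) (h3 : S.C3) (h4 : S.C4) (h5 : S.C5)
    (W x : Fin N → diffAlg S.jets) :
    (nab S h2 h4 h5 W).f ((nab S h2 h4 h5 (vel S)).f x)
      - (nab S h2 h4 h5 (vel S)).f ((nab S h2 h4 h5 W).f x) =
    (jts S h4 h5).tri W (vel S) x - (jts S h4 h5).tri (vel S) W x := by
  have e1 : (nab S h2 h4 h5 W).f ((nab S h2 h4 h5 (vel S)).f x)
      - (nab S h2 h4 h5 (vel S)).f ((nab S h2 h4 h5 W).f x) =
      fun i => ∑ l, ∑ m, ∑ s, Rc S i l m s * x l * W m * vel S s := by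
    funext i
    rw [Pi.sub_apply, nab_f, nab_f]
    simp only [nab_f]
    have f1 : ∑ l, ∑ m, ∑ s, Rc S i l m s * x l * W m * vel S s =
        ∑ l, (ev (isOpen_jets S) W (GW S (vel S) i l) - ev (isOpen_jets S) (vel S) (GW S W i l)
      + ∑ k, (GW S W i k * GW S (vel S) k l - GW S (vel S) i k * GW S W k l)) * x l := by
      refine Finset.sum_congr rfl fun l _ => ?_
      rw [curv_matrix S hT W i l, Finset.sum_mul]
      refine Finset.sum_congr rfl fun m _ => ?_
      rw [Finset.sum_mul]
      refine Finset.sum_congr rfl fun s _ => ?_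
      ring
    have f2 : ∑ l, (∑ k, GW S W i k * GW S (vel S) k l) * x l =
        ∑ k, GW S W i k * ∑ l, GW S (vel S) k l * x l := by
      simp only [Finset.sum_mul, Finset.mul_sum]
      rw [Finset.sum_comm]
      refine Finset.sum_congr rfl fun m _ => Finset.sum_congr rfl fun s _ => ?_
      ring
    have f3 : ∑ l, (∑ k, GW S (vel S) i k * GW S W k l) * x l =
        ∑ k, GW S (vel S) i k * ∑ l, GW S W k l * x l := by
      simp only [Finset.sum_mul, Finset.mul_sum]
      rw [Finset.sum_comm]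
      refine Finset.sum_congr rfl fun m _ => Finset.sum_congr rfl fun s _ => ?_
      ring
    rw [f1]
    simp only [add_mul, sub_mul, Finset.sum_add_distrib, Finset.sum_sub_distrib, f2, f3,
      map_add, map_sum, Derivation.leibniz, smul_eq_mul, mul_add, ev_comm S W]
    have f4 : ∀ (a b : Fin N → diffAlg S.jets), ∑ k, a k * b k = ∑ k, b k * a k :=
      fun a b => Finset.sum_congr rfl fun k _ => mul_comm _ _
    rw [f4 (fun k => x k) (fun k => ev (isOpen_jets S) W (GW S (vel S) i k)),
      f4 (fun k => x k) (fun k => ev (isOpen_jets S) (vel S) (GW S W i k))]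
    ring
  rw [e1]
  apply val_ext
  intro j
  have e2 : ∀ a b : Fin N → diffAlg S.jets, val S j (a - b) = val S j a - val S j b :=
    fun _ _ => rfl
  rw [e2, (jts S h4 h5).symm W, (jts S h4 h5).symm (vel S) W]
  have e3 : ∀ a b c : Fin N → diffAlg S.jets, val S j ((jts S h4 h5).tri a b c) =
      S.σ (j.1 0) (val S j a) (val S j b) (val S j c) := fun a b c => val_tri S j a b c
  rw [e3, e3, ← h3 _ j.2]
  funext i
  show (∑ l, ∑ m, ∑ s, Rc S i l m s * x l * W m * vel S s : diffAlg S.jets).1 j = _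
  simp only [AddSubmonoidClass.coe_finsetSum, Finset.sum_apply, MulMemClass.coe_mul, Pi.mul_apply]
  rfl

end

end Pool.Agent.Lib.H29J
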