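import Pool.Agent.Lib.H29J.K

/-!
# The Kantor-Koecher-Tits algebra is a Lie algebra
-/

set_option autoImplicit false

namespace Pool.Agent.Lib.H29J

section

variable {A V : Type} [CommRing A] [AddCommGroup V] [Module A V]

theorem KKT.ext' {J : JTS A V} {X Y : KKT J} (h1 : X.1 = Y.1) (h2 : X.2.1.1.1 = Y.2.1.1.1)
    (h3 : X.2.1.1.2 = Y.2.1.1.2) (h4 : X.2.2 = Y.2.2) : X = Y := by
  obtain ⟨x, ⟨⟨T1, T2⟩, hT⟩, y⟩ := X
  obtain ⟨x', ⟨⟨T1', T2'⟩, hT'⟩, y'⟩ := Y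
  simp only at h1 h2 h3 h4
  subst h1 h2 h3 h4
  rfl

theorem KKT.br_p {J : JTS A V} (X Y : KKT J) :
    (⁅X, Y⁆ : KKT J).1 = X.2.1.1.1 Y.1 - Y.2.1.1.1 X.1 := rfl

theorem KKT.br_m {J : JTS A V} (X Y : KKT J) :
    (⁅X, Y⁆ : KKT J).2.2 = X.2.1.1.2 Y.2.2 - Y.2.1.1.2 X.2.2 := rfl

theorem KKT.br_1 {J : JTS A V} (X Y : KKT J) :
    (⁅X, Y⁆ : KKT J).2.1.1.1 = X.2.1.1.1 * Y.2.1.1.1 - Y.2.1.1.1 * X.2.1.1.1
      - J.tri X.1 Y.2.2 + J.tri Y.1 X.2.2 := by
  show (X.2.1.1.1 * Y.2.1.1.1 - Y.2.1.1.1 * X.2.1.1.1) + -(J.tri X.1 Y.2.2) - -(J.tri Y.1 X.2.2) = _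
  abel

theorem KKT.br_2 {J : JTS A V} (X Y : KKT J) :
    (⁅X, Y⁆ : KKT J).2.1.1.2 = X.2.1.1.2 * Y.2.1.1.2 - Y.2.1.1.2 * X.2.1.1.2
      + J.tri Y.2.2 X.1 - J.tri X.2.2 Y.1 := by
  rfl

theorem KKT.add_p {J : JTS A V} (X Y : KKT J) : (X + Y).1 = X.1 + Y.1 := rfl
theorem KKT.add_m {J : JTS A V} (X Y : KKT J) : (X + Y).2.2 = X.2.2 + Y.2.2 := rfl
theorem KKT.add_1 {J : JTS A V} (X Y : KKT J) :
    (X + Y).2.1.1.1 = X.2.1.1.1 + Y.2.1.1.1 := rfl
theorem KKT.add_2 {J : JTS A V} (X Y : KKT J) :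
    (X + Y).2.1.1.2 = X.2.1.1.2 + Y.2.1.1.2 := rfl
theorem KKT.zero_p {J : JTS A V} : (0 : KKT J).1 = 0 := rfl
theorem KKT.zero_m {J : JTS A V} : (0 : KKT J).2.2 = 0 := rfl
theorem KKT.zero_1 {J : JTS A V} : (0 : KKT J).2.1.1.1 = 0 := rfl
theorem KKT.zero_2 {J : JTS A V} : (0 : KKT J).2.1.1.2 = 0 := rfl

theorem Str.p1 {J : JTS A V} (T : Str J) (x y z : V) : T.1.1 (J.tri x y z) =
      J.tri (T.1.1 x) y z + J.tri x (T.1.2 y) z + J.tri x y (T.1.1 z) := T.2.1 x y z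

theorem Str.p2 {J : JTS A V} (T : Str J) (x y z : V) : T.1.2 (J.tri x y z) =
      J.tri (T.1.2 x) y z + J.tri x (T.1.1 y) z + J.tri x y (T.1.2 z) := T.2.2 x y z

instance (J : JTS A V) : LieRing (KKT J) where
  add_lie := by
    intro X Y Z
    apply KKT.ext'
    · simp only [KKT.br_p, KKT.add_p, KKT.add_1, LinearMap.add_apply, map_add]; abel
    · simp only [KKT.br_1, KKT.add_p, KKT.add_m, KKT.add_1, LinearMap.add_apply, map_add,
        add_mul, mul_add]; abel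
    · simp only [KKT.br_2, KKT.add_p, KKT.add_m, KKT.add_2, LinearMap.add_apply, map_add,
        add_mul, mul_add]; abel
    · simp only [KKT.br_m, KKT.add_m, KKT.add_2, LinearMap.add_apply, map_add]; abel
  lie_add := by
    intro X Y Z
    apply KKT.ext'
    · simp only [KKT.br_p, KKT.add_p, KKT.add_1, LinearMap.add_apply, map_add]; abel
    · simp only [KKT.br_1, KKT.add_p, KKT.add_m, KKT.add_1, LinearMap.add_apply, map_add,
        add_mul, mul_add]; abel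
    · simp only [KKT.br_2, KKT.add_p, KKT.add_m, KKT.add_2, LinearMap.add_apply, map_add,
        add_mul, mul_add]; abel
    · simp only [KKT.br_m, KKT.add_m, KKT.add_2, LinearMap.add_apply, map_add]; abel
  lie_self := by
    intro X
    apply KKT.ext'
    · simp only [KKT.br_p, KKT.zero_p, sub_self]
    · simp only [KKT.br_1, KKT.zero_1]; abel
    · simp only [KKT.br_2, KKT.zero_2]; abel
    · simp only [KKT.br_m, KKT.zero_m, sub_self]
  leibniz_lie := by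
    intro X Y Z
    apply KKT.ext'
    · simp only [KKT.br_p, KKT.add_p, KKT.br_1, map_sub, LinearMap.sub_apply,
        LinearMap.add_apply, Module.End.mul_apply]
      have h1 := J.symm X.1 Y.2.2 Z.1
      have h2 := J.symm X.1 Z.2.2 Y.1
      have h3 := J.symm Y.1 X.2.2 Z.1
      rw [h1, h2, h3]; abel
    · ext w
      simp only [KKT.br_p, KKT.br_m, KKT.add_1, KKT.br_1, map_sub, map_add, LinearMap.sub_apply,
        LinearMap.add_apply, Module.End.mul_apply, Str.p1, Str.p2]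
      abel
    · ext w
      simp only [KKT.br_p, KKT.br_m, KKT.add_2, KKT.br_2, map_sub, map_add, LinearMap.sub_apply,
        LinearMap.add_apply, Module.End.mul_apply, Str.p1, Str.p2]
      abel
    · simp only [KKT.br_m, KKT.add_m, KKT.br_2, map_sub, LinearMap.sub_apply,
        LinearMap.add_apply, Module.End.mul_apply]
      have h1 := J.symm X.2.2 Y.1 Z.2.2
      have h2 := J.symm X.2.2 Z.1 Y.2.2
      have h3 := J.symm Y.2.2 X.1 Z.2.2
      rw [h1, h2, h3]; abel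

end

section

variable {𝕜 A V : Type} [Field 𝕜] [CommRing A] [AddCommGroup V] [Module A V]
  [Algebra 𝕜 A] [Module 𝕜 V] [IsScalarTower 𝕜 A V]

theorem KKT.smul_p {J : JTS A V} (c : 𝕜) (X : KKT J) : (c • X).1 = c • X.1 := rfl
theorem KKT.smul_m {J : JTS A V} (c : 𝕜) (X : KKT J) : (c • X).2.2 = c • X.2.2 := rfl
theorem KKT.smul_1 {J : JTS A V} (c : 𝕜) (X : KKT J) :
    (c • X).2.1.1.1 = c • X.2.1.1.1 := rfl
theorem KKT.smul_2 {J : JTS A V} (c : 𝕜) (X : KKT J) :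
    (c • X).2.1.1.2 = c • X.2.1.1.2 := rfl

/-- `A`-linear maps are `𝕜`-linear. -/
theorem End.map_smul_k (T : Module.End A V) (c : 𝕜) (x : V) : T (c • x) = c • T x := by
  rw [← algebraMap_smul A c x, map_smul, algebraMap_smul]

theorem tri_smul_k1 (J : JTS A V) (c : 𝕜) (x y : V) : J.tri (c • x) y = c • J.tri x y := by
  rw [← algebraMap_smul A c x, map_smul, LinearMap.smul_apply, algebraMap_smul]

theorem tri_smul_k2 (J : JTS A V) (c : 𝕜) (x y : V) : J.tri x (c • y) = c • J.tri x y := by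
  rw [← algebraMap_smul A c y, map_smul, algebraMap_smul]

instance (J : JTS A V) : LieAlgebra 𝕜 (KKT J) where
  lie_smul := by
    intro c X Y
    apply KKT.ext'
    · simp only [KKT.br_p, KKT.smul_p, KKT.smul_1, End.map_smul_k, LinearMap.smul_apply, smul_sub]
    · simp only [KKT.br_1, KKT.smul_p, KKT.smul_m, KKT.smul_1, tri_smul_k1, tri_smul_k2,
        smul_sub, smul_add, mul_smul_comm, smul_mul_assoc]
    · simp only [KKT.br_2, KKT.smul_p, KKT.smul_m, KKT.smul_2, tri_smul_k1, tri_smul_k2,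
        smul_sub, smul_add, mul_smul_comm, smul_mul_assoc]
    · simp only [KKT.br_m, KKT.smul_m, KKT.smul_2, End.map_smul_k, LinearMap.smul_apply, smul_sub]

end

end Pool.Agent.Lib.H29J
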