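import Pool.Agent.Lib.H29J.D3

/-!
# The Riccati series and the flow of the system (abstract form)
-/

set_option autoImplicit false

namespace Pool.Agent.Lib.H29J

section

variable {𝕜 A V : Type} [Field 𝕜] [CharZero 𝕜] [CommRing A] [AddCommGroup V] [Module A V]
  [Algebra 𝕜 A] [Module 𝕜 V] [IsScalarTower 𝕜 A V]

include 𝕜 in
theorem JTS.cub (J : JTS A V) (x a b : V) :
    J.tri x a (J.tri x b x) = J.tri x b (J.tri x a x) := by
  have h1 := J.op x a x b x
  have h2 := J.op x b x a x
  rw [J.symm (J.tri x a x) b x] at h1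
  rw [J.symm (J.tri x b x) a x, J.symm b x a] at h2
  have h3 : (3 : 𝕜) • (J.tri x a (J.tri x b x) - J.tri x b (J.tri x a x)) = 0 := by
    have e1 : J.tri x a (J.tri x b x) - J.tri x b (J.tri x a x)
        + (J.tri x a (J.tri x b x) - J.tri x b (J.tri x a x))
        + (J.tri x a (J.tri x b x) - J.tri x b (J.tri x a x)) = 0 := by
      have e2 : J.tri x a (J.tri x b x) - J.tri x b (J.tri x a x) =
        (J.tri x b (J.tri x a x) - J.tri x (J.tri a x b) x + J.tri x b (J.tri x a x))
        - (J.tri x a (J.tri x b x) - J.tri x (J.tri a x b) x + J.tri x a (J.tri x b x)) := by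
        rw [← h1, ← h2]
      have e3 : J.tri x a (J.tri x b x) - J.tri x b (J.tri x a x)
        + (J.tri x a (J.tri x b x) - J.tri x b (J.tri x a x))
        + (J.tri x a (J.tri x b x) - J.tri x b (J.tri x a x)) =
        (J.tri x a (J.tri x b x) - J.tri x b (J.tri x a x)) -
        ((J.tri x b (J.tri x a x) - J.tri x (J.tri a x b) x + J.tri x b (J.tri x a x))
        - (J.tri x a (J.tri x b x) - J.tri x (J.tri a x b) x + J.tri x a (J.tri x b x))) := by
        abel
      rw [e3, ← e2, sub_self]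
    have e4 : (3 : 𝕜) = 1 + 1 + 1 := by norm_num
    rw [e4, add_smul, add_smul, one_smul]
    exact e1
  have h4 := (smul_eq_zero.mp h3).resolve_left (by norm_num)
  exact sub_eq_zero.mp h4

/-- The identity `z ∇W = -W + z σ(X, v, W)`. -/
theorem ric_flow {J : JTS A V} (n m : Nab 𝕜 J) (v F X : V) (z h : A) (hh : h + h = 1)
    (hnz : n.D z = 0) (hnh : n.D h = 0) (hmz : m.D z = 0) (hmh : m.D h = 0)
    (hc : Res.Compat n v m F) (hF : F = n.f (n.f v) + J.tri v v v)
    (hX : z • n.f X = z • v - X + (h * z) • J.tri X v X) (M P W : V)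
    (hM : M = z • v + z ^ 2 • n.f v + z ^ 3 • F)
    (hP : P = z • v - z ^ 2 • n.f v + z ^ 3 • F - X - z ^ 2 • J.tri v v X + h • J.tri X M X)
    (hW : W = z ^ 3 • m.f X - P) :
    z • n.f W = -W + z • J.tri X v W := by
  obtain ⟨hc1, hc2⟩ := hc
  have nsm : ∀ (k : ℕ) (x : V), n.f (z ^ k • x) = z ^ k • n.f x := by
    intro k x
    rw [n.leib, Derivation.leibniz_pow, hnz]
    simp
  have nz : ∀ x : V, n.f (z • x) = z • n.f x := by
    intro x; rw [n.leib, hnz, zero_smul, zero_add]
  have nh : ∀ x : V, n.f (h • x) = h • n.f x := by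
    intro x; rw [n.leib, hnh, zero_smul, zero_add]
  have mz : ∀ x : V, m.f (z • x) = z • m.f x := by
    intro x; rw [m.leib, hmz, zero_smul, zero_add]
  have mhz : ∀ x : V, m.f ((h * z) • x) = (h * z) • m.f x := by
    intro x; rw [m.leib, Derivation.leibniz, hmz, hmh]; simp
  -- the derivative of `δ X`
  have e1 : z • n.f (m.f X) = z • n.f F - m.f X + (h * z) • (J.tri X (n.f F) X)
      + z • J.tri X v (m.f X) - z • (J.tri F v X - J.tri v F X) := by
    have f1 : n.f (m.f X) = m.f (n.f X) - (J.tri F v X - J.tri v F X) := by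
      rw [← hc1 X]; abel
    have f2 : z • m.f (n.f X) = m.f (z • v - X + (h * z) • J.tri X v X) := by
      rw [← hX, mz]
    rw [f1, smul_sub, f2, map_add, map_sub, mz, mhz, hc2, m.tri, hc2,
      J.symm (m.f X) v X]
    have f3 : (h * z) • (J.tri X v (m.f X) + J.tri X (n.f F) X + J.tri X v (m.f X)) =
        (h * z) • (J.tri X (n.f F) X) + ((h + h) * z) • J.tri X v (m.f X) := by module
    rw [f3, hh, one_mul]
    abel
  -- the Jordan identities
  have j1 : J.tri X M (J.tri X v X) = J.tri X v (J.tri X M X) := JTS.cub (𝕜 := 𝕜) J X M v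
  have j2 : J.tri v v (J.tri X v X) = J.tri X v (J.tri v v X) + J.tri X v (J.tri v v X)
      - J.tri X (J.tri v v v) X := by
    rw [J.op X v v v X, J.symm (J.tri v v X) v X]; abel
  -- the derivative of `M`
  have eM : z • n.f M = z ^ 2 • n.f v + z ^ 3 • n.f (n.f v) + z ^ 4 • n.f F := by
    rw [hM, map_add, map_add, nz, nsm, nsm]
    module
  have eW : z • n.f W = z ^ 3 • (z • n.f (m.f X)) - z • n.f P := by
    rw [hW, map_sub, nsm]; module
  -- the derivative of `P`
  have eP : z • n.f P = z ^ 2 • n.f v - z ^ 3 • n.f (n.f v) + z ^ 4 • n.f F - z • n.f X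
      - z ^ 3 • (J.tri (n.f v) v X + J.tri v (n.f v) X) - z ^ 2 • J.tri v v (z • n.f X)
      + h • J.tri X (z • n.f M) X + J.tri X M (z • n.f X) := by
    rw [hP, map_add, map_sub, map_sub, map_add, map_sub, nz, nsm, nsm, nsm, nh, n.tri, n.tri,
      J.symm (n.f X) M X]
    simp only [map_smul, LinearMap.smul_apply]
    have f3 : J.tri X M (n.f X) = (h + h) • J.tri X M (n.f X) := by rw [hh, one_smul]
    have f4 : z • h • (J.tri X M (n.f X) + J.tri X (n.f M) X + J.tri X M (n.f X)) =
      h • z • J.tri X (n.f M) X + z • (h + h) • J.tri X M (n.f X) := by module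
    simp only [smul_add, smul_sub] at *
    rw [f4, ← f3]
    module
  rw [hX] at eP
  rw [eM] at eP
  rw [eW, e1, eP, hW, hP]
  generalize n.f F = F1
  generalize m.f X = dX
  rw [hM] at j1 ⊢
  rw [hF] at j1 ⊢
  simp only [map_add, map_sub, map_smul, LinearMap.add_apply, LinearMap.sub_apply,
    LinearMap.smul_apply] at j1 ⊢
  rw [j2]
  have s1 := J.symm v v X
  have s2 := J.symm (n.f v) v X
  have s3 := J.symm v (n.f v) X
  have s4 := J.symm (n.f (n.f v)) v X
  have s5 := J.symm (J.tri v v v) v X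
  have s6 := J.symm v (n.f (n.f v)) X
  have s7 := J.symm v (J.tri v v v) X
  rw [s1, s2, s3, s4, s5, s6, s7]
  linear_combination (norm := module) (-(h * z)) • j1 +
    hh • (-(z ^ 2 • J.tri X (n.f v) X + z ^ 3 • J.tri X (n.f (n.f v)) X
      + z ^ 3 • J.tri X (J.tri v v v) X - z ^ 3 • J.tri X v (J.tri X v v)))

end

end Pool.Agent.Lib.H29J
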