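import Pool.Agent.Lib.H29J.La
import Pool.Agent.Lib.H29J.I

/-!
# Base change to power series
-/

set_option autoImplicit false

open PowerSeries

namespace Pool.Agent.Lib.H29J

variable {N : ℕ}

section pure

variable {A : Type} [CommRing A]

theorem vec_ind {B : Type} [CommRing B] {P : (Fin N → B) → Prop} (h0 : P 0)
    (hadd : ∀ x y, P x → P y → P (x + y)) (hsmul : ∀ (c : B) x, P x → P (c • x))
    (hb : ∀ i, P (Pi.single i 1)) (x : Fin N → B) : P x := by
  have e : x = ∑ i, x i • (Pi.single i (1 : B) : Fin N → B) := by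
    funext j
    simp only [Finset.sum_apply, Pi.smul_apply, smul_eq_mul, Pi.single_apply]
    simp
  rw [e]
  exact Finset.sum_induction _ P hadd h0 fun i _ => hsmul _ _ (hb i)

/-- coefficient vector -/
noncomputable def cf (n : ℕ) (x : Fin N → A⟦X⟧) : Fin N → A := fun i => coeff n (x i)

/-- constant vector -/
noncomputable def cc (x : Fin N → A) : Fin N → A⟦X⟧ := fun i => C (x i)

/-- constant tensor -/
noncomputable def tT (T : Fin N → Fin N → Fin N → Fin N → A) (i j k l : Fin N) : A⟦X⟧ :=
  C (T i j k l)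

theorem cf_ext {x y : Fin N → A⟦X⟧} (h : ∀ n, cf n x = cf n y) : x = y := by
  funext i
  ext n
  exact congrFun (h n) i

theorem cf_add (n : ℕ) (x y : Fin N → A⟦X⟧) : cf n (x + y) = cf n x + cf n y := by
  funext i; exact map_add _ _ _
theorem cf_sub (n : ℕ) (x y : Fin N → A⟦X⟧) : cf n (x - y) = cf n x - cf n y := by
  funext i; exact map_sub _ _ _
theorem cf_neg (n : ℕ) (x : Fin N → A⟦X⟧) : cf n (-x) = -cf n x := by
  funext i; exact map_neg _ _
theorem cf_C_smul (n : ℕ) (c : A) (x : Fin N → A⟦X⟧) :
    cf n ((C c : A⟦X⟧) • x) = c • cf n x := by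
  funext i
  show coeff n (C c * x i) = c * coeff n (x i)
  rw [coeff_C_mul]
theorem cf_X_smul (n : ℕ) (x : Fin N → A⟦X⟧) : cf (n + 1) ((X : A⟦X⟧) • x) = cf n x := by
  funext i
  show coeff (n + 1) (X * x i) = coeff n (x i)
  rw [coeff_succ_X_mul]
theorem cf_X_smul_zero (x : Fin N → A⟦X⟧) : cf 0 ((X : A⟦X⟧) • x) = 0 := by
  funext i
  show coeff 0 (X * x i) = 0
  simp
theorem cf_Xn_smul (n k : ℕ) (x : Fin N → A⟦X⟧) :
    cf (n + k) ((X : A⟦X⟧) ^ k • x) = cf n x := by
  funext i
  show coeff (n + k) (X ^ k * x i) = coeff n (x i)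
  rw [coeff_X_pow_mul]
theorem cf_cc_zero (x : Fin N → A) : cf 0 (cc x) = x := by
  funext i
  show coeff 0 (C (x i)) = x i
  simp
theorem cf_cc_succ (n : ℕ) (x : Fin N → A) : cf (n + 1) (cc x) = 0 := by
  funext i
  show coeff (n + 1) (C (x i)) = 0
  rw [coeff_C, if_neg (by omega)]

theorem cf_smul (n : ℕ) (c : A⟦X⟧) (x : Fin N → A⟦X⟧) :
    cf n (c • x) = ∑ p ∈ Finset.HasAntidiagonal.antidiagonal n, coeff p.1 c • cf p.2 x := by
  funext i
  show coeff n (c * x i) = _
  rw [coeff_mul, Finset.sum_apply]
  rfl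

theorem sum_mv {ι : Type} (s : Finset ι) (F : Fin N → Fin N → Fin N → ι → A) :
    ∑ j, ∑ k, ∑ l, ∑ p ∈ s, F j k l p = ∑ p ∈ s, ∑ j, ∑ k, ∑ l, F j k l p := by
  have h1 : ∀ j k, ∑ l, ∑ p ∈ s, F j k l p = ∑ p ∈ s, ∑ l, F j k l p :=
    fun j k => Finset.sum_comm
  simp only [h1]
  have h2 : ∀ j, ∑ k, ∑ p ∈ s, ∑ l, F j k l p = ∑ p ∈ s, ∑ k, ∑ l, F j k l p :=
    fun j => Finset.sum_comm
  simp only [h2]
  exact Finset.sum_comm

theorem cf_tri3 (T : Fin N → Fin N → Fin N → Fin N → A) (n : ℕ) (x y z : Fin N → A⟦X⟧) :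
    cf n (triL (tT T) x y z) = ∑ p ∈ Finset.HasAntidiagonal.antidiagonal n, ∑ q ∈ Finset.HasAntidiagonal.antidiagonal p.1,
      triL T (cf q.1 x) (cf q.2 y) (cf p.2 z) := by
  funext i
  show coeff n (triL (tT T) x y z i) = _
  rw [triL_apply]
  have e : ∀ j k l, coeff n (tT T i j k l * x j * y k * z l) =
      ∑ p ∈ Finset.HasAntidiagonal.antidiagonal n, ∑ q ∈ Finset.HasAntidiagonal.antidiagonal p.1,
        T i j k l * cf q.1 x j * cf q.2 y k * cf p.2 z l := by
    intro j k l
    rw [coeff_mul]
    refine Finset.sum_congr rfl fun p _ => ?_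
    rw [coeff_mul, Finset.sum_mul]
    refine Finset.sum_congr rfl fun q _ => ?_
    unfold tT
    rw [coeff_C_mul]
    rfl
  simp only [map_sum, e]
  rw [sum_mv, Finset.sum_apply]
  refine Finset.sum_congr rfl fun p _ => ?_
  rw [sum_mv, Finset.sum_apply]
  rfl

theorem cf_tri2 (T : Fin N → Fin N → Fin N → Fin N → A) (n : ℕ) (b : Fin N → A)
    (x z : Fin N → A⟦X⟧) :
    cf n (triL (tT T) x (cc b) z) = ∑ p ∈ Finset.HasAntidiagonal.antidiagonal n,
      triL T (cf p.1 x) b (cf p.2 z) := by
  rw [cf_tri3]
  refine Finset.sum_congr rfl fun p _ => ?_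
  obtain ⟨a, b'⟩ := p
  simp only
  rw [Finset.sum_eq_single (a, 0)]
  · rw [cf_cc_zero]
  · rintro ⟨q1, q2⟩ hq hne
    rw [Finset.HasAntidiagonal.mem_antidiagonal] at hq
    simp only at hq
    cases q2 with
    | zero => exact absurd (by rw [add_zero] at hq; rw [hq]) hne
    | succ q2 => simp only [cf_cc_succ, map_zero, LinearMap.zero_apply]
  · intro h
    exact absurd (Finset.HasAntidiagonal.mem_antidiagonal.mpr (add_zero a)) h

theorem cf_tri1 (T : Fin N → Fin N → Fin N → Fin N → A) (n : ℕ) (a b : Fin N → A)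
    (x : Fin N → A⟦X⟧) :
    cf n (triL (tT T) (cc a) (cc b) x) = triL T a b (cf n x) := by
  rw [cf_tri2, Finset.sum_eq_single (0, n)]
  · rw [cf_cc_zero]
  · rintro ⟨q1, q2⟩ hq hne
    rw [Finset.HasAntidiagonal.mem_antidiagonal] at hq
    simp only at hq
    cases q1 with
    | zero => exact absurd (by rw [zero_add] at hq; rw [hq]) hne
    | succ q1 => simp only [cf_cc_succ, map_zero, LinearMap.zero_apply]
  · intro h
    exact absurd (Finset.HasAntidiagonal.mem_antidiagonal.mpr (zero_add n)) h

theorem tri_cc (T : Fin N → Fin N → Fin N → Fin N → A) (a b c : Fin N → A) :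
    triL (tT T) (cc a) (cc b) (cc c) = cc (triL T a b c) := by
  apply cf_ext
  intro n
  rw [cf_tri1]
  cases n with
  | zero => rw [cf_cc_zero, cf_cc_zero]
  | succ n => rw [cf_cc_succ, cf_cc_succ, map_zero]

theorem cc_add (x y : Fin N → A) : cc (x + y) = cc x + cc y := by
  funext i; exact map_add _ _ _
theorem cc_sub (x y : Fin N → A) : cc (x - y) = cc x - cc y := by
  funext i; exact map_sub _ _ _
theorem cc_zero : cc (0 : Fin N → A) = 0 := by
  funext i; exact map_zero _
theorem cc_single (i : Fin N) : cc (Pi.single i (1 : A) : Fin N → A) = Pi.single i 1 := by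
  funext j
  show C ((Pi.single i (1 : A) : Fin N → A) j) = _
  rw [Pi.single_apply, Pi.single_apply]
  split_ifs <;> simp

/-- Base change of a triple system. -/
noncomputable def jser (J : JTS A (Fin N → A)) (T : Fin N → Fin N → Fin N → Fin N → A)
    (h : J.tri = triL T) : JTS A⟦X⟧ (Fin N → A⟦X⟧) where
  tri := triL (tT T)
  symm x y z := by
    induction x using vec_ind with
    | h0 => simp only [map_zero, LinearMap.zero_apply]
    | hadd x x' hx hx' => simp only [map_add, LinearMap.add_apply, hx, hx']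
    | hsmul c x hx => simp only [map_smul, LinearMap.smul_apply, hx]
    | hb i =>
    induction y using vec_ind with
    | h0 => simp only [map_zero, LinearMap.zero_apply]
    | hadd x x' hx hx' => simp only [map_add, LinearMap.add_apply, hx, hx']
    | hsmul c x hx => simp only [map_smul, LinearMap.smul_apply, hx]
    | hb j =>
    induction z using vec_ind with
    | h0 => simp only [map_zero, LinearMap.zero_apply]
    | hadd x x' hx hx' => simp only [map_add, LinearMap.add_apply, hx, hx']
    | hsmul c x hx => simp only [map_smul, LinearMap.smul_apply, hx]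
    | hb k =>
      simp only [← cc_single, tri_cc]
      congr 1
      rw [← h]; exact J.symm _ _ _
  main x y z v w := by
    induction x using vec_ind with
    | h0 => simp only [map_zero, LinearMap.zero_apply, sub_zero, add_zero]
    | hadd x x' hx hx' =>
      have := congrArg₂ (· + ·) hx hx'
      simp only [add_zero] at this
      rw [← this]; simp only [map_add, LinearMap.add_apply]; abel
    | hsmul c x hx =>
      rw [← smul_zero c, ← hx]
      simp only [map_smul, LinearMap.smul_apply, smul_sub, smul_add]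
    | hb a =>
    induction y using vec_ind with
    | h0 => simp only [map_zero, LinearMap.zero_apply, sub_zero, add_zero]
    | hadd x x' hx hx' =>
      have := congrArg₂ (· + ·) hx hx'
      simp only [add_zero] at this
      rw [← this]; simp only [map_add, LinearMap.add_apply]; abel
    | hsmul c x hx =>
      rw [← smul_zero c, ← hx]
      simp only [map_smul, LinearMap.smul_apply, smul_sub, smul_add]
    | hb b =>
    induction z using vec_ind with
    | h0 => simp only [map_zero, LinearMap.zero_apply, sub_zero, add_zero]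
    | hadd x x' hx hx' =>
      have := congrArg₂ (· + ·) hx hx'
      simp only [add_zero] at this
      rw [← this]; simp only [map_add, LinearMap.add_apply]; abel
    | hsmul c x hx =>
      rw [← smul_zero c, ← hx]
      simp only [map_smul, LinearMap.smul_apply, smul_sub, smul_add]
    | hb c =>
    induction v using vec_ind with
    | h0 => simp only [map_zero, LinearMap.zero_apply, sub_zero, add_zero]
    | hadd x x' hx hx' =>
      have := congrArg₂ (· + ·) hx hx'
      simp only [add_zero] at this
      rw [← this]; simp only [map_add, LinearMap.add_apply]; abel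
    | hsmul c x hx =>
      rw [← smul_zero c, ← hx]
      simp only [map_smul, LinearMap.smul_apply, smul_sub, smul_add]
    | hb d =>
    induction w using vec_ind with
    | h0 => simp only [map_zero, LinearMap.zero_apply, sub_zero, add_zero]
    | hadd x x' hx hx' =>
      have := congrArg₂ (· + ·) hx hx'
      simp only [add_zero] at this
      rw [← this]; simp only [map_add, LinearMap.add_apply]; abel
    | hsmul c x hx =>
      rw [← smul_zero c, ← hx]
      simp only [map_smul, LinearMap.smul_apply, smul_sub, smul_add]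
    | hb e =>
      simp only [← cc_single, tri_cc, ← cc_sub, ← cc_add]
      rw [← h, J.main, cc_zero]

end pure

section der

variable {𝕜 A : Type} [Field 𝕜] [CommRing A] [Algebra 𝕜 A]

theorem coeff_ksmul (n : ℕ) (c : 𝕜) (f : A⟦X⟧) : coeff n (c • f) = c • coeff n f := by
  rfl

/-- The coefficientwise extension of a derivation. -/
noncomputable def Dser (D : Derivation 𝕜 A A) : Derivation 𝕜 A⟦X⟧ A⟦X⟧ where
  toFun f := mk fun n => D (coeff n f)
  map_add' f g := by ext n; simp
  map_smul' c f := by
    ext n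
    rw [coeff_mk, coeff_ksmul, RingHom.id_apply, coeff_ksmul, coeff_mk, Derivation.map_smul]
  map_one_eq_zero' := by
    ext n
    simp only [LinearMap.coe_mk, AddHom.coe_mk, coeff_mk, coeff_one, map_zero]
    split_ifs <;> simp
  leibniz' f g := by
    ext n
    simp only [LinearMap.coe_mk, AddHom.coe_mk, coeff_mk, map_add, smul_eq_mul, coeff_mul,
      map_sum, Derivation.leibniz, Finset.sum_add_distrib]
    congr 1
    exact (Finset.Nat.sum_antidiagonal_swap (n := n)
      (f := fun x : ℕ × ℕ => coeff x.1 g * D (coeff x.2 f)))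

theorem Dser_coeff (D : Derivation 𝕜 A A) (n : ℕ) (f : A⟦X⟧) :
    coeff n (Dser D f) = D (coeff n f) := by
  show coeff n (mk fun n => D (coeff n f)) = _
  exact coeff_mk _ _

theorem Dser_X (D : Derivation 𝕜 A A) : Dser D (X : A⟦X⟧) = 0 := by
  ext n
  rw [Dser_coeff, coeff_X, map_zero]
  split_ifs <;> simp

theorem Dser_C (D : Derivation 𝕜 A A) (c : 𝕜) : Dser D (C (algebraMap 𝕜 A c) : A⟦X⟧) = 0 := by
  ext n
  rw [Dser_coeff, coeff_C, map_zero]
  split_ifs <;> simp

/-- The coefficientwise extension of `∇`. -/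
noncomputable def nser (J : JTS A (Fin N → A)) (T : Fin N → Fin N → Fin N → Fin N → A)
    (h : J.tri = triL T) (n : Nab 𝕜 J) : Nab 𝕜 (jser J T h) where
  D := Dser n.D
  f :=
    { toFun := fun x i => mk fun k => n.f (cf k x) i
      map_add' := fun x y => by
        funext i; ext k
        simp [cf_add]
      map_smul' := fun c x => by
        funext i; ext k
        have : cf k (c • x) = c • cf k x := rfl
        show coeff k (mk fun k => n.f (cf k (c • x)) i) =
          coeff k (c • (mk fun k => n.f (cf k x) i : A⟦X⟧))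
        rw [coeff_mk, this, map_smul, coeff_ksmul, coeff_mk]
        rfl }
  leib c x := by
    funext i; ext k
    show coeff k (mk fun k => n.f (cf k (c • x)) i) = coeff k (Dser n.D c * x i
      + c * mk fun k => n.f (cf k x) i)
    rw [coeff_mk, cf_smul, map_sum, map_add, coeff_mul, coeff_mul, Finset.sum_apply,
      ← Finset.sum_add_distrib]
    refine Finset.sum_congr rfl fun p _ => ?_
    rw [n.leib, Dser_coeff, coeff_mk]
    rfl
  tri x y z := by
    have hcf : ∀ k (x : Fin N → A⟦X⟧), cf k (fun i => (mk fun k => n.f (cf k x) i : A⟦X⟧)) =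
        n.f (cf k x) := by
      intro k x; funext i
      show coeff k (mk fun k => n.f (cf k x) i) = _
      exact coeff_mk _ _
    show (fun i => mk fun k => n.f (cf k (triL (tT T) x y z)) i) =
      triL (tT T) (fun i => mk fun k => n.f (cf k x) i) y z
      + triL (tT T) x (fun i => mk fun k => n.f (cf k y) i) z
      + triL (tT T) x y (fun i => mk fun k => n.f (cf k z) i)
    apply cf_ext
    intro k
    rw [hcf, cf_add, cf_add, cf_tri3, cf_tri3, cf_tri3, cf_tri3, map_sum,
      ← Finset.sum_add_distrib, ← Finset.sum_add_distrib]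
    refine Finset.sum_congr rfl fun p _ => ?_
    rw [map_sum, ← Finset.sum_add_distrib, ← Finset.sum_add_distrib]
    refine Finset.sum_congr rfl fun q _ => ?_
    rw [hcf, hcf, hcf, ← h, n.tri]

theorem cf_nser (J : JTS A (Fin N → A)) (T : Fin N → Fin N → Fin N → Fin N → A)
    (h : J.tri = triL T) (n : Nab 𝕜 J) (k : ℕ) (x : Fin N → A⟦X⟧) :
    cf k ((nser J T h n).f x) = n.f (cf k x) := by
  funext i
  show coeff k (mk fun k => n.f (cf k x) i) = _
  exact coeff_mk _ _

theorem nser_cc (J : JTS A (Fin N → A)) (T : Fin N → Fin N → Fin N → Fin N → A)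
    (h : J.tri = triL T) (n : Nab 𝕜 J) (x : Fin N → A) :
    (nser J T h n).f (cc x) = cc (n.f x) := by
  apply cf_ext
  intro k
  rw [cf_nser]
  cases k with
  | zero => rw [cf_cc_zero, cf_cc_zero]
  | succ k => rw [cf_cc_succ, cf_cc_succ, map_zero]

theorem compat_ser (J : JTS A (Fin N → A)) (T : Fin N → Fin N → Fin N → Fin N → A)
    (h : J.tri = triL T) (n m : Nab 𝕜 J) (v F : Fin N → A) (hc : Res.Compat n v m F) :
    Res.Compat (nser J T h n) (cc v) (nser J T h m) (cc F) := by
  obtain ⟨h1, h2⟩ := hc
  constructor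
  · intro x
    apply cf_ext
    intro k
    rw [cf_sub, cf_nser, cf_nser, cf_nser, cf_nser, h1, cf_sub]
    show _ = cf k (triL (tT T) (cc F) (cc v) x) - cf k (triL (tT T) (cc v) (cc F) x)
    rw [cf_tri1, cf_tri1, h]
  · rw [nser_cc, nser_cc, h2]

end der

end Pool.Agent.Lib.H29J
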