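import Pool.Agent.Lib.H29J.Lb

/-!
# The Riccati series and the flow of the system (coefficients)
-/

set_option autoImplicit false

open PowerSeries

namespace Pool.Agent.Lib.H29J

variable {N : ℕ}

section

variable {𝕜 A : Type} [Field 𝕜] [CharZero 𝕜] [CommRing A] [Algebra 𝕜 A]

omit [CharZero 𝕜] in
theorem ric_zero {J : JTS A (Fin N → A)} {T : Fin N → Fin N → Fin N → Fin N → A}
    {h : J.tri = triL T} (n : Nab 𝕜 J) (v : Fin N → A) (Y W : Fin N → A⟦X⟧)
    (hW : (X : A⟦X⟧) • (nser J T h n).f W = -W + (X : A⟦X⟧) • (jser J T h).tri Y (cc v) W) :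
    W = 0 := by
  have key : ∀ k, cf k W = 0 := by
    intro k
    induction k using Nat.strong_induction_on with
    | _ k ih =>
      have h1 := congrArg (cf k) hW
      rw [cf_add, cf_neg] at h1
      cases k with
      | zero =>
        rw [cf_X_smul_zero, cf_X_smul_zero, add_zero] at h1
        exact neg_eq_zero.mp h1.symm
      | succ k =>
        rw [cf_X_smul, cf_X_smul, cf_nser, ih k (by omega), map_zero] at h1
        have h2 : cf k ((jser J T h).tri Y (cc v) W) = 0 := by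
          show cf k (triL (tT T) Y (cc v) W) = 0
          rw [cf_tri2]
          refine Finset.sum_eq_zero fun p hp => ?_
          rw [Finset.HasAntidiagonal.mem_antidiagonal] at hp
          rw [ih p.2 (by omega), map_zero]
        rw [h2, add_zero] at h1
        exact neg_eq_zero.mp h1.symm
  apply cf_ext
  intro k
  rw [key k]
  rfl

theorem half_smul (y : Fin N → A) : (algebraMap 𝕜 A (1 / 2)) • y = (1 / 2 : 𝕜) • y :=
  algebraMap_smul A (1 / 2 : 𝕜) y

/-- The derivative of the Riccati coefficients along the system. -/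
theorem ric_coeff {J : JTS A (Fin N → A)} {T : Fin N → Fin N → Fin N → Fin N → A}
    (h : J.tri = triL T) (n m : Nab 𝕜 J) (v F : Fin N → A) (hc : Res.Compat n v m F)
    (hF : F = n.f (n.f v) + J.tri v v v) (x : ℕ → Fin N → A) (h0 : x 0 = 0) (h1 : x 1 = v)
    (hrec : ∀ k, 1 ≤ k → x (k + 1) = -n.f (x k) + (1 / 2 : 𝕜) •
      ∑ p ∈ Finset.HasAntidiagonal.antidiagonal k, J.tri (x p.1) v (x p.2)) (k : ℕ) (hk : 1 ≤ k) :
    m.f (x k) = n.f (x (k + 2)) - J.tri v v (x (k + 1)) + (1 / 2 : 𝕜) •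
      ∑ p ∈ Finset.HasAntidiagonal.antidiagonal (k + 1), J.tri (x p.1) (n.f v) (x p.2) +
      (1 / 2 : 𝕜) • ∑ p ∈ Finset.HasAntidiagonal.antidiagonal k, J.tri (x p.1) F (x p.2) := by
  obtain ⟨Y, hY⟩ : ∃ Y : Fin N → A⟦X⟧, Y = fun i => mk fun k => x k i := ⟨_, rfl⟩
  have cY : ∀ k, cf k Y = x k := by
    intro k; funext i; rw [hY]; exact coeff_mk _ _
  have ctri : ∀ b k, cf k ((jser J T h).tri Y (cc b) Y) =
      ∑ p ∈ Finset.HasAntidiagonal.antidiagonal k, J.tri (x p.1) b (x p.2) := by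
    intro b k
    show cf k (triL (tT T) Y (cc b) Y) = _
    rw [cf_tri2, h]
    simp only [cY]
  have ctri1 : ∀ k, cf k ((jser J T h).tri (cc v) (cc v) Y) = J.tri v v (x k) := by
    intro k
    show cf k (triL (tT T) (cc v) (cc v) Y) = _
    rw [cf_tri1, h, cY]
  have hX : (X : A⟦X⟧) • (nser J T h n).f Y = (X : A⟦X⟧) • cc v - Y +
      ((C (algebraMap 𝕜 A (1 / 2)) : A⟦X⟧) * X) • (jser J T h).tri Y (cc v) Y := by
    apply cf_ext
    intro k
    rw [cf_add, cf_sub, mul_smul, cf_C_smul, cY]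
    cases k with
    | zero =>
      rw [cf_X_smul_zero, cf_X_smul_zero, cf_X_smul_zero, h0, smul_zero, sub_zero, add_zero]
    | succ k =>
      rw [cf_X_smul, cf_X_smul, cf_X_smul, ctri, cf_nser, cY, half_smul]
      cases k with
      | zero =>
        have : (Finset.HasAntidiagonal.antidiagonal 0 : Finset (ℕ × ℕ)) = {(0, 0)} := rfl
        rw [cf_cc_zero, h0, map_zero, h1, sub_self, this, Finset.sum_singleton, h0]
        simp
      | succ k =>
        rw [cf_cc_succ, hrec (k + 1) (by omega)]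
        abel
  have hh : (C (algebraMap 𝕜 A (1 / 2)) : A⟦X⟧) + C (algebraMap 𝕜 A (1 / 2)) = 1 := by
    rw [← map_add, ← map_add]
    norm_num
  have hF' : cc F = (nser J T h n).f ((nser J T h n).f (cc v))
      + (jser J T h).tri (cc v) (cc v) (cc v) := by
    rw [nser_cc, nser_cc]
    show cc F = _ + triL (tT T) (cc v) (cc v) (cc v)
    rw [tri_cc, ← cc_add, hF, h]
  obtain ⟨M, hM⟩ : ∃ M : Fin N → A⟦X⟧, M = (X : A⟦X⟧) • cc v + (X : A⟦X⟧) ^ 2 •
      (nser J T h n).f (cc v) + (X : A⟦X⟧) ^ 3 • cc F := ⟨_, rfl⟩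
  obtain ⟨P, hP⟩ : ∃ P : Fin N → A⟦X⟧, P = (X : A⟦X⟧) • cc v - (X : A⟦X⟧) ^ 2 •
      (nser J T h n).f (cc v) + (X : A⟦X⟧) ^ 3 • cc F - Y
      - (X : A⟦X⟧) ^ 2 • (jser J T h).tri (cc v) (cc v) Y
      + (C (algebraMap 𝕜 A (1 / 2)) : A⟦X⟧) • (jser J T h).tri Y M Y := ⟨_, rfl⟩
  obtain ⟨W, hW⟩ : ∃ W : Fin N → A⟦X⟧, W = (X : A⟦X⟧) ^ 3 • (nser J T h m).f Y - P := ⟨_, rfl⟩
  have key := ric_flow (nser J T h n) (nser J T h m) (cc v) (cc F) Y X
    (C (algebraMap 𝕜 A (1 / 2))) hh (Dser_X _) (Dser_C _ _) (Dser_X _) (Dser_C _ _)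
    (compat_ser J T h n m v F hc) hF' hX M P W hM hP hW
  have W0 : W = 0 := ric_zero n v Y W key
  rw [W0] at hW
  have h3 := congrArg (cf (k + 3)) (sub_eq_zero.mp hW.symm)
  have e2 : cf (k + 3) ((X : A⟦X⟧) ^ 2 • (nser J T h n).f (cc v)) = 0 := by
    rw [show k + 3 = (k + 1) + 2 from rfl, cf_Xn_smul, nser_cc, cf_cc_succ]
  have e3 : cf (k + 3) ((X : A⟦X⟧) ^ 3 • cc F) = 0 := by
    obtain ⟨k', rfl⟩ : ∃ k', k = k' + 1 := ⟨k - 1, by omega⟩
    rw [cf_Xn_smul, cf_cc_succ]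
  have e4 : cf (k + 3) ((X : A⟦X⟧) • cc v) = 0 := by
    rw [show k + 3 = (k + 2) + 1 from rfl, cf_X_smul, cf_cc_succ]
  have e5 : (jser J T h).tri Y M Y = (X : A⟦X⟧) • (jser J T h).tri Y (cc v) Y +
      (X : A⟦X⟧) ^ 2 • (jser J T h).tri Y (cc (n.f v)) Y +
      (X : A⟦X⟧) ^ 3 • (jser J T h).tri Y (cc F) Y := by
    rw [hM, nser_cc]
    simp only [map_add, map_smul, LinearMap.add_apply, LinearMap.smul_apply]
  rw [cf_Xn_smul, cf_nser, cY, hP, cf_add, cf_sub, cf_sub, cf_add, cf_sub, e2, e3, e4, cY, e5,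
    cf_C_smul, half_smul, cf_add, cf_add, cf_Xn_smul,
    show k + 3 = (k + 2) + 1 from rfl, cf_X_smul, show (k + 2) + 1 = (k + 1) + 2 from rfl,
    cf_Xn_smul, cf_Xn_smul, ctri, ctri, ctri, ctri1] at h3
  have h4 := hrec (k + 2) (by omega)
  have e6 : n.f (x (k + 2)) = -x (k + 1 + 2) + (1 / 2 : 𝕜) •
      ∑ p ∈ Finset.HasAntidiagonal.antidiagonal (k + 2), J.tri (x p.1) v (x p.2) := by
    rw [show k + 1 + 2 = k + 2 + 1 from rfl, h4]; abel
  rw [h3, e6, smul_add, smul_add]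
  abel

end

end Pool.Agent.Lib.H29J
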