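import Pool.Agent.Lib.H29J.Lc
import Pool.Agent.Lib.H29J.F
import Pool.Agent.Lib.H94J.Defs

/-!
# The conserved densities
-/

set_option autoImplicit false

namespace Pool.Agent.Lib.H29J

open Pool.Agent.Lib.H99JetCalc GeometricSystem

section abs

variable {N : ℕ} {𝕜 A : Type} [Field 𝕜] [CharZero 𝕜] [CommRing A] [Algebra 𝕜 A]

theorem dyn_abs {J : JTS A (Fin N → A)} {T : Fin N → Fin N → Fin N → Fin N → A}
    (h : J.tri = triL T) (n m : Nab 𝕜 J) (v F : Fin N → A) (hc : Res.Compat n v m F)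
    (hF : F = n.f (n.f v) + J.tri v v v) (x : ℕ → Fin N → A) (h0 : x 0 = 0) (h1 : x 1 = v)
    (hrec : ∀ k, 1 ≤ k → x (k + 1) = -n.f (x k) + (1 / 2 : 𝕜) •
      ∑ p ∈ Finset.HasAntidiagonal.antidiagonal k, J.tri (x p.1) v (x p.2))
    (G : (Fin N → A) →ₗ[A] (Fin N → A) →ₗ[A] A) (hsym : ∀ x y, G x y = G y x)
    (hinv : ∀ x y z w, G (J.tri x y z) w = G z (J.tri y x w))
    (hn : ∀ x y, n.D (G x y) = G (n.f x) y + G x (n.f y))
    (hm : ∀ x y, m.D (G x y) = G (m.f x) y + G x (m.f y)) (k : ℕ) (hk : 1 ≤ k) :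
    m.D (G (x k) v) = n.D (G (x (k + 2)) v + G (x (k + 1)) (n.f v) + G (x k) F) := by
  have hs : ∀ (b : Fin N → A) (l : ℕ), 1 ≤ l → G ((1 / 2 : 𝕜) •
      ∑ p ∈ Finset.HasAntidiagonal.antidiagonal l, J.tri (x p.1) b (x p.2)) v =
      G (x (l + 1) + n.f (x l)) b := by
    intro b l hl
    have e1 : x (l + 1) + n.f (x l) = (1 / 2 : 𝕜) •
      ∑ p ∈ Finset.HasAntidiagonal.antidiagonal l, J.tri (x p.1) v (x p.2) := by
      rw [hrec l hl]; abel
    rw [e1, ← half_smul, ← half_smul, map_smul, map_smul, map_sum, map_sum,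
      LinearMap.smul_apply, LinearMap.smul_apply, LinearMap.sum_apply, LinearMap.sum_apply]
    congr 1
    refine Finset.sum_congr rfl fun p _ => ?_
    rw [hinv, hinv, J.symm b (x p.1) v]
  have h3 := ric_coeff h n m v F hc hF x h0 h1 hrec k hk
  have h4 := hs (n.f v) (k + 1) (by omega)
  have h5 := hs F k hk
  rw [hm, h3, hc.2]
  simp only [map_add, map_sub, LinearMap.add_apply, LinearMap.sub_apply, hn, h4, h5]
  have h6 : G (J.tri v v (x (k + 1))) v = G (x (k + 1)) (J.tri v v v) := hinv _ _ _ _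
  have h7 : G (x (k + 1)) F = G (x (k + 1)) (n.f (n.f v)) + G (x (k + 1)) (J.tri v v v) := by
    rw [← map_add, ← hF]
  rw [h6]
  linear_combination h7

end abs

section

variable {𝕜 : Type} [RCLike 𝕜] {N : ℕ}

variable (S : GeometricSystem 𝕜 N) {g : (Fin N → 𝕜) → Fin N → Fin N → 𝕜}
  (h : H94J.InvForm S S.dom g)

/-- The form in the algebra of differential functions. -/
noncomputable def gA (a b : Fin N) : diffAlg S.jets := toA S (fun u => g u a b) (h.analytic a b)

/-- The bilinear map. -/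
noncomputable def gL : (Fin N → diffAlg S.jets) →ₗ[diffAlg S.jets] (Fin N → diffAlg S.jets)
    →ₗ[diffAlg S.jets] diffAlg S.jets :=
  LinearMap.mk₂ _ (fun x y => ∑ a, ∑ b, gA S h a b * x a * y b)
    (fun x x' y => by
      simp only [Pi.add_apply, mul_add, add_mul, Finset.sum_add_distrib])
    (fun c x y => by
      simp only [Pi.smul_apply, smul_eq_mul, Finset.mul_sum]
      refine Finset.sum_congr rfl fun a _ => Finset.sum_congr rfl fun b _ => ?_
      ring)
    (fun x y y' => by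
      simp only [Pi.add_apply, mul_add, Finset.sum_add_distrib])
    (fun c x y => by
      simp only [Pi.smul_apply, smul_eq_mul, Finset.mul_sum]
      refine Finset.sum_congr rfl fun a _ => Finset.sum_congr rfl fun b _ => ?_
      ring)

theorem gL_apply (x y : Fin N → diffAlg S.jets) :
    gL S h x y = ∑ a, ∑ b, gA S h a b * x a * y b := rfl

theorem gL_val (x y : Fin N → diffAlg S.jets) (j : S.jets) :
    (gL S h x y).1 j = H94J.bil (g (j.1 0)) (val S j x) (val S j y) := by
  rw [gL_apply]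
  simp only [AddSubmonoidClass.coe_finsetSum, Finset.sum_apply, MulMemClass.coe_mul, Pi.mul_apply]
  rfl

theorem gL_symm (x y : Fin N → diffAlg S.jets) : gL S h x y = gL S h y x := by
  rw [gL_apply, gL_apply, Finset.sum_comm]
  refine Finset.sum_congr rfl fun a _ => Finset.sum_congr rfl fun b _ => ?_
  have : gA S h b a = gA S h a b := by
    apply Subtype.ext
    funext j
    exact h.symm _ j.2 b a
  rw [this]; ring

theorem gL_inv (x y z w : Fin N → diffAlg S.jets) :
    gL S h (triL (Sg S) x y z) w = gL S h z (triL (Sg S) y x w) := by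
  apply Subtype.ext
  funext j
  rw [gL_val, gL_val, val_tri, val_tri]
  exact h.inv _ j.2 _ _ _ _

theorem ev_gA (W : Fin N → diffAlg S.jets) (a b : Fin N) :
    ev (isOpen_jets S) W (gA S h a b) =
      ∑ s, (GW S W s a * gA S h s b + GW S W s b * gA S h a s) := by
  have e : ev (isOpen_jets S) W (gA S h a b) =
      ∑ m, toA S _ (pdu_analytic S (h.analytic a b) m) * W m := ev_toA S W _ _
  have e2 : ∀ m, toA S _ (pdu_analytic S (h.analytic a b) m) =
      ∑ s, (Gam S s m a * gA S h s b + Gam S s m b * gA S h a s) := by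
    intro m
    apply Subtype.ext
    funext j
    have := h.parallel _ j.2 m a b
    show pdu m (fun u => g u a b) (j.1 0) =
      (∑ s, (Gam S s m a * gA S h s b + Gam S s m b * gA S h a s) : diffAlg S.jets).1 j
    simp only [AddSubmonoidClass.coe_finsetSum, Finset.sum_apply, MulMemClass.coe_mul,
      Pi.mul_apply, AddMemClass.coe_add, Pi.add_apply]
    exact this
  rw [e]
  simp only [e2, GW, Finset.sum_mul]
  rw [Finset.sum_comm]
  refine Finset.sum_congr rfl fun s _ => ?_
  rw [← Finset.sum_add_distrib]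
  refine Finset.sum_congr rfl fun m _ => ?_
  ring

theorem gL_der (h2 : S.C2) (h4 : S.C4) (h5 : S.C5) (W x y : Fin N → diffAlg S.jets) :
    ev (isOpen_jets S) W (gL S h x y) =
      gL S h ((nab S h2 h4 h5 W).f x) y + gL S h x ((nab S h2 h4 h5 W).f y) := by
  simp only [gL_apply, nab_f, map_sum, Derivation.leibniz, smul_eq_mul, ev_gA]
  have e1 : ∀ a b, gA S h a b * (ev (isOpen_jets S) W (x a) + ∑ k, GW S W a k * x k) * y b =
      gA S h a b * ev (isOpen_jets S) W (x a) * y b
      + ∑ k, gA S h a b * GW S W a k * x k * y b := by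
    intro a b
    rw [mul_add, add_mul, Finset.mul_sum, Finset.sum_mul]
    congr 1
    refine Finset.sum_congr rfl fun k _ => ?_
    ring
  have e2 : ∀ a b, gA S h a b * x a * (ev (isOpen_jets S) W (y b) + ∑ k, GW S W b k * y k) =
      gA S h a b * x a * ev (isOpen_jets S) W (y b)
      + ∑ k, gA S h a b * GW S W b k * x a * y k := by
    intro a b
    rw [mul_add, Finset.mul_sum]
    congr 1
    refine Finset.sum_congr rfl fun k _ => ?_
    ring
  simp only [e1, e2, Finset.sum_add_distrib]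
  have e3 : ∑ a, ∑ b, ∑ k, gA S h a b * GW S W a k * x k * y b =
      ∑ a, ∑ b, x a * y b * ∑ s, GW S W s a * gA S h s b := by
    simp only [Finset.mul_sum]
    have f1 : ∀ a, ∑ b, ∑ k, gA S h a b * GW S W a k * x k * y b =
        ∑ k, ∑ b, gA S h a b * GW S W a k * x k * y b := fun a => Finset.sum_comm
    simp only [f1]
    rw [Finset.sum_comm]
    refine Finset.sum_congr rfl fun a _ => ?_
    rw [Finset.sum_comm]
    refine Finset.sum_congr rfl fun b _ => Finset.sum_congr rfl fun k _ => ?_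
    ring
  have e4 : ∑ a, ∑ b, ∑ k, gA S h a b * GW S W b k * x a * y k =
      ∑ a, ∑ b, x a * y b * ∑ s, GW S W s b * gA S h a s := by
    simp only [Finset.mul_sum]
    refine Finset.sum_congr rfl fun a _ => ?_
    rw [Finset.sum_comm]
    refine Finset.sum_congr rfl fun b _ => Finset.sum_congr rfl fun k _ => ?_
    ring
  rw [e3, e4]
  simp only [← Finset.sum_add_distrib]
  refine Finset.sum_congr rfl fun a _ => Finset.sum_congr rfl fun b _ => ?_
  rw [Finset.sum_add_distrib]
  ring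

/-- **Conservation.** -/
theorem dyn (hT : S.ZeroTorsion) (h2 : S.C2) (h3 : S.C3) (h4 : S.C4) (h5 : S.C5)
    (x : ℕ → Fin N → diffAlg S.jets) (h0 : x 0 = 0) (h1 : x 1 = vel S)
    (hrec : ∀ k, 1 ≤ k → x (k + 1) = -(nab S h2 h4 h5 (vel S)).f (x k) + (1 / 2 : 𝕜) •
      ∑ p ∈ Finset.HasAntidiagonal.antidiagonal k, triL (Sg S) (x p.1) (vel S) (x p.2))
    (F : Fin N → diffAlg S.jets)
    (hF : F = (nab S h2 h4 h5 (vel S)).f ((nab S h2 h4 h5 (vel S)).f (vel S))
      + triL (Sg S) (vel S) (vel S) (vel S)) (k : ℕ) (hk : 1 ≤ k) :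
    ∃ θ : diffAlg S.jets, ev (isOpen_jets S) F
      (∑ a, ∑ b, gA S h a b * x k a * vel S b) = (jetCalc (isOpen_jets S)).D θ := by
  refine ⟨gL S h (x (k + 2)) (vel S)
    + gL S h (x (k + 1)) ((nab S h2 h4 h5 (vel S)).f (vel S)) + gL S h (x k) F, ?_⟩
  have hc : Res.Compat (nab S h2 h4 h5 (vel S)) (vel S) (nab S h2 h4 h5 F) F :=
    ⟨fun x => curvature S hT h2 h3 h4 h5 F x, torsion S hT h2 h4 h5 F⟩
  have key := dyn_abs (T := Sg S) (J := jts S h4 h5) rfl (nab S h2 h4 h5 (vel S))
    (nab S h2 h4 h5 F) (vel S) F hc hF x h0 h1 hrec (gL S h) (gL_symm S h) (gL_inv S h)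
    (fun x y => gL_der S h h2 h4 h5 (vel S) x y) (fun x y => gL_der S h h2 h4 h5 F x y) k hk
  rw [← ev_vel]
  exact key

end

end Pool.Agent.Lib.H29J
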