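import Pool.Agent.Lib.H29J.Ld
import Pool.Agent.Lib.H94J.R4

/-!
# The conserved densities, in the notation of `H94J`
-/

set_option autoImplicit false

namespace Pool.Agent.Lib.H94J

open Pool.Agent.Lib.H99JetCalc Pool.Agent.Lib.H29J

variable {𝕜 : Type} [RCLike 𝕜] {N : ℕ} {S : GeometricSystem 𝕜 N}
  {g : (Fin N → 𝕜) → Fin N → Fin N → 𝕜}

theorem dyn (hT : S.ZeroTorsion) (h2 : S.C2) (h3 : S.C3) (h4 : S.C4) (h5 : S.C5)
    (h : InvForm S S.dom g) {x : ℕ → Fin N → diffAlg S.jets} (hx : IsRic h2 h4 h5 x)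
    (F : Fin N → diffAlg S.jets)
    (hF : F = (nab S h2 h4 h5 (vel S)).f ((nab S h2 h4 h5 (vel S)).f (vel S))
      + (jts S h4 h5).tri (vel S) (vel S) (vel S)) (k : ℕ) (hk : 1 ≤ k) :
    ∃ θ : diffAlg S.jets, ev (isOpen_jets S) F (gf h (x k) (vel S)) =
      (jetCalc (isOpen_jets S)).D θ :=
  Pool.Agent.Lib.H29J.dyn S h hT h2 h3 h4 h5 x hx.zero hx.one hx.succ F hF k hk

end Pool.Agent.Lib.H94J
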