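import Pool.Agent.Lib.H29J.L

/-!
# Operators on the Kantor-Koecher-Tits algebra
-/

set_option autoImplicit false

namespace Pool.Agent.Lib.H29J

section

variable {𝕜 A V : Type} [Field 𝕜] [CommRing A] [AddCommGroup V] [Module A V]
  [Algebra 𝕜 A] [Module 𝕜 V] [IsScalarTower 𝕜 A V]

/-- The operator `∇` on the whole algebra. -/
def Nab.lift {J : JTS A V} (n : Nab 𝕜 J) : Module.End 𝕜 (KKT J) where
  toFun X := (n.f X.1, ⟨(n.cm X.2.1.1.1, n.cm X.2.1.1.2), n.cm_str X.2.1⟩, n.f X.2.2)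
  map_add' X Y := by
    apply KKT.ext'
    · exact map_add n.f _ _
    · ext w
      simp only [Nab.cm, KKT.add_1, LinearMap.coe_mk, AddHom.coe_mk, LinearMap.add_apply, map_add]
      abel
    · ext w
      simp only [Nab.cm, KKT.add_2, LinearMap.coe_mk, AddHom.coe_mk, LinearMap.add_apply, map_add]
      abel
    · exact map_add n.f _ _
  map_smul' c X := by
    apply KKT.ext'
    · exact map_smul n.f _ _
    · ext w
      simp only [Nab.cm, KKT.smul_1, LinearMap.coe_mk, AddHom.coe_mk, LinearMap.smul_apply,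
        map_smul, RingHom.id_apply, smul_sub]
    · ext w
      simp only [Nab.cm, KKT.smul_2, LinearMap.coe_mk, AddHom.coe_mk, LinearMap.smul_apply,
        map_smul, RingHom.id_apply, smul_sub]
    · exact map_smul n.f _ _

theorem Nab.lift_p {J : JTS A V} (n : Nab 𝕜 J) (X : KKT J) : (n.lift X).1 = n.f X.1 := rfl
theorem Nab.lift_m {J : JTS A V} (n : Nab 𝕜 J) (X : KKT J) : (n.lift X).2.2 = n.f X.2.2 := rfl
theorem Nab.lift_1 {J : JTS A V} (n : Nab 𝕜 J) (X : KKT J) (w : V) :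
    (n.lift X).2.1.1.1 w = n.f (X.2.1.1.1 w) - X.2.1.1.1 (n.f w) := rfl
theorem Nab.lift_2 {J : JTS A V} (n : Nab 𝕜 J) (X : KKT J) (w : V) :
    (n.lift X).2.1.1.2 w = n.f (X.2.1.1.2 w) - X.2.1.1.2 (n.f w) := rfl

/-- `lift ∇` is a derivation of the Lie algebra. -/
theorem Nab.lift_lie {J : JTS A V} (n : Nab 𝕜 J) (X Y : KKT J) :
    n.lift ⁅X, Y⁆ = ⁅n.lift X, Y⁆ + ⁅X, n.lift Y⁆ := by
  apply KKT.ext'
  · simp only [Nab.lift_p, KKT.br_p, KKT.add_p, Nab.lift_1, map_sub]; abel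
  · ext w
    simp only [Nab.lift_1, Nab.lift_p, Nab.lift_m, KKT.br_1, KKT.add_1, LinearMap.sub_apply,
      LinearMap.add_apply, Module.End.mul_apply, map_sub, map_add, n.tri]
    abel
  · ext w
    simp only [Nab.lift_2, Nab.lift_p, Nab.lift_m, KKT.br_2, KKT.add_2, LinearMap.sub_apply,
      LinearMap.add_apply, Module.End.mul_apply, map_sub, map_add, n.tri]
    abel
  · simp only [Nab.lift_m, KKT.br_m, KKT.add_m, Nab.lift_2, map_sub]; abel

/-- The commutator of `lift ∇` with `ad X`. -/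
theorem Nab.lift_ad {J : JTS A V} (n : Nab 𝕜 J) (X : KKT J) :
    ⁅n.lift, LieAlgebra.ad 𝕜 (KKT J) X⁆ = LieAlgebra.ad 𝕜 (KKT J) (n.lift X) := by
  ext1 Y
  rw [Ring.lie_def, LinearMap.sub_apply, Module.End.mul_apply, Module.End.mul_apply,
    LieAlgebra.ad_apply, LieAlgebra.ad_apply, LieAlgebra.ad_apply, n.lift_lie]
  abel

/-- `ad` is injective. -/
theorem KKT.ad_inj {J : JTS A V} {X Y : KKT J}
    (h : LieAlgebra.ad 𝕜 (KKT J) X = LieAlgebra.ad 𝕜 (KKT J) Y) : X = Y := by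
  have hz : ∀ Z : KKT J, ⁅X, Z⁆ = ⁅Y, Z⁆ := fun Z => by
    rw [← LieAlgebra.ad_apply 𝕜, ← LieAlgebra.ad_apply 𝕜, h]
  have hg := hz (KKT.gr J)
  apply KKT.ext'
  · have := congrArg (fun W : KKT J => W.1) hg
    simp only [KKT.br_p, KKT.gr] at this
    simpa using this
  · ext w
    have := congrArg (fun W : KKT J => W.1) (hz (KKT.pl J w))
    simp only [KKT.br_p, KKT.pl] at this
    simpa using this
  · ext w
    have := congrArg (fun W : KKT J => W.2.2) (hz (KKT.mi J w))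
    simp only [KKT.br_m, KKT.mi] at this
    simpa using this
  · have := congrArg (fun W : KKT J => W.2.2) hg
    simp only [KKT.br_m, KKT.gr] at this
    simpa using this

/-- the swap as an operator -/
def swapE {J : JTS A V} : Module.End 𝕜 (KKT J) where
  toFun := KKT.swap J
  map_add' _ _ := rfl
  map_smul' _ _ := rfl

theorem KKT.swap_lie {J : JTS A V} (X Y : KKT J) :
    KKT.swap J ⁅X, Y⁆ = ⁅KKT.swap J X, KKT.swap J Y⁆ := by
  apply KKT.ext'
  · rfl
  · show (⁅X, Y⁆ : KKT J).2.1.1.2 = (⁅KKT.swap J X, KKT.swap J Y⁆ : KKT J).2.1.1.1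
    rw [KKT.br_1, KKT.br_2]
    show _ = X.2.1.1.2 * Y.2.1.1.2 - Y.2.1.1.2 * X.2.1.1.2 - J.tri X.2.2 Y.1 + J.tri Y.2.2 X.1
    abel
  · show (⁅X, Y⁆ : KKT J).2.1.1.1 = (⁅KKT.swap J X, KKT.swap J Y⁆ : KKT J).2.1.1.2
    rw [KKT.br_1, KKT.br_2]
    show _ = X.2.1.1.1 * Y.2.1.1.1 - Y.2.1.1.1 * X.2.1.1.1 + J.tri Y.1 X.2.2 - J.tri X.1 Y.2.2
    abel
  · rfl

theorem swapE_ad {J : JTS A V} (X : KKT J) :
    (swapE : Module.End 𝕜 (KKT J)) * LieAlgebra.ad 𝕜 (KKT J) X * swapE =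
      LieAlgebra.ad 𝕜 (KKT J) (KKT.swap J X) := by
  ext1 Y
  show KKT.swap J ⁅X, KKT.swap J Y⁆ = ⁅KKT.swap J X, Y⁆
  rw [KKT.swap_lie]
  rfl

theorem swapE_sq {J : JTS A V} : (swapE : Module.End 𝕜 (KKT J)) * swapE = 1 := rfl

theorem swapE_lift {J : JTS A V} (n : Nab 𝕜 J) :
    (swapE : Module.End 𝕜 (KKT J)) * n.lift * swapE = n.lift := rfl

theorem KKT.swap_gr {J : JTS A V} : KKT.swap J (KKT.gr J) = -KKT.gr J := by
  apply KKT.ext'
  · show (0 : V) = -0; rw [neg_zero]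
  · rfl
  · show (1 : Module.End A V) = - -1; rw [neg_neg]
  · show (0 : V) = -0; rw [neg_zero]

theorem KKT.swap_Q {J : JTS A V} (v : V) : KKT.swap J (KKT.Q J v) = KKT.Q J v := rfl

/-- `lift ∇` kills the grading element. -/
theorem Nab.lift_gr {J : JTS A V} (n : Nab 𝕜 J) : n.lift (KKT.gr J) = 0 := by
  apply KKT.ext'
  · exact map_zero n.f
  · ext w
    show n.f w - n.f w = 0
    rw [sub_self]
  · ext w
    show n.f (-w) - -(n.f w) = 0
    rw [map_neg, sub_neg_eq_add, neg_add_cancel]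
  · exact map_zero n.f

/-- commuting nablas have commuting lifts -/
theorem Nab.lift_comm {J : JTS A V} (n m : Nab 𝕜 J) (h : ∀ x, n.f (m.f x) = m.f (n.f x)) :
    ⁅n.lift, m.lift⁆ = 0 := by
  ext1 X
  rw [Ring.lie_def, LinearMap.sub_apply, Module.End.mul_apply, Module.End.mul_apply]
  apply KKT.ext'
  · show n.f (m.f X.1) - m.f (n.f X.1) = 0
    rw [h, sub_self]
  · ext w
    show n.f (m.f (X.2.1.1.1 w) - X.2.1.1.1 (m.f w)) - (m.f (X.2.1.1.1 (n.f w))
        - X.2.1.1.1 (m.f (n.f w)))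
      - (m.f (n.f (X.2.1.1.1 w) - X.2.1.1.1 (n.f w)) - (n.f (X.2.1.1.1 (m.f w))
        - X.2.1.1.1 (n.f (m.f w)))) = 0
    simp only [map_sub, h]
    abel
  · ext w
    show n.f (m.f (X.2.1.1.2 w) - X.2.1.1.2 (m.f w)) - (m.f (X.2.1.1.2 (n.f w))
        - X.2.1.1.2 (m.f (n.f w)))
      - (m.f (n.f (X.2.1.1.2 w) - X.2.1.1.2 (n.f w)) - (n.f (X.2.1.1.2 (m.f w))
        - X.2.1.1.2 (n.f (m.f w)))) = 0
    simp only [map_sub, h]
    abel
  · show n.f (m.f X.2.2) - m.f (n.f X.2.2) = 0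
    rw [h, sub_self]

/-- Adding an inner derivation `b` (given by `(b, b)` in the structure algebra) to `∇`. -/
def Nab.addB {J : JTS A V} (n : Nab 𝕜 J) (b : Module.End A V)
    (hb : ((b, b) : Module.End A V × Module.End A V) ∈ Str J) : Nab 𝕜 J where
  D := n.D
  f := n.f + b.restrictScalars 𝕜
  leib c x := by
    show n.f (c • x) + b (c • x) = n.D c • x + c • (n.f x + b x)
    rw [n.leib, map_smul, smul_add]; abel
  tri x y z := by
    show n.f (J.tri x y z) + b (J.tri x y z) = J.tri (n.f x + b x) y z + J.tri x (n.f y + b y) z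
      + J.tri x y (n.f z + b z)
    have h1 : b (J.tri x y z) = J.tri (b x) y z + J.tri x (b y) z + J.tri x y (b z) := hb.1 x y z
    rw [n.tri, h1]
    simp only [map_add, LinearMap.add_apply]
    abel

theorem Nab.addB_f {J : JTS A V} (n : Nab 𝕜 J) (b : Module.End A V)
    (hb : ((b, b) : Module.End A V × Module.End A V) ∈ Str J) (x : V) :
    (n.addB b hb).f x = n.f x + b x := rfl

end

end Pool.Agent.Lib.H29J
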